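import Mathlib
import Pool.Agent.H373R2.NB.Weyl

/-! Polynomial phases: multiples close to integers and recurrence. -/

set_option autoImplicit false

namespace Pool.Agent.W5h32.PM
open Finset
open Pool.Agent.H373R2.NB (Ph IW IW_all vinogradov Ph_poly)
open Pool.Agent.Helper602.MK (ee)
open Pool.Agent.Helper602.MK.N_J5b (ee_add ee_zero ee_conj norm_ee ee_int ee_nat_mul ee_add_int ee_eq)

/-- a multiple of `α` by a number at most `T` is at distance at most `T * η` from an integer -/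
def NI (T η α : ℝ) : Prop := ∃ q : ℕ, 1 ≤ q ∧ (q : ℝ) ≤ T ∧ ∃ a : ℤ, |q * α - a| ≤ T * η

lemma NI_mono {T η T' η' α : ℝ} (h : NI T η α) (hT : T ≤ T') (hη : T * η ≤ T' * η') : NI T' η' α := by
  obtain ⟨q, hq, hqT, a, ha⟩ := h
  exact ⟨q, hq, hqT.trans hT, a, ha.trans hη⟩

/-- from a multiple to the number itself -/
lemma NI_of_mul {T η α : ℝ} (n : ℕ) (hn : 1 ≤ n) (h : NI T η (n * α)) {T' η' : ℝ} (hT : n * T ≤ T') (hη : T * η ≤ T' * η') :
    NI T' η' α := by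
  obtain ⟨q, hq, hqT, a, ha⟩ := h
  refine ⟨q * n, Nat.mul_pos hq hn, ?_, a, ?_⟩
  · push_cast
    have hn0 : (0 : ℝ) ≤ n := Nat.cast_nonneg n
    nlinarith
  · refine le_trans (le_of_eq ?_) (ha.trans hη)
    push_cast
    rw [mul_assoc]

/-- from the number to a multiple -/
lemma NI_mul {T η α : ℝ} (n : ℕ) (h : NI T η α) {η' : ℝ} (hη : n * (T * η) ≤ T * η') :
    NI T η' (n * α) := by
  obtain ⟨q, hq, hqT, a, ha⟩ := h
  refine ⟨q, hq, hqT, n * a, ?_⟩
  have h1 : (q : ℝ) * (n * α) - ((n * a : ℤ) : ℝ) = n * (q * α - a) := by push_cast; ring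
  rw [h1, abs_mul, Nat.abs_cast]
  exact (mul_le_mul_of_nonneg_left ha (Nat.cast_nonneg n)).trans hη

lemma Ph_smul (d : ℕ) : ∀ (c α : ℝ) (φ : ℕ → ℝ), Ph d α φ → Ph d (c * α) (fun n => c * φ n) := by
  induction d with
  | zero =>
    intro c α φ h n
    show c * φ n = c * α
    rw [h n]
  | succ d ih =>
    intro c α φ h k
    have h1 := ih c (k * α) _ (h k)
    have h2 : (k : ℝ) * (c * α) = c * (k * α) := by ring
    rw [h2]
    have h3 : (fun n => c * φ (n + k) - c * φ n) = fun n => c * (φ (n + k) - φ n) := by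
      funext n; ring
    show Ph d _ (fun n => c * φ (n + k) - c * φ n)
    rw [h3]
    exact h1

lemma Ph_sub (d : ℕ) : ∀ (α β : ℝ) (φ ψ : ℕ → ℝ), Ph d α φ → Ph d β ψ → Ph d (α - β) (fun n => φ n - ψ n) := by
  induction d with
  | zero =>
    intro α β φ ψ h h' n
    show φ n - ψ n = α - β
    rw [h n, h' n]
  | succ d ih =>
    intro α β φ ψ h h' k
    have h1 := ih (k * α) (k * β) _ _ (h k) (h' k)
    have h2 : (k : ℝ) * (α - β) = k * α - k * β := by ring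
    rw [h2]
    have h3 : (fun n => (φ (n + k) - ψ (n + k)) - (φ n - ψ n)) = fun n => (φ (n + k) - φ n) - (ψ (n + k) - ψ n) := by
      funext n; ring
    show Ph d _ (fun n => (φ (n + k) - ψ (n + k)) - (φ n - ψ n))
    rw [h3]
    exact h1

lemma Ph_zero (d : ℕ) : Ph d 0 (fun _ => (0 : ℝ)) := by
  induction d with
  | zero => intro n; rfl
  | succ d ih =>
    intro k
    show Ph d ((k : ℝ) * 0) (fun _ => (0 : ℝ) - 0)
    rw [mul_zero, sub_zero]
    exact ih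

lemma Ph_const (d : ℕ) (hd : 1 ≤ d) (c : ℝ) : Ph d 0 (fun _ => c) := by
  obtain ⟨e, rfl⟩ : ∃ e, d = e + 1 := ⟨d - 1, by omega⟩
  intro k
  show Ph e ((k : ℝ) * 0) (fun _ => c - c)
  rw [mul_zero, sub_self]
  exact Ph_zero e

lemma Ph_affine (d : ℕ) : ∀ (α : ℝ) (φ : ℕ → ℝ) (u n : ℕ), Ph d α φ → Ph d ((n : ℝ) ^ d * α) (fun s => φ (u + n * s)) := by
  induction d with
  | zero =>
    intro α φ u n h s
    show φ (u + n * s) = (n : ℝ) ^ 0 * α
    rw [h, pow_zero, one_mul]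
  | succ d ih =>
    intro α φ u n h k
    have h1 := ih _ _ u n (h (n * k))
    have h2 : (k : ℝ) * ((n : ℝ) ^ (d + 1) * α) = (n : ℝ) ^ d * (((n * k : ℕ) : ℝ) * α) := by push_cast; ring
    rw [h2]
    have h3 : (fun s => φ (u + n * (s + k)) - φ (u + n * s)) = fun s => φ (u + n * s + n * k) - φ (u + n * s) := by
      funext s
      rw [show u + n * (s + k) = u + n * s + n * k by ring]
    show Ph d _ (fun s => φ (u + n * (s + k)) - φ (u + n * s))
    rw [h3]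
    exact h1

/-- powers -/
lemma Ph_pow (k : ℕ) (β : ℝ) : Ph k ((k.factorial : ℝ) * β) (fun n => β * (n : ℝ) ^ k) := by
  have h := Ph_poly k (Polynomial.X ^ k) (by rw [Polynomial.natDegree_X_pow]) β
  rw [Polynomial.coeff_X_pow_self] at h
  have h2 : (fun n : ℕ => β * (((Polynomial.X ^ k : Polynomial ℤ).eval (n : ℤ) : ℤ) : ℝ)) = fun n : ℕ => β * (n : ℝ) ^ k := by
    funext n
    rw [Polynomial.eval_pow, Polynomial.eval_X]
    push_cast
    ring
  rw [h2] at h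
  have h3 : β * ((k.factorial : ℝ) * ((1 : ℤ) : ℝ)) = (k.factorial : ℝ) * β := by push_cast; ring
  rw [h3] at h
  exact h

/-- powers along a progression -/
lemma Ph_pow_affine (k : ℕ) (β : ℝ) (u n : ℕ) :
    Ph k ((n : ℝ) ^ k * ((k.factorial : ℝ) * β)) (fun s => β * ((u + n * s : ℕ) : ℝ) ^ k) :=
  Ph_affine k _ _ u n (Ph_pow k β)

lemma two_pow_ge (c : ℕ) {u : ℝ} (hu : 2 ≤ u) : (c : ℝ) ≤ u ^ c := by
  have h1 : (c : ℝ) ≤ (2 : ℝ) ^ c := by exact_mod_cast (Nat.lt_two_pow_self (n := c)).le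
  exact h1.trans (pow_le_pow_left₀ (by norm_num) hu c)

/-- inverse theorem for a Weyl sum of length at most `K` -/
lemma iw_len (d : ℕ) (hd : 1 ≤ d) : ∃ m : ℕ, ∀ (u K : ℝ) (n : ℕ) (α : ℝ) (φ : ℕ → ℝ), 2 ≤ u → 0 < K → (n : ℝ) ≤ K → Ph d α φ →
    ‖∑ s ∈ range n, ee (φ s)‖ ≤ K / u ∨ NI (u ^ m) (1 / K ^ d) α := by
  obtain ⟨c, m, hc, hI⟩ := IW_all d hd
  refine ⟨c + m + d, fun u K n α φ hu hK hn hφ => ?_⟩
  by_cases h : ‖∑ s ∈ range n, ee (φ s)‖ ≤ K / u
  · exact Or.inl h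
  right
  push Not at h
  have hu0 : 0 < u := by linarith
  have hu1 : 1 ≤ u := by linarith
  have h1 : ‖∑ s ∈ range n, ee (φ s)‖ ≤ n := by
    refine (norm_sum_le _ _).trans ?_
    simp [norm_ee]
  have hKn : K / u < n := h.trans_le h1
  have hn0 : (0 : ℝ) < n := lt_trans (by positivity) hKn
  have hn1 : 1 ≤ n := by exact_mod_cast hn0
  obtain ⟨q, hq1, hq2, a, ha⟩ := hI n u α φ hn1 hu1 hφ (by
    rw [div_lt_iff₀ hu0] at h
    linarith)
  have hcu : (c : ℝ) ≤ u ^ c := two_pow_ge c hu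
  have hcm : (c : ℝ) * u ^ m ≤ u ^ (c + m) := by
    rw [pow_add]
    exact mul_le_mul_of_nonneg_right hcu (by positivity)
  refine ⟨q, hq1, hq2.trans (hcm.trans (pow_le_pow_right₀ hu1 (by omega))), a, ha.trans ?_⟩
  have h2 : (K / u) ^ d ≤ (n : ℝ) ^ d := pow_le_pow_left₀ (by positivity) hKn.le d
  calc (c : ℝ) * u ^ m / (n : ℝ) ^ d ≤ u ^ (c + m) / (K / u) ^ d := by gcongr
    _ = u ^ (c + m + d) * (1 / K ^ d) := by
        rw [div_pow, pow_add u (c + m) d]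
        field_simp

open Classical in
/-- the pigeonhole principle -/
lemma pig (S : Finset ℕ) (Q : ℝ) (hQ : 1 ≤ Q) (P : ℕ → ℕ → Prop) (h : ∀ n ∈ S, ∃ q : ℕ, 1 ≤ q ∧ (q : ℝ) ≤ Q ∧ P q n) :
    ∃ q : ℕ, 1 ≤ q ∧ (q : ℝ) ≤ Q ∧ ∃ S' ⊆ S, (S.card : ℝ) ≤ Q * S'.card ∧ ∀ n ∈ S', P q n := by
  choose! f hf1 hf2 hf3 using h
  have hne : (Icc 1 ⌊Q⌋₊).Nonempty := ⟨1, by rw [mem_Icc]; exact ⟨le_rfl, Nat.le_floor (by simpa using hQ)⟩⟩
  have hcard : (0 : ℝ) < ((Icc 1 ⌊Q⌋₊).card : ℝ) := by exact_mod_cast card_pos.2 hne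
  obtain ⟨y, hy, hy2⟩ := exists_le_card_fiber_of_nsmul_le_card_of_maps_to (s := S) (t := Icc 1 ⌊Q⌋₊) (f := f)
    (b := (S.card : ℝ) / ((Icc 1 ⌊Q⌋₊).card : ℝ)) (fun a ha => by
      rw [mem_Icc]; exact ⟨hf1 a ha, Nat.le_floor (hf2 a ha)⟩) hne (by
      rw [nsmul_eq_mul, mul_div_cancel₀ _ hcard.ne'])
  rw [mem_Icc] at hy
  have hyQ : (y : ℝ) ≤ Q := (Nat.le_floor_iff (by linarith)).1 hy.2
  refine ⟨y, hy.1, hyQ, S.filter (fun x => f x = y), filter_subset _ _, ?_, ?_⟩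
  · rw [div_le_iff₀ hcard] at hy2
    have h1 : ((Icc 1 ⌊Q⌋₊).card : ℝ) ≤ Q := by
      rw [Nat.card_Icc, Nat.add_sub_cancel]
      exact Nat.floor_le (by linarith)
    calc (S.card : ℝ) ≤ ((S.filter (fun x => f x = y)).card : ℝ) * ((Icc 1 ⌊Q⌋₊).card : ℝ) := hy2
      _ ≤ ((S.filter (fun x => f x = y)).card : ℝ) * Q := mul_le_mul_of_nonneg_left h1 (Nat.cast_nonneg _)
      _ = _ := mul_comm _ _
  · intro n hn
    rw [mem_filter] at hn
    rw [← hn.2]
    exact hf3 n hn.1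

/-- sums over the distances -/
lemma dist_sum (H j : ℕ) (g : ℕ → ℝ) (hg : ∀ h, 0 ≤ g h) (hj : j < H) :
    ∑ i ∈ range H, g ((j - i) + (i - j)) ≤ 2 * ∑ h ∈ range H, g h := by
  have hmap : ∀ i ∈ range H, (j - i) + (i - j) ∈ range H := by
    intro i hi
    rw [mem_range] at hi ⊢
    omega
  rw [← sum_fiberwise_of_maps_to hmap, mul_sum]
  apply sum_le_sum
  intro h _
  have h1 : ∑ i ∈ (range H).filter (fun i => (j - i) + (i - j) = h), g ((j - i) + (i - j)) =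
      ((range H).filter (fun i => (j - i) + (i - j) = h)).card * g h := by
    rw [← nsmul_eq_mul, ← sum_const]
    apply sum_congr rfl
    intro i hi
    rw [(mem_filter.1 hi).2]
  rw [h1]
  apply mul_le_mul_of_nonneg_right _ (hg h)
  have h2 : (range H).filter (fun i => (j - i) + (i - j) = h) ⊆ {j + h, j - h} := by
    intro i hi
    rw [mem_filter] at hi
    rw [mem_insert, mem_singleton]
    omega
  have h3 := (card_le_card h2).trans (card_insert_le _ _)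
  rw [card_singleton] at h3
  exact_mod_cast h3

/-- many values near integers give many large exponential sums -/
lemma fejer (f : ℕ → ℝ) (N H : ℕ) (κ : ℝ) (hκ : (H : ℝ) * κ ≤ 1 / 8) (S : Finset ℕ) (hS : S ⊆ range N)
    (hf : ∀ n ∈ S, ∃ a : ℤ, |f n - a| ≤ κ) :
    (S.card : ℝ) * H ^ 2 / 4 ≤ 2 * H * ∑ h ∈ range H, ‖∑ n ∈ range N, ee (h * f n)‖ := by
  have h1 : (S.card : ℝ) * H ^ 2 / 4 ≤ ∑ n ∈ range N, ‖∑ j ∈ range H, ee (j * f n)‖ ^ 2 := by
    have e1 : ∀ n ∈ S, (H : ℝ) ^ 2 / 4 ≤ ‖∑ j ∈ range H, ee (j * f n)‖ ^ 2 := by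
      intro n hn
      obtain ⟨a, ha⟩ := hf n hn
      have e2 : (H : ℝ) / 2 ≤ ‖∑ j ∈ range H, ee (j * f n)‖ := by
        refine le_trans ?_ (Complex.re_le_norm _)
        rw [Complex.re_sum]
        have e3 : ∀ j ∈ range H, (1 : ℝ) / 2 ≤ (ee (j * f n)).re := by
          intro j hj
          rw [mem_range] at hj
          have e4 : ee (j * f n) = ee (j * (f n - a)) := by
            have : (j : ℝ) * f n = j * (f n - a) + ((j * a : ℤ) : ℝ) := by push_cast; ring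
            rw [this, ee_add_int]
          rw [e4, ee_eq, Complex.exp_ofReal_mul_I_re]
          have hj' : (j : ℝ) ≤ H := by exact_mod_cast hj.le
          have hκ0 : 0 ≤ κ := (abs_nonneg _).trans ha
          have e5 : |(j : ℝ) * (f n - a)| ≤ 1 / 8 := by
            rw [abs_mul, Nat.abs_cast]
            calc (j : ℝ) * |f n - a| ≤ H * κ := mul_le_mul hj' ha (abs_nonneg _) (Nat.cast_nonneg _)
              _ ≤ _ := hκ
          have e6 : (2 * Real.pi * ((j : ℝ) * (f n - a))) ^ 2 ≤ 1 := by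
            rw [mul_pow, mul_pow]
            have p1 := Real.pi_lt_d2
            have p0 := Real.pi_pos
            have e7 : ((j : ℝ) * (f n - a)) ^ 2 ≤ (1 / 8) ^ 2 := by
              rw [← sq_abs]
              exact pow_le_pow_left₀ (abs_nonneg _) e5 2
            have e8 : Real.pi ^ 2 ≤ 10 := by nlinarith
            calc 2 ^ 2 * Real.pi ^ 2 * ((j : ℝ) * (f n - a)) ^ 2 ≤ 2 ^ 2 * 10 * (1 / 8) ^ 2 := by gcongr
              _ ≤ 1 := by norm_num
          have e9 := Real.one_sub_sq_div_two_le_cos (x := 2 * Real.pi * ((j : ℝ) * (f n - a)))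
          linarith
        calc (H : ℝ) / 2 = ∑ _j ∈ range H, (1 : ℝ) / 2 := by rw [sum_const, card_range, nsmul_eq_mul]; ring
          _ ≤ _ := sum_le_sum e3
      calc (H : ℝ) ^ 2 / 4 = (H / 2) ^ 2 := by ring
        _ ≤ _ := pow_le_pow_left₀ (by positivity) e2 2
    calc (S.card : ℝ) * H ^ 2 / 4 = ∑ _n ∈ S, (H : ℝ) ^ 2 / 4 := by rw [sum_const, nsmul_eq_mul]; ring
      _ ≤ ∑ n ∈ S, ‖∑ j ∈ range H, ee (j * f n)‖ ^ 2 := sum_le_sum e1
      _ ≤ _ := sum_le_sum_of_subset_of_nonneg hS (fun _ _ _ => by positivity)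
  refine h1.trans ?_
  -- expansion
  have h2 : ((∑ n ∈ range N, ‖∑ j ∈ range H, ee (j * f n)‖ ^ 2 : ℝ) : ℂ) =
      ∑ j ∈ range H, ∑ i ∈ range H, ∑ n ∈ range N, ee (j * f n) * (starRingEnd ℂ) (ee (i * f n)) := by
    push_cast
    have e1 : ∀ n ∈ range N, ((‖∑ j ∈ range H, ee (j * f n)‖ : ℂ)) ^ 2 =
        ∑ j ∈ range H, ∑ i ∈ range H, ee (j * f n) * (starRingEnd ℂ) (ee (i * f n)) := by
      intro n _
      rw [← Complex.mul_conj', map_sum, sum_mul_sum]
    rw [sum_congr rfl e1, sum_comm]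
    apply sum_congr rfl
    intro j _
    rw [sum_comm]
  have h3 : ∑ n ∈ range N, ‖∑ j ∈ range H, ee (j * f n)‖ ^ 2 ≤
      ∑ j ∈ range H, ∑ i ∈ range H, ‖∑ n ∈ range N, ee (((j - i) + (i - j) : ℕ) * f n)‖ := by
    have e1 : ∑ n ∈ range N, ‖∑ j ∈ range H, ee (j * f n)‖ ^ 2 ≤
        ‖((∑ n ∈ range N, ‖∑ j ∈ range H, ee (j * f n)‖ ^ 2 : ℝ) : ℂ)‖ := by
      rw [Complex.norm_real]
      exact le_abs_self _
    refine e1.trans ?_
    rw [h2]
    refine (norm_sum_le _ _).trans (sum_le_sum fun j _ => (norm_sum_le _ _).trans (sum_le_sum fun i _ => ?_))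
    rcases le_total i j with hij | hij
    · have e2 : ∀ n ∈ range N, ee (j * f n) * (starRingEnd ℂ) (ee (i * f n)) = ee (((j - i) + (i - j) : ℕ) * f n) := by
        intro n _
        rw [ee_conj, ← ee_add]
        congr 1
        rw [show (j - i) + (i - j) = j - i by omega, Nat.cast_sub hij]
        ring
      rw [sum_congr rfl e2]
    · have e2 : ∀ n ∈ range N, ee (j * f n) * (starRingEnd ℂ) (ee (i * f n)) = (starRingEnd ℂ) (ee (((j - i) + (i - j) : ℕ) * f n)) := by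
        intro n _
        rw [ee_conj, ee_conj, ← ee_add]
        congr 1
        rw [show (j - i) + (i - j) = i - j by omega, Nat.cast_sub hij]
        ring
      rw [sum_congr rfl e2, ← map_sum, RCLike.norm_conj]
  refine h3.trans ?_
  calc ∑ j ∈ range H, ∑ i ∈ range H, ‖∑ n ∈ range N, ee (((j - i) + (i - j) : ℕ) * f n)‖
      ≤ ∑ j ∈ range H, 2 * ∑ h ∈ range H, ‖∑ n ∈ range N, ee (h * f n)‖ := by
        apply sum_le_sum
        intro j hj
        exact dist_sum H j (fun h => ‖∑ n ∈ range N, ee (h * f n)‖) (fun h => norm_nonneg _) (mem_range.1 hj)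
    _ = _ := by rw [sum_const, card_range, nsmul_eq_mul]; ring

/-- recurrence: a polynomial with many values near integers -/
lemma rec1 (d : ℕ) (hd : 1 ≤ d) : ∃ m : ℕ, ∀ (u κ : ℝ) (N : ℕ) (β : ℝ) (f : ℕ → ℝ) (S : Finset ℕ), 2 ≤ u → 0 < κ → κ * u ^ m ≤ 1 →
    u ^ m ≤ N → Ph d β f → S ⊆ range N → (∀ n ∈ S, ∃ a : ℤ, |f n - a| ≤ κ) → (N : ℝ) ≤ u * S.card →
    NI (u ^ m) (κ / (N : ℝ) ^ d) β := by
  obtain ⟨c, m, hc, hI⟩ := IW_all d hd
  refine ⟨3 * c + 15 * m + 40, fun u κ N β f S hu hκ hκu hN hf hS hSf hcard => ?_⟩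
  have hu0 : 0 < u := by linarith
  have hu1 : 1 ≤ u := by linarith
  have h2u : ∀ j : ℕ, (2 : ℝ) ^ j ≤ u ^ j := fun j => pow_le_pow_left₀ (by norm_num) hu j
  have hNr1 : (1 : ℝ) ≤ N := (one_le_pow₀ hu1).trans hN
  have hN0 : (0 : ℝ) < N := by linarith
  have hN1 : 1 ≤ N := by exact_mod_cast hNr1
  -- the parameter H
  obtain ⟨H, hH⟩ : ∃ H : ℕ, H = ⌊1 / (8 * κ)⌋₊ := ⟨_, rfl⟩
  have hκ1 : u ^ (3 * c + 15 * m + 40) ≤ 1 / κ := by
    rw [le_div_iff₀ hκ]; linarith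
  have hH1 : (H : ℝ) ≤ 1 / (8 * κ) := by rw [hH]; exact Nat.floor_le (by positivity)
  have hH2 : 1 / (16 * κ) ≤ (H : ℝ) := by
    have h1 : 1 / (8 * κ) < (H : ℝ) + 1 := by rw [hH]; exact Nat.lt_floor_add_one _
    have h2 : 16 ≤ 1 / κ := by
      refine le_trans ?_ hκ1
      calc (16 : ℝ) = 2 ^ 4 := by norm_num
        _ ≤ u ^ 4 := h2u 4
        _ ≤ _ := pow_le_pow_right₀ hu1 (by omega)
    have h3 : 1 / (8 * κ) = (1 / κ) / 8 := by field_simp
    have h4 : 1 / (16 * κ) = (1 / κ) / 16 := by field_simp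
    rw [h3] at h1
    rw [h4]
    linarith
  have hH3 : u ^ (3 * c + 15 * m + 36) ≤ H := by
    have h4 : 1 / (16 * κ) = (1 / κ) / 16 := by field_simp
    rw [h4] at hH2
    refine le_trans ?_ hH2
    rw [le_div_iff₀ (by norm_num)]
    refine le_trans ?_ hκ1
    calc u ^ (3 * c + 15 * m + 36) * 16 ≤ u ^ (3 * c + 15 * m + 36) * u ^ 4 := by
          apply mul_le_mul_of_nonneg_left _ (by positivity)
          calc (16 : ℝ) = 2 ^ 4 := by norm_num
            _ ≤ u ^ 4 := h2u 4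
      _ = _ := by rw [← pow_add]
  have hHr1 : (1 : ℝ) ≤ H := (one_le_pow₀ hu1).trans hH3
  have hH0 : (0 : ℝ) < H := by linarith
  -- large sums
  have key := fejer f N H κ (by
    have : (H : ℝ) * κ ≤ 1 / (8 * κ) * κ := mul_le_mul_of_nonneg_right hH1 hκ.le
    refine this.trans (le_of_eq ?_)
    field_simp) S hS hSf
  obtain ⟨g, hg⟩ : ∃ g : ℕ → ℝ, g = fun h : ℕ => ‖∑ n ∈ range N, ee (h * f n)‖ := ⟨_, rfl⟩
  have hgN : ∀ h, g h ≤ N := by
    intro h
    rw [hg]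
    refine (norm_sum_le _ _).trans ?_
    simp [norm_ee]
  have key2 : (N : ℝ) * H / (8 * u) ≤ ∑ h ∈ range H, g h := by
    have h1 : (N : ℝ) / u ≤ S.card := by rw [div_le_iff₀ hu0]; linarith
    have h2 : (N : ℝ) / u * H ^ 2 / 4 ≤ 2 * H * ∑ h ∈ range H, g h := by
      have h5 : (S.card : ℝ) * H ^ 2 / 4 ≤ 2 * H * ∑ h ∈ range H, g h := by rw [hg]; exact key
      refine le_trans ?_ h5
      gcongr
    have h3 : (N : ℝ) / u * H ^ 2 / 4 = 2 * H * ((N : ℝ) * H / (8 * u)) := by field_simp; ring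
    rw [h3] at h2
    exact le_of_mul_le_mul_left h2 (by positivity)
  classical
  set B : Finset ℕ := (range H).filter (fun h => (N : ℝ) / (16 * u) ≤ g h) with hB
  have hBcard : (H : ℝ) ≤ 16 * u * B.card := by
    have h1 : ∑ h ∈ range H, g h ≤ ∑ h ∈ range H, ((if (N : ℝ) / (16 * u) ≤ g h then (N : ℝ) else 0) + N / (16 * u)) := by
      apply sum_le_sum
      intro h _
      split_ifs with h2
      · have : 0 ≤ (N : ℝ) / (16 * u) := by positivity
        linarith [hgN h]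
      · push Not at h2
        linarith
    rw [sum_add_distrib, ← sum_filter, sum_const, sum_const, card_range, nsmul_eq_mul, nsmul_eq_mul] at h1
    have h2 : (N : ℝ) * H / (8 * u) ≤ (B.card : ℝ) * N + H * (N / (16 * u)) := key2.trans h1
    have h3 : (N : ℝ) * H / (8 * u) = H * (N / (16 * u)) + H * (N / (16 * u)) := by field_simp; ring
    have h4 : (H : ℝ) * (N / (16 * u)) ≤ (B.card : ℝ) * N := by linarith
    have h5 : (H : ℝ) * (N / (16 * u)) = H / (16 * u) * N := by field_simp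
    rw [h5] at h4
    have h6 := le_of_mul_le_mul_right h4 hN0
    rw [div_le_iff₀ (by positivity)] at h6
    linarith
  -- for every large sum a denominator
  set Q : ℝ := u ^ (c + 5 * m) with hQ
  have hQ1 : 1 ≤ Q := one_le_pow₀ hu1
  have hden : ∀ h ∈ B, ∃ q : ℕ, 1 ≤ q ∧ (q : ℝ) ≤ Q ∧ ∃ a : ℤ, |(h : ℝ) * (q * β) - a| ≤ Q / (N : ℝ) ^ d := by
    intro h hh
    rw [hB, mem_filter] at hh
    obtain ⟨q, hq1, hq2, a, ha⟩ := hI N (16 * u) (h * β) (fun n => h * f n) hN1 (by linarith) (Ph_smul d h β f hf) (by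
      have h2 := hh.2
      rw [div_le_iff₀ (by positivity)] at h2
      rw [hg] at h2
      linarith)
    have hle : (c : ℝ) * (16 * u) ^ m ≤ Q := by
      calc (c : ℝ) * (16 * u) ^ m ≤ u ^ c * (u ^ 5) ^ m := by
            have h16 : (16 : ℝ) * u ≤ u ^ 5 := by
              calc (16 : ℝ) * u = 2 ^ 4 * u := by norm_num
                _ ≤ u ^ 4 * u := mul_le_mul_of_nonneg_right (h2u 4) hu0.le
                _ = u ^ 5 := by ring
            apply mul_le_mul (two_pow_ge c hu) (pow_le_pow_left₀ (by positivity) h16 m) (by positivity) (by positivity)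
        _ = Q := by rw [hQ, ← pow_mul, ← pow_add]
    refine ⟨q, hq1, hq2.trans hle, a, ?_⟩
    have h3 : (h : ℝ) * (q * β) - a = q * (h * β) - a := by ring
    rw [h3]
    refine ha.trans ?_
    gcongr
  obtain ⟨q, hq1, hq2, B', hB', hB'card, hB'q⟩ := pig B Q hQ1 _ hden
  -- Vinogradov's lemma
  set D : ℝ := u ^ (c + 5 * m + 5) with hD
  have hD1 : 1 ≤ D := one_le_pow₀ hu1
  have hQD : 16 * u * Q ≤ D := by
    calc 16 * u * Q ≤ (u ^ 4 * u) * Q := by
          have := h2u 4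
          gcongr
          linarith
      _ = D := by rw [hQ, hD]; ring
  have hNd : u ^ (3 * c + 15 * m + 40) ≤ (N : ℝ) ^ d := by
    refine hN.trans ?_
    calc (N : ℝ) = (N : ℝ) ^ 1 := (pow_one _).symm
      _ ≤ _ := pow_le_pow_right₀ hNr1 hd
  have hNd0 : 0 < (N : ℝ) ^ d := by positivity
  obtain ⟨q', hq'1, hq'2, a, ha⟩ := vinogradov (q * β) H D (Q / (N : ℝ) ^ d) hD1 (by positivity) (by
      have h1 : 16 * (Q / (N : ℝ) ^ d) * D = 16 * Q * D / (N : ℝ) ^ d := by ring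
      rw [h1, div_le_one hNd0]
      refine le_trans ?_ hNd
      calc 16 * Q * D ≤ u ^ 4 * Q * D := by
            have := h2u 4
            gcongr
            linarith
        _ = u ^ (2 * c + 10 * m + 9) := by rw [hQ, hD]; ring
        _ ≤ _ := pow_le_pow_right₀ hu1 (by omega)) (by
      refine le_trans ?_ hH3
      calc 16 * D ^ 2 ≤ u ^ 4 * D ^ 2 := by
            have := h2u 4
            gcongr
            linarith
        _ = u ^ (2 * c + 10 * m + 14) := by rw [hD]; ring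
        _ ≤ _ := pow_le_pow_right₀ hu1 (by omega)) B' (by
      intro h hh
      refine ⟨?_, hB'q h hh⟩
      have := hB' hh
      rw [hB, mem_filter, mem_range] at this
      exact this.1) (by
      calc (H : ℝ) ≤ 16 * u * B.card := hBcard
        _ ≤ 16 * u * (Q * B'.card) := by gcongr
        _ = (16 * u * Q) * B'.card := by ring
        _ ≤ D * B'.card := by gcongr)
  refine ⟨q' * q, Nat.mul_pos hq'1 hq1, ?_, a, ?_⟩
  · push_cast
    calc (q' : ℝ) * q ≤ (2 * D) * Q := by gcongr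
      _ ≤ (u * D) * Q := by gcongr
      _ = u ^ (2 * c + 10 * m + 6) := by rw [hQ, hD]; ring
      _ ≤ _ := pow_le_pow_right₀ hu1 (by omega)
  · have h1 : ((q' * q : ℕ) : ℝ) * β - a = q' * (q * β) - a := by push_cast; ring
    rw [h1]
    refine ha.trans ?_
    have h2 : 1 / (H : ℝ) ≤ 16 * κ := by
      rw [div_le_iff₀ hH0]
      rw [div_le_iff₀ (by positivity)] at hH2
      linarith
    calc 16 * (Q / (N : ℝ) ^ d) * D ^ 2 / H = 16 * Q * D ^ 2 * (1 / (N : ℝ) ^ d) * (1 / H) := by ring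
      _ ≤ 16 * Q * D ^ 2 * (1 / (N : ℝ) ^ d) * (16 * κ) := by gcongr
      _ = (2 ^ 8 * Q * D ^ 2) * (κ / (N : ℝ) ^ d) := by ring
      _ ≤ (u ^ 8 * Q * D ^ 2) * (κ / (N : ℝ) ^ d) := by
          have := h2u 8
          gcongr
      _ = u ^ (3 * c + 15 * m + 18) * (κ / (N : ℝ) ^ d) := by rw [hQ, hD]; ring
      _ ≤ _ := by
          apply mul_le_mul_of_nonneg_right _ (by positivity)
          exact pow_le_pow_right₀ hu1 (by omega)

/-- recurrence with small denominators -/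
lemma rec2 (d : ℕ) (hd : 1 ≤ d) : ∃ m : ℕ, ∀ (u κ : ℝ) (N : ℕ) (β : ℝ) (f : ℕ → ℝ) (S : Finset ℕ), 2 ≤ u → 0 < κ → κ * u ^ m ≤ 1 →
    u ^ m ≤ N → Ph d β f → S ⊆ range N → (∀ n ∈ S, NI u κ (f n)) → (N : ℝ) ≤ u * S.card →
    NI (u ^ m) (κ / (N : ℝ) ^ d) β := by
  obtain ⟨m, h⟩ := rec1 d hd
  refine ⟨2 * m + 2, fun u κ N β f S hu hκ hκu hN hf hS hSf hcard => ?_⟩
  have hu0 : 0 < u := by linarith
  have hu1 : 1 ≤ u := by linarith
  have hNr1 : (1 : ℝ) ≤ N := (one_le_pow₀ hu1).trans hN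
  obtain ⟨q, hq1, hq2, S', hS', hS'card, hS'q⟩ := pig S u hu1 (fun q n => ∃ a : ℤ, |q * f n - a| ≤ u * κ) (fun n hn => hSf n hn)
  have h1 := h (u ^ 2) (u * κ) N (q * β) (fun n => q * f n) S' (by nlinarith) (by positivity) (by
      rw [← pow_mul]
      calc u * κ * u ^ (2 * m) = κ * u ^ (2 * m + 1) := by ring
        _ ≤ κ * u ^ (2 * m + 2) := by
            apply mul_le_mul_of_nonneg_left _ hκ.le
            exact pow_le_pow_right₀ hu1 (by omega)
        _ ≤ 1 := hκu) (by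
      rw [← pow_mul]
      exact (pow_le_pow_right₀ hu1 (by omega)).trans hN) (Ph_smul d q β f hf) (hS'.trans hS) hS'q (by
      calc (N : ℝ) ≤ u * S.card := hcard
        _ ≤ u * (u * S'.card) := by gcongr
        _ = u ^ 2 * S'.card := by ring)
  have hq0 : (1 : ℝ) ≤ q := by exact_mod_cast hq1
  apply NI_of_mul q hq1 h1
  · rw [← pow_mul]
    calc (q : ℝ) * u ^ (2 * m) ≤ u * u ^ (2 * m) := by gcongr
      _ = u ^ (2 * m + 1) := by ring
      _ ≤ _ := pow_le_pow_right₀ hu1 (by omega)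
  · rw [← pow_mul]
    calc u ^ (2 * m) * (u * κ / (N : ℝ) ^ d) = u ^ (2 * m + 1) * (κ / (N : ℝ) ^ d) := by ring
      _ ≤ _ := by
          apply mul_le_mul_of_nonneg_right _ (by positivity)
          exact pow_le_pow_right₀ hu1 (by omega)

end Pool.Agent.W5h32.PM
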