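import Mathlib
import Pool.Agent.W5h32.PM.Rec

/-! Polynomial phases along residue classes: sums of type I. -/

set_option autoImplicit false

namespace Pool.Agent.W5h32.PM
open Finset
open Pool.Agent.H373R2.NB (Ph IW IW_all vinogradov Ph_poly)
open Pool.Agent.Helper602.MK (ee)
open Pool.Agent.Helper602.MK.N_J5b (ee_add ee_zero ee_conj norm_ee ee_int ee_nat_mul ee_add_int ee_eq)

/-- the phase `φ` along the residue class of `c` modulo `w` -/
noncomputable def EW (w c : ℕ) (φ : ℕ → ℝ) (n : ℕ) : ℂ := if n % w = c % w then ee (φ (n / w)) else 0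

lemma EW_norm (w c : ℕ) (φ : ℕ → ℝ) (n : ℕ) : ‖EW w c φ n‖ ≤ 1 := by
  unfold EW
  split_ifs
  · rw [norm_ee]
  · rw [norm_zero]; exact zero_le_one

/-- parametrisation of the elements of a residue class in an interval -/
lemma ap_param (w l0 A B : ℕ) (hw : 1 ≤ w) (hAB : A ≤ B) : ∃ l1 n : ℕ, (n : ℝ) ≤ ((B : ℝ) - A) / w + 1 ∧
    ((B : ℝ) - A) / w - 1 ≤ n ∧ l1 % w = l0 % w ∧
    (Ioc A B).filter (fun l => l % w = l0 % w) = (range n).image (fun s => l1 + w * s) := by
  obtain ⟨t, ht⟩ : ∃ t, t = (l0 + w * (A + 1) - (A + 1)) % w := ⟨_, rfl⟩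
  have hle : A + 1 ≤ w * (A + 1) := Nat.le_mul_of_pos_left _ hw
  have htw : t < w := by rw [ht]; exact Nat.mod_lt _ hw
  have hmod : (A + 1 + t) % w = l0 % w := by
    have h1 : (A + 1 + t) % w = (A + 1 + (l0 + w * (A + 1) - (A + 1))) % w := by
      rw [ht, Nat.add_mod, Nat.mod_mod, ← Nat.add_mod]
    rw [h1, show A + 1 + (l0 + w * (A + 1) - (A + 1)) = l0 + w * (A + 1) by omega, Nat.add_mul_mod_self_left]
  refine ⟨A + 1 + t, (B + w - (A + 1 + t)) / w, ?_, ?_, hmod, ?_⟩
  · have hw0 : (0 : ℝ) < w := by exact_mod_cast hw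
    refine Nat.cast_div_le.trans ?_
    rw [div_add_one hw0.ne']
    apply div_le_div_of_nonneg_right _ hw0.le
    have h1 : ((B + w - (A + 1 + t) : ℕ) : ℝ) ≤ ((B + w - A : ℕ) : ℝ) := by
      exact_mod_cast Nat.sub_le_sub_left (by omega) _
    refine h1.trans (le_of_eq ?_)
    rw [Nat.cast_sub (by omega)]
    push_cast
    ring
  · have hw0 : (0 : ℝ) < w := by exact_mod_cast hw
    have h1 := Nat.lt_div_mul_add (a := B + w - (A + 1 + t)) (b := w) hw
    have h2 : B + w < (B + w - (A + 1 + t)) / w * w + w + (A + 1 + t) := by omega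
    have h3 : B < (B + w - (A + 1 + t)) / w * w + (A + w) := by omega
    have h4 : (B : ℝ) < (((B + w - (A + 1 + t)) / w * w + (A + w) : ℕ) : ℝ) := by exact_mod_cast h3
    push_cast at h4
    rw [sub_le_iff_le_add, div_le_iff₀ hw0]
    push_cast
    nlinarith
  · ext l
    rw [mem_filter, mem_Ioc, mem_image]
    constructor
    · rintro ⟨⟨h1, h2⟩, h3⟩
      have h4 : (l - (A + 1)) % w = t := by
        have h5 : (A + 1 + (l - (A + 1))) % w = (A + 1 + t) % w := by
          rw [show A + 1 + (l - (A + 1)) = l by omega, h3, hmod]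
        have h6 : (l - (A + 1)) ≡ t [MOD w] := Nat.ModEq.add_left_cancel' (A + 1) h5
        have h7 : (l - (A + 1)) % w = t % w := h6
        rw [h7, Nat.mod_eq_of_lt htw]
      have h5 := Nat.mod_add_div (l - (A + 1)) w
      rw [h4] at h5
      refine ⟨(l - (A + 1)) / w, ?_, by omega⟩
      rw [mem_range, Nat.lt_div_iff_mul_lt hw]
      have h6 : (l - (A + 1)) / w * w = w * ((l - (A + 1)) / w) := mul_comm _ _
      omega
    · rintro ⟨s, hs, rfl⟩
      rw [mem_range, Nat.lt_iff_add_one_le, Nat.le_div_iff_mul_le hw] at hs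
      have h6 : (s + 1) * w = w * s + w := by ring
      rw [h6] at hs
      refine ⟨⟨by omega, by omega⟩, ?_⟩
      rw [Nat.add_mul_mod_self_left]
      exact hmod

/-- the inner sums of type I -/
lemma inner (k w c m : ℕ) (hw : 1 ≤ w) (hc : c.Coprime w) (hm : 1 ≤ m) (β : ℝ) (φ : ℕ → ℝ) (hφ : Ph k β φ) (A B : ℕ) (hAB : A ≤ B) :
    ∃ (n : ℕ) (ψ : ℕ → ℝ), (n : ℝ) ≤ ((B : ℝ) - A) / w + 1 ∧ Ph k ((m : ℝ) ^ k * β) ψ ∧
      ∑ l ∈ Ioc A B, EW w c φ (m * l) = ∑ s ∈ range n, ee (ψ s) := by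
  have hw0 : (0 : ℝ) < w := by exact_mod_cast hw
  have hABr : (A : ℝ) ≤ B := by exact_mod_cast hAB
  by_cases hmw : m.Coprime w
  · -- a solution
    obtain ⟨l0, hl0⟩ : ∃ l0 : ℕ, m * l0 ≡ c [MOD w] := by
      obtain ⟨y, hy⟩ : ∃ y : ℕ, m * y ≡ 1 [MOD w] := by
        rcases Nat.lt_or_ge 1 w with h1 | h1
        · obtain ⟨y, _, hy⟩ := Nat.exists_mul_mod_eq_one_of_coprime hmw h1
          refine ⟨y, ?_⟩
          unfold Nat.ModEq
          rw [hy, Nat.mod_eq_of_lt h1]
        · have : w = 1 := by omega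
          exact ⟨0, by rw [this]; exact Nat.modEq_one⟩
      refine ⟨y * c, ?_⟩
      have h2 := Nat.ModEq.mul_right c hy
      rw [one_mul] at h2
      rw [← mul_assoc]
      exact h2
    obtain ⟨l1, n, hn, -, hl1, hset⟩ := ap_param w l0 A B hw hAB
    refine ⟨n, fun s => φ (m * l1 / w + m * s), hn, Ph_affine k β φ _ _ hφ, ?_⟩
    have hiff : ∀ l, (m * l) % w = c % w ↔ l % w = l0 % w := by
      intro l
      constructor
      · intro h
        have h1 : m * l ≡ m * l0 [MOD w] := Nat.ModEq.trans h hl0.symm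
        exact Nat.ModEq.cancel_left_of_coprime (by rw [Nat.gcd_comm]; exact hmw) h1
      · intro h
        have h1 : l ≡ l0 [MOD w] := h
        exact (h1.mul_left m).trans hl0
    have h1 : ∑ l ∈ Ioc A B, EW w c φ (m * l) = ∑ l ∈ (Ioc A B).filter (fun l => l % w = l0 % w), ee (φ (m * l / w)) := by
      rw [sum_filter]
      apply sum_congr rfl
      intro l _
      unfold EW
      simp only [hiff l]
    rw [h1, hset, sum_image]
    · apply sum_congr rfl
      intro s _
      rw [show m * (l1 + w * s) = m * l1 + w * (m * s) by ring, Nat.add_mul_div_left _ _ hw]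
    · intro s _ s' _ h
      have h2 : l1 + w * s = l1 + w * s' := h
      exact Nat.eq_of_mul_eq_mul_left hw (by omega)
  · refine ⟨0, fun s => φ (0 + m * s), ?_, Ph_affine k β φ _ _ hφ, ?_⟩
    · have : 0 ≤ ((B : ℝ) - A) / w := div_nonneg (by linarith) hw0.le
      push_cast
      linarith
    · rw [range_zero, sum_empty]
      apply sum_eq_zero
      intro l _
      unfold EW
      rw [if_neg]
      intro h
      have h1 : m * l ≡ c [MOD w] := h
      obtain ⟨p, hp, hpm, hpw⟩ := Nat.Prime.not_coprime_iff_dvd.1 hmw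
      have h2 : p ∣ c := (h1.dvd_iff hpw).1 (hpm.mul_right l)
      have h3 := Nat.dvd_gcd h2 hpw
      rw [hc] at h3
      exact hp.one_lt.ne' (Nat.dvd_one.1 h3)

lemma log2_le' (N : ℕ) (hN : 1 ≤ N) : ((Nat.log 2 N : ℕ) : ℝ) ≤ 2 * Real.log N := by
  have q1 : (2 : ℝ) ^ (Nat.log 2 N) ≤ N := by exact_mod_cast Nat.pow_log_le_self 2 (by omega)
  have q2 := Real.log_le_log (by positivity) q1
  rw [Real.log_pow] at q2
  have q3 : (1 : ℝ) / 2 ≤ Real.log 2 := by linarith [Real.log_two_gt_d9]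
  nlinarith [(Nat.cast_nonneg (Nat.log 2 N) : (0 : ℝ) ≤ ((Nat.log 2 N : ℕ) : ℝ))]

lemma harm' (D : ℕ) (hD : 1 ≤ D) : ∑ m ∈ Icc 1 D, 1 / (m : ℝ) ≤ 1 + Real.log D := by
  have h2 : ∑ n ∈ Icc 1 D, 1 / (n : ℝ) = ((harmonic D : ℚ) : ℝ) := by
    rw [harmonic_eq_sum_Icc]
    push_cast
    simp
  rw [h2]
  exact harmonic_le_one_add_log D

/-- sums of type I along a residue class -/
theorem typeI (k : ℕ) (hk : 1 ≤ k) : ∃ e : ℕ, ∀ (u : ℝ) (w N D : ℕ) (β : ℝ), 2 ≤ u → 1 ≤ w → 1 ≤ D →
    (D : ℝ) * w * u ^ e ≤ N → NI (u ^ e) (((w : ℝ) / N) ^ k) β ∨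
    ∃ Y : ℕ → ℝ, (∀ m, 0 ≤ Y m) ∧
      (∀ m ∈ Icc 1 D, ∀ (c : ℕ) (φ : ℕ → ℝ) (N' b : ℕ), c.Coprime w → Ph k β φ → N' ≤ 2 * N → b ≤ N' / m →
        ‖∑ l ∈ Ioc (N / m) b, EW w c φ (m * l)‖ ≤ Y m) ∧
      ∑ m ∈ Icc 1 D, Y m ≤ 20 * (1 + Real.log D) * (N / (w * u)) := by
  obtain ⟨e1, hiw⟩ := iw_len k hk
  obtain ⟨e2, hrec⟩ := rec2 k hk
  obtain ⟨e3, he3⟩ : ∃ e3, e3 = (e1 + 1) * e2 := ⟨_, rfl⟩
  obtain ⟨e, he⟩ : ∃ e, e = k.factorial + e3 + ((e3 + 1) * k + e1) + 2 := ⟨_, rfl⟩
  refine ⟨e, fun u w N D β hu hw hD hDw => ?_⟩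
  classical
  have hu0 : 0 < u := by linarith
  have hu1 : 1 ≤ u := by linarith
  have hw0 : (0 : ℝ) < w := by exact_mod_cast hw
  have hD1 : (1 : ℝ) ≤ D := by exact_mod_cast hD
  have hD0 : (0 : ℝ) < D := by linarith
  have hue : 1 ≤ u ^ e := one_le_pow₀ hu1
  have hDwN : (D : ℝ) * w ≤ N := by
    refine le_trans ?_ hDw
    exact le_mul_of_one_le_right (by positivity) hue
  have hN0 : (0 : ℝ) < N := lt_of_lt_of_le (by positivity) hDwN
  obtain ⟨X, hX⟩ : ∃ X : ℕ → ℝ, X = fun m : ℕ => 3 * (N : ℝ) / (m * w) := ⟨_, rfl⟩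
  have hX0 : ∀ m, 0 ≤ X m := fun m => by rw [hX]; positivity
  have hXpos : ∀ m, 1 ≤ m → 0 < X m := fun m hm => by
    have : (0 : ℝ) < m := by exact_mod_cast hm
    rw [hX]; positivity
  obtain ⟨bad, hbad⟩ : ∃ bad : ℕ → Prop, bad = fun m : ℕ => NI (u ^ e1) (1 / X m ^ k) ((m : ℝ) ^ k * β) := ⟨_, rfl⟩
  -- the length of the inner sums
  have hlen : ∀ m ∈ Icc 1 D, ∀ (c : ℕ) (φ : ℕ → ℝ) (N' b : ℕ), c.Coprime w → Ph k β φ → N' ≤ 2 * N → b ≤ N' / m →
      ∃ (n : ℕ) (ψ : ℕ → ℝ), (n : ℝ) ≤ X m ∧ Ph k ((m : ℝ) ^ k * β) ψ ∧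
      ∑ l ∈ Ioc (N / m) b, EW w c φ (m * l) = ∑ s ∈ range n, ee (ψ s) := by
    intro m hm c φ N' b hc hφ hN' hb
    rw [mem_Icc] at hm
    have hm0 : (0 : ℝ) < m := by exact_mod_cast hm.1
    rcases lt_or_ge b (N / m) with h | h
    · refine ⟨0, fun s => φ (0 + m * s), ?_, Ph_affine k β φ _ _ hφ, ?_⟩
      · push_cast; exact hX0 m
      · rw [Ioc_eq_empty_of_le h.le, sum_empty, range_zero, sum_empty]
    · obtain ⟨n, ψ, hn, hψ, hs⟩ := inner k w c m hw hc hm.1 β φ hφ (N / m) b h
      refine ⟨n, ψ, hn.trans ?_, hψ, hs⟩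
      have h1 : (b : ℝ) ≤ 2 * N / m := by
        have h2 : (b : ℝ) ≤ ((N' / m : ℕ) : ℝ) := by exact_mod_cast hb
        have h3 : ((N' / m : ℕ) : ℝ) ≤ N' / m := Nat.cast_div_le
        have h4 : (N' : ℝ) / m ≤ 2 * N / m := by
          apply div_le_div_of_nonneg_right _ hm0.le
          exact_mod_cast hN'
        linarith
      have h5 : (N : ℝ) / m - 1 ≤ ((N / m : ℕ) : ℝ) := by
        have h6 : (N : ℝ) / m < ((N / m : ℕ) : ℝ) + 1 := by
          rw [div_lt_iff₀ hm0]
          have h7 := Nat.lt_div_mul_add (a := N) (b := m) hm.1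
          have h8 : (N : ℝ) < ((N / m * m + m : ℕ) : ℝ) := by exact_mod_cast h7
          push_cast at h8
          linarith
        linarith
      have h9 : (m : ℝ) * w ≤ N := by
        have : (m : ℝ) ≤ D := by exact_mod_cast hm.2
        calc (m : ℝ) * w ≤ D * w := by gcongr
          _ ≤ _ := hDwN
      have h10 : 1 ≤ (N : ℝ) / (m * w) := by
        rw [le_div_iff₀ (by positivity)]; linarith
      have hw1 : (1 : ℝ) ≤ w := by exact_mod_cast hw
      calc ((b : ℝ) - ((N / m : ℕ) : ℝ)) / w + 1 ≤ (2 * N / m - (N / m - 1)) / w + 1 := by gcongr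
        _ = (N : ℝ) / (m * w) + 1 / w + 1 := by field_simp; ring
        _ ≤ (N : ℝ) / (m * w) + 1 + 1 := by
            have : 1 / (w : ℝ) ≤ 1 := by rw [div_le_one hw0]; exact hw1
            linarith
        _ ≤ 3 * N / (m * w) := by
            have : 3 * (N : ℝ) / (m * w) = 3 * (N / (m * w)) := by ring
            rw [this]; linarith
        _ = X m := by rw [hX]
  set BS : ℕ → Finset ℕ := fun i => (Icc 1 D).filter (fun m => bad m ∧ Nat.log 2 m = i) with hBS
  by_cases hall : ∀ i ∈ range (Nat.log 2 D + 1), ((BS i).card : ℝ) * u ≤ 2 ^ i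
  · right
    refine ⟨fun m => if bad m then X m else X m / u, fun m => ?_, fun m hm c φ N' b hc hφ hN' hb => ?_, ?_⟩
    · show 0 ≤ if bad m then X m else X m / u
      split_ifs
      · exact hX0 m
      · exact div_nonneg (hX0 m) hu0.le
    · obtain ⟨n, ψ, hn, hψ, hs⟩ := hlen m hm c φ N' b hc hφ hN' hb
      show _ ≤ if bad m then X m else X m / u
      rw [hs]
      split_ifs with h
      · refine (norm_sum_le _ _).trans ?_
        simpa [norm_ee] using hn
      · rcases hiw u (X m) n ((m : ℝ) ^ k * β) ψ hu (hXpos m (mem_Icc.1 hm).1) hn hψ with h1 | h1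
        · exact h1
        · exact absurd (by rw [hbad]; exact h1) h
    · have h1 : ∀ m ∈ Icc 1 D, (if bad m then X m else X m / u) ≤ X m / u + (if bad m then X m else 0) := by
        intro m _
        have := hX0 m
        have : 0 ≤ X m / u := div_nonneg this hu0.le
        split_ifs <;> linarith
      refine (sum_le_sum h1).trans ?_
      rw [sum_add_distrib]
      have h2 : ∑ m ∈ Icc 1 D, X m / u ≤ 3 * (1 + Real.log D) * (N / (w * u)) := by
        have h3 : ∀ m ∈ Icc 1 D, X m / u = 3 * (N / (w * u)) * (1 / (m : ℝ)) := by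
          intro m hm
          have hm0 : (0 : ℝ) < m := by exact_mod_cast (mem_Icc.1 hm).1
          rw [hX]; field_simp
        rw [sum_congr rfl h3, ← mul_sum]
        have h4 := harm' D hD
        calc 3 * ((N : ℝ) / (w * u)) * ∑ m ∈ Icc 1 D, 1 / (m : ℝ) ≤ 3 * (N / (w * u)) * (1 + Real.log D) := by gcongr
          _ = _ := by ring
      have h3 : ∑ m ∈ Icc 1 D, (if bad m then X m else 0) ≤ 3 * (1 + 2 * Real.log D) * (N / (w * u)) := by
        rw [← sum_filter]
        have hmap : ∀ m ∈ (Icc 1 D).filter (fun m => bad m), Nat.log 2 m ∈ range (Nat.log 2 D + 1) := by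
          intro m hm
          rw [mem_filter, mem_Icc] at hm
          rw [mem_range]
          exact Nat.lt_succ_of_le (Nat.log_mono_right hm.1.2)
        rw [← sum_fiberwise_of_maps_to hmap]
        have h4 : ∀ i ∈ range (Nat.log 2 D + 1), ∑ m ∈ ((Icc 1 D).filter (fun m => bad m)).filter (fun m => Nat.log 2 m = i), X m ≤
            3 * (N / (w * u)) := by
          intro i hi
          rw [filter_filter]
          have h5 : ∀ m ∈ (Icc 1 D).filter (fun m => bad m ∧ Nat.log 2 m = i), X m ≤ 3 * (N : ℝ) / (2 ^ i * w) := by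
            intro m hm
            rw [mem_filter, mem_Icc] at hm
            have h6 : 2 ^ i ≤ m := by
              rw [← hm.2.2]
              exact Nat.pow_log_le_self 2 (by omega)
            have h7 : (2 : ℝ) ^ i ≤ m := by exact_mod_cast h6
            rw [hX]
            show 3 * (N : ℝ) / (m * w) ≤ _
            gcongr
          refine (sum_le_sum h5).trans ?_
          rw [sum_const, nsmul_eq_mul]
          have h6 := hall i hi
          rw [hBS] at h6
          have h7 : (((Icc 1 D).filter (fun m => bad m ∧ Nat.log 2 m = i)).card : ℝ) ≤ 2 ^ i / u := by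
            rw [le_div_iff₀ hu0]
            exact h6
          calc (((Icc 1 D).filter (fun m => bad m ∧ Nat.log 2 m = i)).card : ℝ) * (3 * (N : ℝ) / (2 ^ i * w)) ≤
              2 ^ i / u * (3 * (N : ℝ) / (2 ^ i * w)) := by gcongr
            _ = _ := by field_simp
        refine (sum_le_sum h4).trans ?_
        rw [sum_const, card_range, nsmul_eq_mul]
        have h5 := log2_le' D hD
        push_cast
        have h6 : (0 : ℝ) ≤ 3 * (N / (w * u)) := by positivity
        calc ((Nat.log 2 D : ℝ) + 1) * (3 * (N / (w * u))) ≤ (2 * Real.log D + 1) * (3 * (N / (w * u))) := by gcongr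
          _ = _ := by ring
      have h4 : 0 ≤ Real.log D := Real.log_nonneg hD1
      have h5 : (0 : ℝ) ≤ N / (w * u) := by positivity
      have h6 : 3 * (1 + Real.log D) * ((N : ℝ) / (w * u)) + 3 * (1 + 2 * Real.log D) * (N / (w * u)) =
          (6 + 9 * Real.log D) * (N / (w * u)) := by ring
      have h7 : (6 + 9 * Real.log D) * ((N : ℝ) / (w * u)) ≤ (20 * (1 + Real.log D)) * (N / (w * u)) :=
        mul_le_mul_of_nonneg_right (by linarith) h5
      linarith
  · left
    push Not at hall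
    obtain ⟨i, hi, hcard⟩ := hall
    rw [mem_range] at hi
    obtain ⟨M, hM⟩ : ∃ M : ℕ, M = 2 ^ i := ⟨_, rfl⟩
    have hM1 : 1 ≤ M := by rw [hM]; exact Nat.one_le_two_pow
    have hMr : (M : ℝ) = 2 ^ i := by rw [hM]; push_cast; rfl
    have hMr1 : (1 : ℝ) ≤ M := by exact_mod_cast hM1
    have hMr0 : (0 : ℝ) < M := by linarith
    have hMD : M ≤ D := by
      rw [hM]
      exact Nat.pow_le_of_le_log (by omega) (by omega)
    have hMDr : (M : ℝ) ≤ D := by exact_mod_cast hMD
    rw [← hMr] at hcard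
    have hmem : ∀ m ∈ BS i, M ≤ m ∧ m < 2 * M ∧ m ≤ D ∧ bad m := by
      intro m hm
      rw [hBS, mem_filter, mem_Icc] at hm
      refine ⟨?_, ?_, hm.1.2, hm.2.1⟩
      · rw [hM, ← hm.2.2]
        exact Nat.pow_log_le_self 2 (by omega)
      · have := Nat.lt_pow_succ_log_self (b := 2) (by norm_num) m
        rw [hm.2.2, pow_succ] at this
        rw [hM]; omega
    rcases le_or_gt (u ^ e3) (M : ℝ) with hbig | hsmall
    · -- recurrence
      have hκ1 : (M : ℝ) * w / N ≤ 1 := by
        rw [div_le_one hN0]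
        exact (mul_le_mul_of_nonneg_right hMDr hw0.le).trans hDwN
      have hκ0 : 0 < (M : ℝ) * w / N := by positivity
      have h1 := hrec (u ^ (e1 + 1)) (((M : ℝ) * w / N) ^ k) M _ (fun s => β * ((M + 1 * s : ℕ) : ℝ) ^ k)
        ((BS i).image (fun m => m - M)) (by
          calc (2 : ℝ) ≤ u := hu
            _ = u ^ 1 := (pow_one u).symm
            _ ≤ _ := pow_le_pow_right₀ hu1 (by omega)) (by positivity) (by
          rw [← pow_mul, ← he3]
          calc ((M : ℝ) * w / N) ^ k * u ^ e3 ≤ ((M : ℝ) * w / N) ^ 1 * u ^ e3 := by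
                apply mul_le_mul_of_nonneg_right _ (by positivity)
                exact pow_le_pow_of_le_one hκ0.le hκ1 hk
            _ = ((M : ℝ) * w * u ^ e3) / N := by rw [pow_one]; ring
            _ ≤ ((D : ℝ) * w * u ^ e) / N := by
                apply div_le_div_of_nonneg_right _ hN0.le
                have : u ^ e3 ≤ u ^ e := pow_le_pow_right₀ hu1 (by omega)
                gcongr
            _ ≤ 1 := by rw [div_le_one hN0]; exact hDw) (by
          rw [← pow_mul, ← he3]; exact hbig) (Ph_pow_affine k β M 1) (by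
          intro j hj
          rw [mem_image] at hj
          obtain ⟨m, hm, rfl⟩ := hj
          obtain ⟨g1, g2, _, _⟩ := hmem m hm
          rw [mem_range]; omega) (by
          intro j hj
          rw [mem_image] at hj
          obtain ⟨m, hm, rfl⟩ := hj
          obtain ⟨g1, g2, g3, g4⟩ := hmem m hm
          rw [hbad] at g4
          have g5 : M + 1 * (m - M) = m := by omega
          show NI (u ^ (e1 + 1)) (((M : ℝ) * w / N) ^ k) (β * ((M + 1 * (m - M) : ℕ) : ℝ) ^ k)
          rw [g5, mul_comm β]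
          apply NI_mono g4 (pow_le_pow_right₀ hu1 (by omega))
          have hXm := hX0 m
          apply mul_le_mul (pow_le_pow_right₀ hu1 (by omega)) _ (one_div_nonneg.2 (pow_nonneg hXm k)) (by positivity)
          have hm1 : 1 ≤ m := by omega
          have hm0 : (0 : ℝ) < m := by exact_mod_cast hm1
          have hm2 : (m : ℝ) ≤ 2 * M := by exact_mod_cast g2.le
          rw [← one_div_pow]
          apply pow_le_pow_left₀ (one_div_nonneg.2 hXm)
          rw [hX]
          show 1 / (3 * (N : ℝ) / (m * w)) ≤ M * w / N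
          rw [one_div_div, div_le_div_iff₀ (by positivity) hN0]
          nlinarith [mul_pos hw0 hN0]) (by
          rw [card_image_of_injOn]
          · calc (M : ℝ) ≤ (BS i).card * u := hcard.le
              _ = u ^ 1 * (BS i).card := by rw [pow_one]; ring
              _ ≤ u ^ (e1 + 1) * (BS i).card := by
                  apply mul_le_mul_of_nonneg_right _ (Nat.cast_nonneg _)
                  exact pow_le_pow_right₀ hu1 (by omega)
          · intro x hx y hy hxy
            have g1 := (hmem x hx).1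
            have g2 := (hmem y hy).1
            have hxy' : x - M = y - M := hxy
            omega)
      rw [Nat.cast_one, one_pow, one_mul] at h1
      have hfac : ((k.factorial : ℕ) : ℝ) ≤ u ^ k.factorial := two_pow_ge _ hu
      apply NI_of_mul k.factorial (Nat.factorial_pos k) h1
      · rw [← pow_mul, ← he3]
        calc ((k.factorial : ℕ) : ℝ) * u ^ e3 ≤ u ^ k.factorial * u ^ e3 := by gcongr
          _ = u ^ (k.factorial + e3) := by rw [pow_add]
          _ ≤ _ := pow_le_pow_right₀ hu1 (by omega)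
      · rw [← pow_mul, ← he3]
        have h2 : ((M : ℝ) * w / N) ^ k / (M : ℝ) ^ k = ((w : ℝ) / N) ^ k := by
          rw [← div_pow]; congr 1; field_simp
        rw [h2]
        apply mul_le_mul_of_nonneg_right _ (by positivity)
        exact pow_le_pow_right₀ hu1 (by omega)
    · -- a single element
      have hne : (BS i).Nonempty := by
        rw [nonempty_iff_ne_empty]
        intro h
        rw [h, card_empty, Nat.cast_zero, zero_mul] at hcard
        linarith
      obtain ⟨m, hm⟩ := hne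
      obtain ⟨g1, g2, g3, g4⟩ := hmem m hm
      have hm1 : 1 ≤ m := by omega
      have hm0 : (0 : ℝ) < m := by exact_mod_cast hm1
      have hm2 : (m : ℝ) ≤ u ^ (e3 + 1) := by
        have h1 : (m : ℝ) ≤ 2 * M := by exact_mod_cast g2.le
        calc (m : ℝ) ≤ 2 * M := h1
          _ ≤ u * u ^ e3 := by
              have := hsmall.le
              gcongr
          _ = _ := by ring
      have hmk : (m : ℝ) ^ k ≤ u ^ ((e3 + 1) * k) := by
        rw [pow_mul]
        exact pow_le_pow_left₀ hm0.le hm2 k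
      rw [hbad] at g4
      have g5 : NI (u ^ e1) (1 / X m ^ k) (((m ^ k : ℕ) : ℝ) * β) := by
        push_cast; exact g4
      have hTe : u ^ ((e3 + 1) * k) * u ^ e1 ≤ u ^ e := by
        rw [← pow_add]
        exact pow_le_pow_right₀ hu1 (by omega)
      apply NI_of_mul (m ^ k) (Nat.one_le_pow _ _ hm1) g5
      · push_cast
        calc (m : ℝ) ^ k * u ^ e1 ≤ u ^ ((e3 + 1) * k) * u ^ e1 := by gcongr
          _ ≤ _ := hTe
      · have h2 : 1 / X m ^ k ≤ (m : ℝ) ^ k * ((w : ℝ) / N) ^ k := by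
          rw [← one_div_pow, ← mul_pow]
          apply pow_le_pow_left₀ (one_div_nonneg.2 (hX0 m))
          rw [hX]
          show 1 / (3 * (N : ℝ) / (m * w)) ≤ m * (w / N)
          rw [one_div_div, mul_div_assoc']
          apply div_le_div_of_nonneg_left (by positivity) hN0
          linarith
        calc u ^ e1 * (1 / X m ^ k) ≤ u ^ e1 * ((m : ℝ) ^ k * ((w : ℝ) / N) ^ k) :=
              mul_le_mul_of_nonneg_left h2 (by positivity)
          _ ≤ u ^ e1 * (u ^ ((e3 + 1) * k) * ((w : ℝ) / N) ^ k) := by gcongr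
          _ = (u ^ ((e3 + 1) * k) * u ^ e1) * ((w : ℝ) / N) ^ k := by ring
          _ ≤ _ := by gcongr

end Pool.Agent.W5h32.PM
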