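import Mathlib
import Pool.Agent.W5h32.PM.TypeI

/-! Polynomial phases along residue classes: sums of type II. -/

set_option autoImplicit false

namespace Pool.Agent.W5h32.PM
open Finset
open Pool.Agent.H373R2.NB (Ph IW IW_all vinogradov Ph_poly)
open Pool.Agent.Helper602.MK (ee)
open Pool.Agent.Helper602.MK.N_J5b (ee_add ee_zero ee_conj norm_ee ee_int ee_nat_mul ee_add_int ee_eq)

lemma NI_neg {T η α : ℝ} (h : NI T η (-α)) : NI T η α := by
  obtain ⟨q, hq, hqT, a, ha⟩ := h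
  refine ⟨q, hq, hqT, -a, ?_⟩
  have h1 : (q : ℝ) * α - ((-a : ℤ) : ℝ) = -(q * (-α) - a) := by push_cast; ring
  rw [h1, abs_neg]
  exact ha

/-- Cauchy's inequality and Schur's test -/
lemma schur (I J : Finset ℕ) (a b : ℕ → ℂ) (G : ℕ → ℕ → ℂ) (R : ℝ)
    (hR : ∀ l ∈ J, ∑ l' ∈ J, ‖∑ m ∈ I, G m l * (starRingEnd ℂ) (G m l')‖ ≤ R) :
    ‖∑ m ∈ I, ∑ l ∈ J, a m * b l * G m l‖ ^ 2 ≤ (∑ m ∈ I, ‖a m‖ ^ 2) * ((∑ l ∈ J, ‖b l‖ ^ 2) * R) := by
  have h1 : ∑ m ∈ I, ∑ l ∈ J, a m * b l * G m l = ∑ m ∈ I, a m * ∑ l ∈ J, b l * G m l := by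
    apply sum_congr rfl
    intro m _
    rw [mul_sum]
    apply sum_congr rfl
    intro l _
    ring
  have h2 : ‖∑ m ∈ I, a m * ∑ l ∈ J, b l * G m l‖ ^ 2 ≤ (∑ m ∈ I, ‖a m‖ ^ 2) * ∑ m ∈ I, ‖∑ l ∈ J, b l * G m l‖ ^ 2 := by
    have h3 : ‖∑ m ∈ I, a m * ∑ l ∈ J, b l * G m l‖ ≤ ∑ m ∈ I, ‖a m‖ * ‖∑ l ∈ J, b l * G m l‖ :=
      (norm_sum_le _ _).trans (le_of_eq (sum_congr rfl fun m _ => norm_mul _ _))
    exact (pow_le_pow_left₀ (norm_nonneg _) h3 2).trans (sum_mul_sq_le_sq_mul_sq _ _ _)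
  rw [h1]
  refine h2.trans ?_
  apply mul_le_mul_of_nonneg_left _ (sum_nonneg fun _ _ => by positivity)
  obtain ⟨T, hT⟩ : ∃ T : ℕ → ℕ → ℝ, T = fun l l' => ‖∑ m ∈ I, G m l * (starRingEnd ℂ) (G m l')‖ := ⟨_, rfl⟩
  have hTR : ∀ l ∈ J, ∑ l' ∈ J, T l l' ≤ R := by rw [hT]; exact hR
  have hT0 : ∀ l l', 0 ≤ T l l' := fun l l' => by rw [hT]; exact norm_nonneg _
  have hTs : ∀ l l', T l l' = T l' l := by
    intro l l'
    rw [hT]
    show ‖∑ m ∈ I, G m l * (starRingEnd ℂ) (G m l')‖ = ‖∑ m ∈ I, G m l' * (starRingEnd ℂ) (G m l)‖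
    rw [← RCLike.norm_conj (∑ m ∈ I, G m l * (starRingEnd ℂ) (G m l')), map_sum]
    congr 1
    apply sum_congr rfl
    intro m _
    rw [map_mul, Complex.conj_conj, mul_comm]
  have h4 : ((∑ m ∈ I, ‖∑ l ∈ J, b l * G m l‖ ^ 2 : ℝ) : ℂ) =
      ∑ l ∈ J, ∑ l' ∈ J, b l * (starRingEnd ℂ) (b l') * ∑ m ∈ I, G m l * (starRingEnd ℂ) (G m l') := by
    push_cast
    have e1 : ∀ m ∈ I, ((‖∑ l ∈ J, b l * G m l‖ : ℂ)) ^ 2 =
        ∑ l ∈ J, ∑ l' ∈ J, b l * (starRingEnd ℂ) (b l') * (G m l * (starRingEnd ℂ) (G m l')) := by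
      intro m _
      rw [← Complex.mul_conj', map_sum, sum_mul_sum]
      apply sum_congr rfl
      intro l _
      apply sum_congr rfl
      intro l' _
      rw [map_mul]
      ring
    rw [sum_congr rfl e1, sum_comm]
    apply sum_congr rfl
    intro l _
    rw [sum_comm]
    apply sum_congr rfl
    intro l' _
    rw [mul_sum]
  have h5 : ∑ m ∈ I, ‖∑ l ∈ J, b l * G m l‖ ^ 2 ≤ ∑ l ∈ J, ∑ l' ∈ J, ‖b l‖ * ‖b l'‖ * T l l' := by
    have e1 : ∑ m ∈ I, ‖∑ l ∈ J, b l * G m l‖ ^ 2 ≤ ‖((∑ m ∈ I, ‖∑ l ∈ J, b l * G m l‖ ^ 2 : ℝ) : ℂ)‖ := by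
      rw [Complex.norm_real]
      exact le_abs_self _
    refine e1.trans ?_
    rw [h4]
    refine (norm_sum_le _ _).trans (sum_le_sum fun l _ => (norm_sum_le _ _).trans (sum_le_sum fun l' _ => ?_))
    rw [norm_mul, norm_mul, RCLike.norm_conj, hT]
  refine h5.trans ?_
  have h6 : ∑ l ∈ J, ∑ l' ∈ J, ‖b l‖ * ‖b l'‖ * T l l' ≤
      ∑ l ∈ J, ∑ l' ∈ J, (‖b l‖ ^ 2 / 2 * T l l' + ‖b l'‖ ^ 2 / 2 * T l' l) := by
    apply sum_le_sum
    intro l _
    apply sum_le_sum
    intro l' _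
    rw [hTs l' l, ← add_mul]
    apply mul_le_mul_of_nonneg_right _ (hT0 _ _)
    nlinarith [sq_nonneg (‖b l‖ - ‖b l'‖)]
  refine h6.trans ?_
  have h7 : ∑ l ∈ J, ∑ l' ∈ J, (‖b l‖ ^ 2 / 2 * T l l' + ‖b l'‖ ^ 2 / 2 * T l' l) =
      ∑ l ∈ J, ‖b l‖ ^ 2 * ∑ l' ∈ J, T l l' := by
    simp only [sum_add_distrib]
    rw [sum_comm (f := fun l l' => ‖b l'‖ ^ 2 / 2 * T l' l), ← sum_add_distrib]
    apply sum_congr rfl
    intro l _
    rw [← sum_add_distrib, mul_sum]
    apply sum_congr rfl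
    intro l' _
    ring
  rw [h7, sum_mul]
  apply sum_le_sum
  intro l hl
  exact mul_le_mul_of_nonneg_left (hTR l hl) (by positivity)

/-- the correlations -/
lemma corr (k w c : ℕ) (hw : 1 ≤ w) (hc : c.Coprime w) (β : ℝ) (φ : ℕ → ℝ) (hφ : Ph k β φ)
    (N N' M l l' : ℕ) (hl : 1 ≤ l) (hl' : 1 ≤ l') :
    ∃ (n : ℕ) (ψ : ℕ → ℝ), (n : ℝ) ≤ (M : ℝ) / w + 1 ∧ Ph k ((l : ℝ) ^ k * β - (l' : ℝ) ^ k * β) ψ ∧
      ∑ m ∈ Ioc M (2 * M), (if N < m * l ∧ m * l ≤ N' then EW w c φ (m * l) else 0) *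
        (starRingEnd ℂ) (if N < m * l' ∧ m * l' ≤ N' then EW w c φ (m * l') else 0) = ∑ s ∈ range n, ee (ψ s) ∧
      (¬ l' % w = l % w → n = 0) := by
  have hw0 : (0 : ℝ) < w := by exact_mod_cast hw
  have hMw : 0 ≤ (M : ℝ) / w := by positivity
  -- the range of `m`
  obtain ⟨A, hA⟩ : ∃ A, A = max M (max (N / l) (N / l')) := ⟨_, rfl⟩
  obtain ⟨B, hB⟩ : ∃ B, B = min (2 * M) (min (N' / l) (N' / l')) := ⟨_, rfl⟩
  have hAM : M ≤ A := by rw [hA]; exact le_max_left _ _
  have hBM : B ≤ 2 * M := by rw [hB]; exact min_le_left _ _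
  have hset : ∀ m, m ∈ Ioc A B ↔ (m ∈ Ioc M (2 * M) ∧ (N < m * l ∧ m * l ≤ N') ∧ (N < m * l' ∧ m * l' ≤ N')) := by
    intro m
    rw [mem_Ioc, mem_Ioc, hA, hB, max_lt_iff, max_lt_iff, le_min_iff, le_min_iff, Nat.div_lt_iff_lt_mul hl,
      Nat.div_lt_iff_lt_mul hl', Nat.le_div_iff_mul_le hl, Nat.le_div_iff_mul_le hl']
    tauto
  have h1 : ∑ m ∈ Ioc M (2 * M), (if N < m * l ∧ m * l ≤ N' then EW w c φ (m * l) else 0) *
        (starRingEnd ℂ) (if N < m * l' ∧ m * l' ≤ N' then EW w c φ (m * l') else 0) =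
      ∑ m ∈ Ioc A B, EW w c φ (m * l) * (starRingEnd ℂ) (EW w c φ (m * l')) := by
    have e1 : Ioc A B = (Ioc M (2 * M)).filter (fun m => (N < m * l ∧ m * l ≤ N') ∧ (N < m * l' ∧ m * l' ≤ N')) := by
      ext m
      rw [hset, mem_filter]
    rw [e1, sum_filter]
    apply sum_congr rfl
    intro m _
    by_cases g1 : N < m * l ∧ m * l ≤ N'
    · by_cases g2 : N < m * l' ∧ m * l' ≤ N'
      · rw [if_pos g1, if_pos g2, if_pos ⟨g1, g2⟩]
      · rw [if_neg g2, map_zero, mul_zero, if_neg]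
        exact fun h => g2 h.2
    · rw [if_neg g1, zero_mul, if_neg]
      exact fun h => g1 h.1
  have htriv : (∀ m ∈ Ioc A B, EW w c φ (m * l) * (starRingEnd ℂ) (EW w c φ (m * l')) = 0) →
      ∃ (n : ℕ) (ψ : ℕ → ℝ), (n : ℝ) ≤ (M : ℝ) / w + 1 ∧ Ph k ((l : ℝ) ^ k * β - (l' : ℝ) ^ k * β) ψ ∧
      ∑ m ∈ Ioc M (2 * M), (if N < m * l ∧ m * l ≤ N' then EW w c φ (m * l) else 0) *
        (starRingEnd ℂ) (if N < m * l' ∧ m * l' ≤ N' then EW w c φ (m * l') else 0) = ∑ s ∈ range n, ee (ψ s) ∧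
      (¬ l' % w = l % w → n = 0) := by
    intro h
    refine ⟨0, fun s => φ (0 + l * s) - φ (0 + l' * s), ?_, Ph_sub k _ _ _ _ (Ph_affine k β φ _ _ hφ) (Ph_affine k β φ _ _ hφ), ?_, fun _ => rfl⟩
    · push_cast; linarith
    · rw [h1, sum_eq_zero h, range_zero, sum_empty]
  -- coprimality
  have hcopr : ∀ m t : ℕ, (m * t) % w = c % w → m.Coprime w ∧ t.Coprime w := by
    intro m t h
    have h2 : m * t ≡ c [MOD w] := h
    have h3 : (m * t).Coprime w := by
      have := h2.gcd_eq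
      unfold Nat.Coprime
      rw [this]
      exact hc
    exact ⟨Nat.Coprime.coprime_mul_right h3, Nat.Coprime.coprime_mul_left h3⟩
  by_cases hll : l' % w = l % w
  · by_cases hlw : l.Coprime w
    · by_cases hAB : A ≤ B
      · -- the main case
        obtain ⟨m0, hm0⟩ : ∃ m0 : ℕ, l * m0 ≡ c [MOD w] := by
          obtain ⟨y, hy⟩ : ∃ y : ℕ, l * y ≡ 1 [MOD w] := by
            rcases Nat.lt_or_ge 1 w with h1 | h1
            · obtain ⟨y, _, hy⟩ := Nat.exists_mul_mod_eq_one_of_coprime hlw h1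
              refine ⟨y, ?_⟩
              unfold Nat.ModEq
              rw [hy, Nat.mod_eq_of_lt h1]
            · have : w = 1 := by omega
              exact ⟨0, by rw [this]; exact Nat.modEq_one⟩
          refine ⟨y * c, ?_⟩
          have h2 := Nat.ModEq.mul_right c hy
          rw [one_mul] at h2
          rw [← mul_assoc]
          exact h2
        obtain ⟨m1, n, hn, -, hm1, hset2⟩ := ap_param w m0 A B hw hAB
        have hll' : l' ≡ l [MOD w] := hll
        have hiff : ∀ m, (m * l) % w = c % w ↔ m % w = m0 % w := by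
          intro m
          constructor
          · intro h
            have g1 : l * m ≡ l * m0 [MOD w] := by
              have : l * m ≡ c [MOD w] := by rw [mul_comm]; exact h
              exact this.trans hm0.symm
            exact Nat.ModEq.cancel_left_of_coprime (by rw [Nat.gcd_comm]; exact hlw) g1
          · intro h
            have g1 : m ≡ m0 [MOD w] := h
            have g2 := (g1.mul_left l).trans hm0
            rw [mul_comm] at g2
            exact g2
        have hiff' : ∀ m, (m * l') % w = c % w ↔ m % w = m0 % w := by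
          intro m
          rw [← hiff m]
          have : m * l' ≡ m * l [MOD w] := hll'.mul_left m
          unfold Nat.ModEq at this
          rw [this]
        refine ⟨n, fun s => φ (m1 * l / w + l * s) - φ (m1 * l' / w + l' * s), ?_,
          Ph_sub k _ _ _ _ (Ph_affine k β φ _ _ hφ) (Ph_affine k β φ _ _ hφ), ?_, fun h => absurd hll h⟩
        · refine hn.trans ?_
          have g1 : (B : ℝ) - A ≤ M := by
            have g2 : (B : ℝ) ≤ ((2 * M : ℕ) : ℝ) := by exact_mod_cast hBM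
            have g3 : (M : ℝ) ≤ A := by exact_mod_cast hAM
            push_cast at g2
            linarith
          have := div_le_div_of_nonneg_right g1 hw0.le
          linarith
        · rw [h1]
          have g1 : ∑ m ∈ Ioc A B, EW w c φ (m * l) * (starRingEnd ℂ) (EW w c φ (m * l')) =
              ∑ m ∈ (Ioc A B).filter (fun m => m % w = m0 % w), ee (φ (m * l / w)) * (starRingEnd ℂ) (ee (φ (m * l' / w))) := by
            rw [sum_filter]
            apply sum_congr rfl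
            intro m _
            unfold EW
            simp only [hiff m, hiff' m]
            split_ifs
            · rfl
            · rw [zero_mul]
          rw [g1, hset2, sum_image]
          · apply sum_congr rfl
            intro s _
            rw [show (m1 + w * s) * l = m1 * l + w * (l * s) by ring, show (m1 + w * s) * l' = m1 * l' + w * (l' * s) by ring,
              Nat.add_mul_div_left _ _ hw, Nat.add_mul_div_left _ _ hw, ee_conj, ← ee_add]
            rfl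
          · intro s _ s' _ h
            have h2 : m1 + w * s = m1 + w * s' := h
            exact Nat.eq_of_mul_eq_mul_left hw (by omega)
      · apply htriv
        intro m hm
        rw [mem_Ioc] at hm
        omega
    · apply htriv
      intro m _
      unfold EW
      rw [if_neg, zero_mul]
      intro h
      exact hlw (hcopr m l h).2
  · apply htriv
    intro m _
    by_cases g1 : (m * l) % w = c % w
    · by_cases g2 : (m * l') % w = c % w
      · exfalso
        apply hll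
        have g3 : m * l' ≡ m * l [MOD w] := g2.trans g1.symm
        exact Nat.ModEq.cancel_left_of_coprime (by rw [Nat.gcd_comm]; exact (hcopr m l g1).1) g3
      · unfold EW
        rw [if_neg g2, map_zero, mul_zero]
    · unfold EW
      rw [if_neg g1, zero_mul]

/-- sums of type II along a residue class -/
theorem typeII (k : ℕ) (hk : 1 ≤ k) : ∃ e : ℕ, ∀ (u : ℝ) (w M L : ℕ) (β : ℝ), 2 ≤ u → 1 ≤ w →
    (w : ℝ) * u ^ e ≤ M → (w : ℝ) * u ^ e ≤ L → NI (u ^ e) (((w : ℝ) ^ 2 / (M * L)) ^ k) ((w : ℝ) ^ k * β) ∨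
    ∀ (c : ℕ) (φ : ℕ → ℝ) (N N' : ℕ) (a b : ℕ → ℂ), c.Coprime w → Ph k β φ →
      ‖∑ m ∈ Ioc M (2 * M), ∑ l ∈ Ioc L (2 * L), a m * b l * (if N < m * l ∧ m * l ≤ N' then EW w c φ (m * l) else 0)‖ ^ 2 ≤
        (∑ m ∈ Ioc M (2 * M), ‖a m‖ ^ 2) * ((∑ l ∈ Ioc L (2 * L), ‖b l‖ ^ 2) * (8 * (M * L) / ((w : ℝ) ^ 2 * u))) := by
  obtain ⟨e1, hiw⟩ := iw_len k hk
  obtain ⟨e2, hrec⟩ := rec2 k hk
  obtain ⟨e3, he3⟩ : ∃ e3, e3 = (e1 + 1) * e2 := ⟨_, rfl⟩
  obtain ⟨e, he⟩ : ∃ e, e = k.factorial + e3 + 2 := ⟨_, rfl⟩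
  refine ⟨e, fun u w M L β hu hw hM hL => ?_⟩
  classical
  have hu0 : 0 < u := by linarith
  have hu1 : 1 ≤ u := by linarith
  have hw0 : (0 : ℝ) < w := by exact_mod_cast hw
  have hue2 : 2 ≤ u ^ e := by
    calc (2 : ℝ) ≤ u := hu
      _ = u ^ 1 := (pow_one u).symm
      _ ≤ _ := pow_le_pow_right₀ hu1 (by omega)
  have hM2 : 2 * (w : ℝ) ≤ M := by nlinarith
  have hL2 : 2 * (w : ℝ) ≤ L := by nlinarith
  have hM0 : (0 : ℝ) < M := by linarith
  have hL0 : (0 : ℝ) < L := by linarith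
  obtain ⟨K, hK⟩ : ∃ K : ℝ, K = 2 * M / w := ⟨_, rfl⟩
  have hK0 : 0 < K := by rw [hK]; positivity
  have hKge : (M : ℝ) / w + 1 ≤ K := by
    have : 1 ≤ (M : ℝ) / w := by rw [le_div_iff₀ hw0]; linarith
    rw [hK, show 2 * (M : ℝ) / w = M / w + M / w by ring]
    linarith
  have hKu : u ^ e ≤ K := by
    rw [hK, le_div_iff₀ hw0]
    linarith
  by_cases hall : ∀ l ∈ Ioc L (2 * L), ((((Ioc L (2 * L)).filter (fun l' : ℕ => l' % w = l % w)).filter
      (fun l' : ℕ => NI (u ^ e1) (1 / K ^ k) ((l : ℝ) ^ k * β - (l' : ℝ) ^ k * β))).card : ℝ) * u ≤ 2 * L / w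
  · right
    intro c φ N N' a b hc hφ
    apply schur
    intro l hl
    have hl1 : 1 ≤ l := by rw [mem_Ioc] at hl; omega
    have h1 : ∀ l' ∈ Ioc L (2 * L), ‖∑ m ∈ Ioc M (2 * M), (if N < m * l ∧ m * l ≤ N' then EW w c φ (m * l) else 0) *
        (starRingEnd ℂ) (if N < m * l' ∧ m * l' ≤ N' then EW w c φ (m * l') else 0)‖ ≤
        (if l' % w = l % w then K / u else 0) +
        (if l' % w = l % w ∧ NI (u ^ e1) (1 / K ^ k) ((l : ℝ) ^ k * β - (l' : ℝ) ^ k * β) then K else 0) := by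
      intro l' hl'
      have hl'1 : 1 ≤ l' := by rw [mem_Ioc] at hl'; omega
      obtain ⟨n, ψ, hn, hψ, hs, hz⟩ := corr k w c hw hc β φ hφ N N' M l l' hl1 hl'1
      rw [hs]
      by_cases g1 : l' % w = l % w
      · rw [if_pos g1]
        by_cases g2 : NI (u ^ e1) (1 / K ^ k) ((l : ℝ) ^ k * β - (l' : ℝ) ^ k * β)
        · rw [if_pos ⟨g1, g2⟩]
          have g3 : ‖∑ s ∈ range n, ee (ψ s)‖ ≤ n := by
            refine (norm_sum_le _ _).trans ?_
            simp [norm_ee]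
          have g4 : 0 ≤ K / u := by positivity
          linarith
        · rw [if_neg (fun h => g2 h.2), add_zero]
          rcases hiw u K n _ ψ hu hK0 (hn.trans hKge) hψ with h1 | h1
          · exact h1
          · exact absurd h1 g2
      · rw [hz g1, range_zero, sum_empty, norm_zero, if_neg g1, if_neg (fun h => g1 h.1), add_zero]
    refine (sum_le_sum h1).trans ?_
    rw [sum_add_distrib, ← sum_filter, ← sum_filter, sum_const, sum_const, nsmul_eq_mul, nsmul_eq_mul]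
    have h2 : ((((Ioc L (2 * L)).filter (fun l' => l' % w = l % w)).card : ℕ) : ℝ) ≤ 2 * L / w := by
      obtain ⟨l1, n, hn, -, -, hset⟩ := ap_param w l L (2 * L) hw (by omega)
      rw [hset]
      have g1 : (((range n).image (fun s => l1 + w * s)).card : ℝ) ≤ n := by
        have := card_image_le (s := range n) (f := fun s => l1 + w * s)
        rw [card_range] at this
        exact_mod_cast this
      have g2 : 1 ≤ (L : ℝ) / w := by rw [le_div_iff₀ hw0]; linarith
      have g3 : (((2 * L : ℕ) : ℝ) - L) / w + 1 ≤ 2 * L / w := by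
        push_cast
        rw [show (2 * (L : ℝ) - L) / w = L / w by ring, show 2 * (L : ℝ) / w = L / w + L / w by ring]
        linarith
      linarith
    have h3 := hall l hl
    rw [filter_filter] at h3
    have h4 : ((((Ioc L (2 * L)).filter (fun l' => l' % w = l % w ∧ NI (u ^ e1) (1 / K ^ k) ((l : ℝ) ^ k * β - (l' : ℝ) ^ k * β))).card : ℕ) : ℝ) ≤
        2 * L / w / u := by
      rw [le_div_iff₀ hu0]; exact h3
    calc _ ≤ 2 * (L : ℝ) / w * (K / u) + 2 * L / w / u * K := by gcongr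
      _ = _ := by rw [hK]; field_simp; ring
  · left
    push Not at hall
    obtain ⟨l, hl, hcard⟩ := hall
    obtain ⟨l1, J, hJ1, hJ2, hl1, hset⟩ := ap_param w l L (2 * L) hw (by omega)
    have hJup : (J : ℝ) ≤ 2 * L / w := by
      have g2 : 1 ≤ (L : ℝ) / w := by rw [le_div_iff₀ hw0]; linarith
      refine hJ1.trans ?_
      push_cast
      rw [show (2 * (L : ℝ) - L) / w = L / w by ring, show 2 * (L : ℝ) / w = L / w + L / w by ring]
      linarith
    have hJlow : (L : ℝ) / (2 * w) ≤ J := by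
      refine le_trans ?_ hJ2
      push_cast
      have g2 : 2 ≤ (L : ℝ) / w := by rw [le_div_iff₀ hw0]; linarith
      rw [show (2 * (L : ℝ) - L) / w = L / w by ring, show (L : ℝ) / (2 * w) = L / w / 2 by field_simp]
      linarith
    have hJ0 : (0 : ℝ) < J := lt_of_lt_of_le (by positivity) hJlow
    have hJu : u ^ e3 ≤ J := by
      refine le_trans ?_ hJlow
      rw [le_div_iff₀ (by positivity)]
      calc u ^ e3 * (2 * w) ≤ u ^ e3 * (u * w) := by gcongr
        _ = w * u ^ (e3 + 1) := by ring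
        _ ≤ w * u ^ e := by
            apply mul_le_mul_of_nonneg_left _ hw0.le
            exact pow_le_pow_right₀ hu1 (by omega)
        _ ≤ L := hL
    set S : Finset ℕ := (range J).filter (fun s => NI (u ^ e1) (1 / K ^ k) ((l : ℝ) ^ k * β - ((l1 + w * s : ℕ) : ℝ) ^ k * β)) with hS
    have hScard : (2 * (L : ℝ) / w) ≤ S.card * u := by
      refine hcard.le.trans ?_
      apply mul_le_mul_of_nonneg_right _ hu0.le
      rw [hset, filter_image, Nat.cast_le]
      exact card_image_le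
    have h1 := hrec (u ^ (e1 + 1)) (1 / K ^ k) J _ _ S (by
        calc (2 : ℝ) ≤ u := hu
            _ = u ^ 1 := (pow_one u).symm
            _ ≤ _ := pow_le_pow_right₀ hu1 (by omega)) (by positivity) (by
        rw [← pow_mul, ← he3, one_div_mul_eq_div, div_le_one (by positivity)]
        have hK1 : 1 ≤ K := le_trans (one_le_pow₀ hu1) hKu
        calc u ^ e3 ≤ u ^ e := pow_le_pow_right₀ hu1 (by omega)
          _ ≤ K := hKu
          _ = K ^ 1 := (pow_one K).symm
          _ ≤ K ^ k := pow_le_pow_right₀ hK1 hk) (by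
        rw [← pow_mul, ← he3]; exact hJu)
      (Ph_sub k _ _ _ _ (Ph_const k hk ((l : ℝ) ^ k * β)) (Ph_pow_affine k β l1 w)) (filter_subset _ _) (by
        intro s hs
        rw [hS, mem_filter] at hs
        show NI (u ^ (e1 + 1)) (1 / K ^ k) ((l : ℝ) ^ k * β - β * ((l1 + w * s : ℕ) : ℝ) ^ k)
        rw [mul_comm β]
        apply NI_mono hs.2 (pow_le_pow_right₀ hu1 (by omega))
        apply mul_le_mul_of_nonneg_right _ (by positivity)
        exact pow_le_pow_right₀ hu1 (by omega)) (by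
        calc (J : ℝ) ≤ 2 * L / w := hJup
          _ ≤ S.card * u := hScard
          _ = u ^ 1 * S.card := by rw [pow_one]; ring
          _ ≤ u ^ (e1 + 1) * S.card := by
              apply mul_le_mul_of_nonneg_right _ (Nat.cast_nonneg _)
              exact pow_le_pow_right₀ hu1 (by omega))
    rw [zero_sub] at h1
    have h2 := NI_neg h1
    have h3 : (w : ℝ) ^ k * ((k.factorial : ℝ) * β) = (k.factorial : ℝ) * ((w : ℝ) ^ k * β) := by ring
    rw [h3] at h2
    have hfac : ((k.factorial : ℕ) : ℝ) ≤ u ^ k.factorial := two_pow_ge _ hu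
    apply NI_of_mul k.factorial (Nat.factorial_pos k) h2
    · rw [← pow_mul, ← he3]
      calc ((k.factorial : ℕ) : ℝ) * u ^ e3 ≤ u ^ k.factorial * u ^ e3 := by gcongr
        _ = u ^ (k.factorial + e3) := by rw [pow_add]
        _ ≤ _ := pow_le_pow_right₀ hu1 (by omega)
    · rw [← pow_mul, ← he3]
      have h4 : 1 / K ^ k / (J : ℝ) ^ k ≤ ((w : ℝ) ^ 2 / (M * L)) ^ k := by
        rw [← one_div_pow, ← div_pow]
        apply pow_le_pow_left₀ (by positivity)
        calc 1 / K / (J : ℝ) ≤ 1 / K / (L / (2 * w)) := by gcongr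
          _ = (w : ℝ) ^ 2 / (M * L) := by rw [hK]; field_simp
      calc u ^ e3 * (1 / K ^ k / (J : ℝ) ^ k) ≤ u ^ e * ((w : ℝ) ^ 2 / (M * L)) ^ k := by
            apply mul_le_mul (pow_le_pow_right₀ hu1 (by omega)) h4 (by positivity) (by positivity)

end Pool.Agent.W5h32.PM
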