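import Mathlib
import Pool.Agent.W5h32.PM.TypeII
import Pool.Agent.H373R2.T7.Vau
import Pool.Agent.H373R2.T7.LamZ2

/-! Polynomial phases along residue classes: the von Mangoldt function and its sieve model. -/

set_option autoImplicit false

namespace Pool.Agent.W5h32.PM
open Finset
open Pool.Agent.H373R2.NB (Ph IW IW_all vinogradov Ph_poly)
open Pool.Agent.Helper602.MK (ee)
open Pool.Agent.Helper602.MK.N_J5b (ee_add ee_zero ee_conj norm_ee ee_int ee_nat_mul ee_add_int ee_eq)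
open Pool.Agent.H373R2.T7 (vaughan_gen pz Vz lamz mem_pz Vz_pos bonf_ind sum_small_le es es_le prod_dvd_iff prod_le_pow sum_pz_le)

/-- the von Mangoldt function along a residue class -/
theorem perw_lam (k : ℕ) (hk : 1 ≤ k) : ∃ e : ℕ, ∀ (u : ℝ) (w c N N' : ℕ) (β : ℝ) (φ : ℕ → ℝ), 2 ≤ u → 1 ≤ w →
    c.Coprime w → Ph k β φ → N ≤ N' → N' ≤ 2 * N → (w : ℝ) ^ 3 * u ^ e ≤ N →
    NI (u ^ e) (((w : ℝ) ^ 2 / N) ^ k) ((w : ℝ) ^ k * β) ∨
    ‖∑ n ∈ Ioc N N', ((ArithmeticFunction.vonMangoldt n : ℝ) : ℂ) * EW w c φ n‖ ≤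
      120 * (1 + Real.log (4 * N)) ^ 5 * (N / (w * √u)) := by
  obtain ⟨e1, h1⟩ := typeI k hk
  obtain ⟨e2, h2⟩ := typeII k hk
  obtain ⟨e0, he0⟩ : ∃ e0, e0 = e1 + e2 + 2 := ⟨_, rfl⟩
  obtain ⟨e, he⟩ : ∃ e, e = 3 * e0 + 2 * k + e1 + 5 := ⟨_, rfl⟩
  refine ⟨e, fun u w c N N' β φ hu hw hc hφ hNN' hN' hwN => ?_⟩
  have hu0 : 0 < u := by linarith
  have hu1 : 1 ≤ u := by linarith
  have hw0 : (0 : ℝ) < w := by exact_mod_cast hw
  have hw1 : (1 : ℝ) ≤ w := by exact_mod_cast hw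
  have hup : ∀ i j : ℕ, i ≤ j → u ^ i ≤ u ^ j := fun i j h => pow_le_pow_right₀ hu1 h
  have hN0 : (0 : ℝ) < N := lt_of_lt_of_le (by positivity) hwN
  have hN1 : 1 ≤ N := by exact_mod_cast hN0
  obtain ⟨U, hU⟩ : ∃ U : ℕ, U = ⌈(w : ℝ) * u ^ e0⌉₊ := ⟨_, rfl⟩
  have hU1 : (w : ℝ) * u ^ e0 ≤ U := by rw [hU]; exact Nat.le_ceil _
  have hwu1 : 1 ≤ (w : ℝ) * u ^ e0 := one_le_mul_of_one_le_of_one_le hw1 (one_le_pow₀ hu1)
  have hU2 : (U : ℝ) ≤ w * u ^ (e0 + 1) := by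
    have h3 : (U : ℝ) < w * u ^ e0 + 1 := by rw [hU]; exact Nat.ceil_lt_add_one (by positivity)
    have h4 : (w : ℝ) * u ^ (e0 + 1) = (w * u ^ e0) * u := by ring
    rw [h4]
    nlinarith
  have hUr1 : (1 : ℝ) ≤ U := hwu1.trans hU1
  have hUn1 : 1 ≤ U := by exact_mod_cast hUr1
  have hUU : ((U * U : ℕ) : ℝ) ≤ w ^ 2 * u ^ (2 * e0 + 2) := by
    push_cast
    calc (U : ℝ) * U ≤ (w * u ^ (e0 + 1)) * (w * u ^ (e0 + 1)) := by gcongr
      _ = _ := by ring
  have hUUw : ((U * U : ℕ) : ℝ) * w * u ^ e1 ≤ N := by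
    refine le_trans ?_ hwN
    calc ((U * U : ℕ) : ℝ) * w * u ^ e1 ≤ (w ^ 2 * u ^ (2 * e0 + 2)) * w * u ^ e1 := by gcongr
      _ = (w : ℝ) ^ 3 * u ^ (2 * e0 + 2 + e1) := by ring
      _ ≤ _ := by
          apply mul_le_mul_of_nonneg_left _ (by positivity)
          exact hup _ _ (by omega)
  have hUUN : U * U ≤ N := by
    have h3 : ((U * U : ℕ) : ℝ) ≤ N := by
      refine le_trans ?_ hUUw
      have h4 : (1 : ℝ) ≤ w * u ^ e1 := one_le_mul_of_one_le_of_one_le hw1 (one_le_pow₀ hu1)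
      calc ((U * U : ℕ) : ℝ) = ((U * U : ℕ) : ℝ) * 1 := (mul_one _).symm
        _ ≤ ((U * U : ℕ) : ℝ) * (w * u ^ e1) := mul_le_mul_of_nonneg_left h4 (Nat.cast_nonneg _)
        _ = _ := by ring
    exact_mod_cast h3
  by_cases hNI : NI (u ^ e) (((w : ℝ) ^ 2 / N) ^ k) ((w : ℝ) ^ k * β)
  · exact Or.inl hNI
  right
  rcases h1 u w N (U * U) β hu hw (Nat.mul_pos hUn1 hUn1) hUUw with h3 | ⟨Y, hY0, hY, hYs⟩
  · exfalso
    apply hNI
    have h4 : NI (u ^ e1) (((w : ℝ) ^ 2 / N) ^ k) (((w ^ k : ℕ) : ℝ) * β) := by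
      apply NI_mul (w ^ k) h3
      push_cast
      rw [show ((w : ℝ) ^ 2 / N) = w * (w / N) by ring, mul_pow]
      apply le_of_eq
      ring
    push_cast at h4
    apply NI_mono h4 (hup _ _ (by omega))
    apply mul_le_mul_of_nonneg_right (hup _ _ (by omega)) (by positivity)
  · set Lg : ℝ := 1 + Real.log (4 * N) with hLg
    have hNr1 : (1 : ℝ) ≤ N := by exact_mod_cast hN1
    have hlog0 : 0 ≤ Real.log (4 * (N : ℝ)) := Real.log_nonneg (by linarith)
    have hLg1 : 1 ≤ Lg := by linarith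
    have hsu : 1 ≤ √u := by rw [Real.one_le_sqrt]; exact hu1
    have hsu0 : 0 < √u := by linarith
    have hsusq : √u ^ 2 = u := Real.sq_sqrt hu0.le
    have key := vaughan_gen (EW w c φ) N N' U hN1 hNN' hN' hUn1 hUUN Y (6 * (N : ℝ) / (w * √u)) (by positivity) hY0
      (fun m hm b hb => hY m hm c φ N' b hc hφ hN' hb) (by
        intro a b A₂ B₂ hA0 hB0 M L hM hL hM2 hL2 hML hA hB
        have hM0 : (0 : ℝ) < M := by exact_mod_cast hM
        have hL0 : (0 : ℝ) < L := by exact_mod_cast hL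
        by_cases h4 : N < 4 * (M * L)
        · have h4r : (N : ℝ) < 4 * (M * L) := by exact_mod_cast h4
          have hwe2 : (w : ℝ) * u ^ e2 * 2 ≤ U := by
            refine le_trans ?_ hU1
            calc (w : ℝ) * u ^ e2 * 2 ≤ (w : ℝ) * u ^ e2 * u := by gcongr
              _ = w * u ^ (e2 + 1) := by ring
              _ ≤ _ := by
                  apply mul_le_mul_of_nonneg_left _ hw0.le
                  exact hup _ _ (by omega)
          have hwM : (w : ℝ) * u ^ e2 ≤ M := by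
            have : (U : ℝ) < 2 * M := by exact_mod_cast hM2
            linarith
          have hwL : (w : ℝ) * u ^ e2 ≤ L := by
            have : (U : ℝ) < 2 * L := by exact_mod_cast hL2
            linarith
          rcases h2 u w M L β hu hw hwM hwL with h5 | h5
          · exfalso
            apply hNI
            apply NI_mono h5 (hup _ _ (by omega))
            have h6 : (w : ℝ) ^ 2 / (M * L) ≤ 4 * (w ^ 2 / N) := by
              rw [div_le_iff₀ (by positivity)]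
              have h7 : 4 * ((w : ℝ) ^ 2 / N) * (M * L) = (4 * (M * L)) / N * w ^ 2 := by ring
              rw [h7]
              have h8 : 1 ≤ (4 * ((M : ℝ) * L)) / N := by
                rw [le_div_iff₀ hN0]; linarith
              nlinarith [sq_nonneg (w : ℝ)]
            calc u ^ e2 * ((w : ℝ) ^ 2 / (M * L)) ^ k ≤ u ^ e2 * (4 * (w ^ 2 / N)) ^ k := by gcongr
              _ = u ^ e2 * (2 ^ (2 * k)) * ((w : ℝ) ^ 2 / N) ^ k := by
                  rw [mul_pow, pow_mul]; norm_num; ring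
              _ ≤ u ^ e2 * (u ^ (2 * k)) * ((w : ℝ) ^ 2 / N) ^ k := by gcongr
              _ = u ^ (e2 + 2 * k) * ((w : ℝ) ^ 2 / N) ^ k := by rw [pow_add]
              _ ≤ _ := by
                  apply mul_le_mul_of_nonneg_right _ (by positivity)
                  exact hup _ _ (by omega)
          · refine (h5 c φ N N' a b hc hφ).trans ?_
            have hMLr : (M : ℝ) * L ≤ 2 * N := by exact_mod_cast hML.trans hN'
            calc (∑ m ∈ Ioc M (2 * M), ‖a m‖ ^ 2) * ((∑ l ∈ Ioc L (2 * L), ‖b l‖ ^ 2) * (8 * (M * L) / ((w : ℝ) ^ 2 * u)))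
                ≤ (A₂ * M) * ((B₂ * L) * (8 * (M * L) / ((w : ℝ) ^ 2 * u))) := by gcongr
              _ = A₂ * B₂ * (8 * ((M * L) * (M * L)) / ((w : ℝ) ^ 2 * u)) := by ring
              _ ≤ A₂ * B₂ * (8 * ((2 * N) * (2 * N)) / ((w : ℝ) ^ 2 * u)) := by gcongr
              _ ≤ A₂ * B₂ * (6 * (N : ℝ) / (w * √u)) ^ 2 := by
                  apply mul_le_mul_of_nonneg_left _ (by positivity)
                  rw [div_pow, mul_pow (w : ℝ), hsusq]
                  apply div_le_div_of_nonneg_right _ (by positivity)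
                  nlinarith [sq_nonneg (N : ℝ)]
        · have h5 : ∑ m ∈ Ioc M (2 * M), ∑ l ∈ Ioc L (2 * L), a m * b l * (if N < m * l ∧ m * l ≤ N' then EW w c φ (m * l) else 0) = 0 := by
            apply sum_eq_zero
            intro m hm
            apply sum_eq_zero
            intro l hl
            rw [mem_Ioc] at hm hl
            rw [if_neg, mul_zero]
            rintro ⟨h6, _⟩
            have h7 : m * l ≤ (2 * M) * (2 * L) := Nat.mul_le_mul hm.2 hl.2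
            have h8 : (2 * M) * (2 * L) = 4 * (M * L) := by ring
            omega
          rw [h5, norm_zero, zero_pow two_ne_zero]
          positivity)
    refine key.trans ?_
    have hYs' : ∑ m ∈ Icc 1 (U * U), Y m ≤ 20 * Lg * (N / (w * √u)) := by
      refine hYs.trans ?_
      have h4 : Real.log ((U * U : ℕ) : ℝ) ≤ Real.log (4 * (N : ℝ)) := by
        apply Real.log_le_log
        · exact_mod_cast Nat.mul_pos hUn1 hUn1
        · have : ((U * U : ℕ) : ℝ) ≤ N := by exact_mod_cast hUUN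
          linarith
      have h5 : √u ≤ u := by
        nlinarith
      have h6 : (N : ℝ) / (w * u) ≤ N / (w * √u) := by gcongr
      have h7 : 20 * (1 + Real.log ((U * U : ℕ) : ℝ)) ≤ 20 * Lg := by rw [hLg]; linarith
      have h8 : (0 : ℝ) ≤ N / (w * u) := by positivity
      exact mul_le_mul h7 h6 h8 (by positivity)
    have hLg5 : Lg * Lg ≤ Lg ^ 5 := by
      calc Lg * Lg = Lg ^ 2 := by ring
        _ ≤ Lg ^ 5 := pow_le_pow_right₀ hLg1 (by norm_num)
    have hP : 0 ≤ (N : ℝ) / (w * √u) := by positivity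
    calc 8 * Lg ^ 5 * (6 * (N : ℝ) / (w * √u)) + 3 * Lg * ∑ m ∈ Icc 1 (U * U), Y m
        ≤ 8 * Lg ^ 5 * (6 * (N : ℝ) / (w * √u)) + 3 * Lg * (20 * Lg * (N / (w * √u))) := by gcongr
      _ = (48 * Lg ^ 5 + 60 * (Lg * Lg)) * (N / (w * √u)) := by ring
      _ ≤ (120 * Lg ^ 5) * (N / (w * √u)) := by
          apply mul_le_mul_of_nonneg_right _ hP
          have : 0 ≤ Lg ^ 5 := by positivity
          linarith

lemma sum_dvd (N N' d : ℕ) (hd : 1 ≤ d) (G : ℕ → ℂ) :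
    ∑ n ∈ (Ioc N N').filter (fun n => d ∣ n), G n = ∑ l ∈ Ioc (N / d) (N' / d), G (d * l) := by
  symm
  apply sum_bij (fun m _ => d * m)
  · intro m hm
    rw [mem_Ioc, Nat.div_lt_iff_lt_mul hd, Nat.le_div_iff_mul_le hd] at hm
    rw [mem_filter, mem_Ioc, mul_comm]
    exact ⟨hm, dvd_mul_left _ _⟩
  · intro a _ b _ h
    exact Nat.eq_of_mul_eq_mul_left hd h
  · intro n hn
    rw [mem_filter, mem_Ioc] at hn
    obtain ⟨m, rfl⟩ := hn.2
    refine ⟨m, ?_, rfl⟩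
    rw [mem_Ioc, Nat.div_lt_iff_lt_mul hd, Nat.le_div_iff_mul_le hd, mul_comm]
    exact hn.1
  · intro m _; rfl

lemma len_le (w N N' m b : ℕ) (hw : 1 ≤ w) (hm : 1 ≤ m) (hN' : N' ≤ 2 * N) (hb : b ≤ N' / m) (hmw : (m : ℝ) * w ≤ N) :
    ((b : ℝ) - ((N / m : ℕ) : ℝ)) / w + 1 ≤ 3 * N / (m * w) := by
  have hm0 : (0 : ℝ) < m := by exact_mod_cast hm
  have hw0 : (0 : ℝ) < w := by exact_mod_cast hw
  have h1 : (b : ℝ) ≤ 2 * N / m := by
    have h2 : (b : ℝ) ≤ ((N' / m : ℕ) : ℝ) := by exact_mod_cast hb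
    have h3 : ((N' / m : ℕ) : ℝ) ≤ N' / m := Nat.cast_div_le
    have h4 : (N' : ℝ) / m ≤ 2 * N / m := by
      apply div_le_div_of_nonneg_right _ hm0.le
      exact_mod_cast hN'
    linarith
  have h5 : (N : ℝ) / m - 1 ≤ ((N / m : ℕ) : ℝ) := by
    have h6 : (N : ℝ) / m < ((N / m : ℕ) : ℝ) + 1 := by
      rw [div_lt_iff₀ hm0]
      have h7 := Nat.lt_div_mul_add (a := N) (b := m) hm
      have h8 : (N : ℝ) < ((N / m * m + m : ℕ) : ℝ) := by exact_mod_cast h7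
      push_cast at h8
      linarith
    linarith
  have h10 : 1 ≤ (N : ℝ) / (m * w) := by
    rw [le_div_iff₀ (by positivity)]; linarith
  have hw1 : (1 : ℝ) ≤ w := by exact_mod_cast hw
  calc ((b : ℝ) - ((N / m : ℕ) : ℝ)) / w + 1 ≤ (2 * N / m - (N / m - 1)) / w + 1 := by gcongr
    _ = (N : ℝ) / (m * w) + 1 / w + 1 := by field_simp; ring
    _ ≤ (N : ℝ) / (m * w) + 1 + 1 := by
        have : 1 / (w : ℝ) ≤ 1 := by rw [div_le_one hw0]; exact hw1
        linarith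
    _ ≤ 3 * N / (m * w) := by
        have : 3 * (N : ℝ) / (m * w) = 3 * (N / (m * w)) := by ring
        rw [this]; linarith

/-- the number of the multiples of `d` in the residue class -/
lemma count_dvd (w c N N' d : ℕ) (φ : ℕ → ℝ) (hw : 1 ≤ w) (hc : c.Coprime w) (hd : 1 ≤ d) (hNN' : N ≤ N') (hN' : N' ≤ 2 * N)
    (hdw : (d : ℝ) * w ≤ N) :
    ∑ n ∈ (Ioc N N').filter (fun n => d ∣ n), ‖EW w c φ n‖ ≤ 3 * N / (d * w) := by
  have h1 : ∀ n, ((‖EW w c φ n‖ : ℝ) : ℂ) = EW w c (fun _ => 0) n := by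
    intro n
    unfold EW
    split_ifs
    · rw [norm_ee, ee_zero]; norm_num
    · rw [norm_zero]; norm_num
  have h2 : ((∑ n ∈ (Ioc N N').filter (fun n => d ∣ n), ‖EW w c φ n‖ : ℝ) : ℂ) =
      ∑ l ∈ Ioc (N / d) (N' / d), EW w c (fun _ => 0) (d * l) := by
    rw [← sum_dvd N N' d hd]
    push_cast
    exact sum_congr rfl fun n _ => h1 n
  obtain ⟨n, ψ, hn, -, hs⟩ := inner 1 w c d hw hc hd 0 (fun _ => 0) (Ph_const 1 le_rfl 0) (N / d) (N' / d) (Nat.div_le_div_right hNN')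
  rw [hs] at h2
  have h3 : ∑ n ∈ (Ioc N N').filter (fun n => d ∣ n), ‖EW w c φ n‖ ≤ n := by
    have h4 : ‖((∑ n ∈ (Ioc N N').filter (fun n => d ∣ n), ‖EW w c φ n‖ : ℝ) : ℂ)‖ ≤ n := by
      rw [h2]
      refine (norm_sum_le _ _).trans ?_
      simp [norm_ee]
    rw [Complex.norm_real] at h4
    exact (le_abs_self _).trans h4
  refine h3.trans (hn.trans ?_)
  exact len_le w N N' d (N' / d) hw hd hN' le_rfl hdw

/-- the sieve model along a residue class -/
theorem perw_lamz (k : ℕ) (hk : 1 ≤ k) : ∃ e : ℕ, ∀ (u : ℝ) (w c N N' z r : ℕ) (β : ℝ) (φ : ℕ → ℝ), 2 ≤ u → 1 ≤ w →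
    c.Coprime w → Ph k β φ → N ≤ N' → N' ≤ 2 * N → ((z : ℝ) + 1) ^ r * w * u ^ e ≤ N →
    NI (u ^ e) (((w : ℝ) ^ 2 / N) ^ k) ((w : ℝ) ^ k * β) ∨
    ‖∑ n ∈ Ioc N N', ((lamz z n : ℝ) : ℂ) * EW w c φ n‖ ≤
      (Vz z)⁻¹ * ((N : ℝ) / w * (20 * (1 + Real.log N) / u + 3 * Real.exp (3 * (1 + Real.log z) - r))) := by
  obtain ⟨e1, h1⟩ := typeI k hk
  refine ⟨e1, fun u w c N N' z r β φ hu hw hc hφ hNN' hN' hzN => ?_⟩
  have hu0 : 0 < u := by linarith
  have hu1 : 1 ≤ u := by linarith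
  have hw0 : (0 : ℝ) < w := by exact_mod_cast hw
  have hw1 : (1 : ℝ) ≤ w := by exact_mod_cast hw
  have hue : 1 ≤ u ^ e1 := one_le_pow₀ hu1
  have hN0 : (0 : ℝ) < N := lt_of_lt_of_le (by positivity) hzN
  obtain ⟨D, hD⟩ : ∃ D : ℕ, D = (z + 1) ^ r := ⟨_, rfl⟩
  have hDr : (D : ℝ) = ((z : ℝ) + 1) ^ r := by rw [hD]; push_cast; rfl
  have hD1 : 1 ≤ D := by rw [hD]; exact Nat.one_le_pow _ _ (by omega)
  rw [← hDr] at hzN
  have hDw : (D : ℝ) * w ≤ N := le_trans (le_mul_of_one_le_right (by positivity) hue) hzN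
  have hDN : (D : ℝ) ≤ N := le_trans (le_mul_of_one_le_right (by positivity) hw1) hDw
  rcases h1 u w N D β hu hw hD1 hzN with h3 | ⟨Y, hY0, hY, hYs⟩
  · left
    have h4 : NI (u ^ e1) (((w : ℝ) ^ 2 / N) ^ k) (((w ^ k : ℕ) : ℝ) * β) := by
      apply NI_mul (w ^ k) h3
      push_cast
      rw [show ((w : ℝ) ^ 2 / N) = w * (w / N) by ring, mul_pow]
      apply le_of_eq
      ring
    push_cast at h4
    exact h4
  right
  classical
  set ind : ℕ → ℝ := fun n => if ∀ p ∈ pz z, ¬ p ∣ n then (1 : ℝ) else 0 with hind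
  set χ : Finset ℕ → ℕ → ℝ := fun S n => if ∀ p ∈ S, p ∣ n then (1 : ℝ) else 0 with hχ
  have hpt : ∀ n : ℕ, |ind n - ∑ j ∈ range r, (-1 : ℝ) ^ j * ∑ S ∈ (pz z).powersetCard j, χ S n| ≤
      ∑ S ∈ (pz z).powersetCard r, χ S n := by
    intro n
    have := bonf_ind (fun p n => p ∣ n) (pz z) r n
    rw [hind, hχ]
    convert this
  have hS : ∑ n ∈ Ioc N N', ((lamz z n : ℝ) : ℂ) * EW w c φ n =
      (((Vz z)⁻¹ : ℝ) : ℂ) * ∑ n ∈ Ioc N N', ((ind n : ℝ) : ℂ) * EW w c φ n := by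
    rw [mul_sum]
    apply sum_congr rfl
    intro n _
    rw [hind]
    unfold lamz
    by_cases h : ∀ p ∈ pz z, ¬ p ∣ n
    · simp only [if_pos h]
      push_cast
      ring
    · simp only [if_neg h]
      push_cast
      ring
  have hprime : ∀ j, ∀ S ∈ (pz z).powersetCard j, ∀ p ∈ S, p.Prime := fun j S hS p hp =>
    (mem_pz.1 ((mem_powersetCard.1 hS).1 hp)).2
  have hpos : ∀ j, ∀ S ∈ (pz z).powersetCard j, 1 ≤ ∏ p ∈ S, p := fun j S hS =>
    Nat.pos_of_ne_zero (prod_ne_zero_iff.2 fun p hp => (hprime j S hS p hp).ne_zero)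
  have hprodD : ∀ j ≤ r, ∀ S ∈ (pz z).powersetCard j, ∏ p ∈ S, p ≤ D := by
    intro j hj S hS
    rw [hD]
    exact prod_le_pow S z r (mem_powersetCard.1 hS).1 ((mem_powersetCard.1 hS).2.trans_le hj)
  have hfilt : ∀ j, ∀ S ∈ (pz z).powersetCard j, (Ioc N N').filter (fun n => ∀ p ∈ S, p ∣ n) =
      (Ioc N N').filter (fun n => ∏ p ∈ S, p ∣ n) := by
    intro j S hS
    apply filter_congr
    intro n _
    exact prod_dvd_iff S (hprime j S hS) n
  -- the error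
  have herr : ∑ n ∈ Ioc N N', (∑ S ∈ (pz z).powersetCard r, χ S n) * ‖EW w c φ n‖ ≤
      3 * (N / w) * Real.exp (3 * (1 + Real.log z) - r) := by
    simp only [sum_mul]
    rw [sum_comm]
    have h4 : ∀ S ∈ (pz z).powersetCard r, ∑ n ∈ Ioc N N', χ S n * ‖EW w c φ n‖ ≤ 3 * (N / w) * ∏ p ∈ S, (1 / (p : ℝ)) := by
      intro S hS
      have h5 : ∑ n ∈ Ioc N N', χ S n * ‖EW w c φ n‖ = ∑ n ∈ (Ioc N N').filter (fun n => ∏ p ∈ S, p ∣ n), ‖EW w c φ n‖ := by
        rw [← hfilt r S hS, sum_filter]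
        apply sum_congr rfl
        intro n _
        rw [hχ]
        show (if ∀ p ∈ S, p ∣ n then (1 : ℝ) else 0) * _ = _
        split_ifs
        · rw [one_mul]
        · rw [zero_mul]
      rw [h5]
      have hdD := hprodD r le_rfl S hS
      have hdDr : ((∏ p ∈ S, p : ℕ) : ℝ) ≤ D := by exact_mod_cast hdD
      refine (count_dvd w c N N' _ φ hw hc (hpos r S hS) hNN' hN' ?_).trans ?_
      · exact le_trans (mul_le_mul_of_nonneg_right hdDr hw0.le) hDw
      · rw [prod_div_distrib, prod_const_one]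
        push_cast
        apply le_of_eq
        have : (∏ p ∈ S, (p : ℝ)) ≠ 0 := prod_ne_zero_iff.2 fun p hp => by exact_mod_cast (hprime r S hS p hp).ne_zero
        field_simp
    refine (sum_le_sum h4).trans ?_
    rw [← mul_sum]
    apply mul_le_mul_of_nonneg_left _ (by positivity)
    have h5 := es_le (x := fun p => 1 / (p : ℝ)) (T := pz z) (fun p _ => by positivity) r
    unfold es at h5
    refine h5.trans ?_
    apply Real.exp_le_exp.2
    have := sum_pz_le z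
    linarith
  -- the main part
  have hmain : ‖∑ n ∈ Ioc N N', (((∑ j ∈ range r, (-1 : ℝ) ^ j * ∑ S ∈ (pz z).powersetCard j, χ S n : ℝ)) : ℂ) *
      EW w c φ n‖ ≤ ∑ d ∈ Icc 1 D, Y d := by
    have h4 : ∑ n ∈ Ioc N N', (((∑ j ∈ range r, (-1 : ℝ) ^ j * ∑ S ∈ (pz z).powersetCard j, χ S n : ℝ)) : ℂ) * EW w c φ n =
        ∑ j ∈ range r, (-1 : ℂ) ^ j * ∑ S ∈ (pz z).powersetCard j, ∑ n ∈ Ioc N N', ((χ S n : ℝ) : ℂ) * EW w c φ n := by
      push_cast
      simp only [sum_mul, mul_sum]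
      rw [sum_comm]
      apply sum_congr rfl
      intro j _
      rw [sum_comm]
      apply sum_congr rfl
      intro S _
      apply sum_congr rfl
      intro n _
      ring
    rw [h4]
    have h5 : ∀ j ∈ range r, ∀ S ∈ (pz z).powersetCard j, ‖∑ n ∈ Ioc N N', ((χ S n : ℝ) : ℂ) * EW w c φ n‖ ≤ Y (∏ p ∈ S, p) := by
      intro j hj S hS
      rw [mem_range] at hj
      have h6 : ∑ n ∈ Ioc N N', ((χ S n : ℝ) : ℂ) * EW w c φ n = ∑ n ∈ (Ioc N N').filter (fun n => ∏ p ∈ S, p ∣ n), EW w c φ n := by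
        rw [← hfilt j S hS, sum_filter]
        apply sum_congr rfl
        intro n _
        rw [hχ]
        show (((if ∀ p ∈ S, p ∣ n then (1 : ℝ) else 0 : ℝ)) : ℂ) * _ = _
        split_ifs
        · push_cast; rw [one_mul]
        · push_cast; rw [zero_mul]
      rw [h6, sum_dvd N N' _ (hpos j S hS)]
      exact hY _ (mem_Icc.2 ⟨hpos j S hS, hprodD j hj.le S hS⟩) c φ N' _ hc hφ hN' le_rfl
    calc ‖∑ j ∈ range r, (-1 : ℂ) ^ j * ∑ S ∈ (pz z).powersetCard j, ∑ n ∈ Ioc N N', ((χ S n : ℝ) : ℂ) * EW w c φ n‖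
        ≤ ∑ j ∈ range r, ∑ S ∈ (pz z).powersetCard j, Y (∏ p ∈ S, p) := by
          refine (norm_sum_le _ _).trans (sum_le_sum fun j hj => ?_)
          rw [norm_mul, norm_pow, norm_neg, norm_one, one_pow, one_mul]
          exact (norm_sum_le _ _).trans (sum_le_sum fun S hS => h5 j hj S hS)
      _ ≤ ∑ j ∈ range (r + 1), ∑ S ∈ (pz z).powersetCard j, Y (∏ p ∈ S, p) := by
          apply sum_le_sum_of_subset_of_nonneg
          · intro j hj
            rw [mem_range] at hj ⊢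
            omega
          · intro j _ _
            exact sum_nonneg fun S _ => hY0 _
      _ ≤ ∑ d ∈ Icc 1 D, Y d := by
          rw [hD]
          exact sum_small_le z r Y hY0
  rw [hS, norm_mul, Complex.norm_real, Real.norm_of_nonneg (inv_pos.2 (Vz_pos z)).le]
  apply mul_le_mul_of_nonneg_left _ (inv_pos.2 (Vz_pos z)).le
  have hsplit : ∑ n ∈ Ioc N N', ((ind n : ℝ) : ℂ) * EW w c φ n =
      ∑ n ∈ Ioc N N', (((∑ j ∈ range r, (-1 : ℝ) ^ j * ∑ S ∈ (pz z).powersetCard j, χ S n : ℝ)) : ℂ) * EW w c φ n +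
      ∑ n ∈ Ioc N N', (((ind n - ∑ j ∈ range r, (-1 : ℝ) ^ j * ∑ S ∈ (pz z).powersetCard j, χ S n : ℝ)) : ℂ) * EW w c φ n := by
    rw [← sum_add_distrib]
    apply sum_congr rfl
    intro n _
    push_cast
    ring
  rw [hsplit]
  have h5 : ‖∑ n ∈ Ioc N N', (((ind n - ∑ j ∈ range r, (-1 : ℝ) ^ j * ∑ S ∈ (pz z).powersetCard j, χ S n : ℝ)) : ℂ) * EW w c φ n‖ ≤
      3 * (N / w) * Real.exp (3 * (1 + Real.log z) - r) := by
    refine (norm_sum_le _ _).trans ?_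
    refine le_trans (sum_le_sum fun n _ => ?_) herr
    rw [norm_mul, Complex.norm_real, Real.norm_eq_abs]
    exact mul_le_mul_of_nonneg_right (hpt n) (norm_nonneg _)
  have h6 : ∑ d ∈ Icc 1 D, Y d ≤ (N : ℝ) / w * (20 * (1 + Real.log N) / u) := by
    refine hYs.trans ?_
    have h7 : Real.log D ≤ Real.log N := Real.log_le_log (by exact_mod_cast hD1) hDN
    calc 20 * (1 + Real.log D) * ((N : ℝ) / (w * u)) ≤ 20 * (1 + Real.log N) * (N / (w * u)) := by gcongr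
      _ = _ := by field_simp
  calc _ ≤ ∑ d ∈ Icc 1 D, Y d + 3 * (N / w) * Real.exp (3 * (1 + Real.log z) - r) :=
        (norm_add_le _ _).trans (add_le_add hmain h5)
    _ ≤ (N : ℝ) / w * (20 * (1 + Real.log N) / u) + 3 * (N / w) * Real.exp (3 * (1 + Real.log z) - r) := by gcongr
    _ = _ := by ring

end Pool.Agent.W5h32.PM
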