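import Mathlib
import Pool.Agent.W5h32.PM.PerW

/-! Polynomial phases along residue classes: the difference of the primes and the model. -/

set_option autoImplicit false

namespace Pool.Agent.W5h32.PM
open Finset
open Pool.Agent.H373R2.NB (Ph IW IW_all vinogradov Ph_poly)
open Pool.Agent.Helper602.MK (ee)
open Pool.Agent.Helper602.MK.N_J5b (ee_add ee_zero ee_conj norm_ee ee_int ee_nat_mul ee_add_int ee_eq)
open Pool.Agent.H373R2.T7 (vaughan_gen pz Vz lamz mem_pz Vz_pos bonf_ind sum_small_le es es_le prod_dvd_iff prod_le_pow sum_pz_le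
  choice ev_L' Vz_inv_small lamz_nonneg)

/-- the difference of the von Mangoldt function and its sieve model -/
noncomputable def Fz (z n : ℕ) : ℝ := ArithmeticFunction.vonMangoldt n - lamz z n

lemma pow_small (δ C : ℝ) (hδ : 0 < δ) (k : ℕ) : ∃ N₀ : ℕ, ∀ N : ℕ, N₀ ≤ N → C * Real.log N ^ k ≤ (N : ℝ) ^ δ := by
  have h1 := isLittleO_log_rpow_rpow_atTop (k : ℝ) hδ
  have h2 := h1.def (c := 1 / (|C| + 1)) (by positivity)
  have h3 := (tendsto_natCast_atTop_atTop (R := ℝ)).eventually h2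
  obtain ⟨N0, h0⟩ := Filter.eventually_atTop.1 h3
  refine ⟨N0 + 1, fun N hN => ?_⟩
  have h4 := h0 N (by omega)
  have hN1 : (1 : ℝ) ≤ N := by exact_mod_cast (by omega : 1 ≤ N)
  have hl := Real.log_natCast_nonneg N
  rw [Real.rpow_natCast, Real.norm_of_nonneg (by positivity), Real.norm_of_nonneg (by positivity), one_div, inv_mul_eq_div,
    le_div_iff₀ (by positivity)] at h4
  have h5 : 0 ≤ Real.log N ^ k := by positivity
  have h6 := le_abs_self C
  nlinarith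

lemma Fz_le (z n x : ℕ) (hn : n ≤ x) (hV : (Vz z)⁻¹ ≤ Real.log x) : |Fz z n| ≤ Real.log x := by
  have h0 : 0 < (Vz z)⁻¹ := inv_pos.2 (Vz_pos z)
  have h1 : 0 ≤ ArithmeticFunction.vonMangoldt n := ArithmeticFunction.vonMangoldt_nonneg
  have h2 : ArithmeticFunction.vonMangoldt n ≤ Real.log x := by
    rcases Nat.eq_zero_or_pos n with h | h
    · subst h
      rw [ArithmeticFunction.map_zero]
      linarith
    · exact ArithmeticFunction.vonMangoldt_le_log.trans (Real.log_le_log (by exact_mod_cast h) (by exact_mod_cast hn))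
  have h3 := lamz_nonneg z n
  have h4 : lamz z n ≤ Real.log x := by
    unfold lamz
    split_ifs
    · exact hV
    · linarith
  unfold Fz
  rw [abs_le]
  constructor <;> linarith

/-- a dyadic block -/
theorem blockF (k : ℕ) (hk : 1 ≤ k) (ε : ℝ) (hε : 0 < ε) (A A2 : ℕ) : ∃ B : ℕ, ∀ E : ℕ, ∃ x0 : ℕ, ∀ x : ℕ, x0 ≤ x →
    ∀ z : ℕ, 1 ≤ z → (z : ℝ) ≤ Real.log x ^ E →
    ∀ (w c N N' : ℕ) (β : ℝ) (φ : ℕ → ℝ), 1 ≤ w → c.Coprime w → Ph k β φ → N ≤ N' → N' ≤ 2 * N → N ≤ x →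
      (x : ℝ) ≤ N * Real.log x ^ A2 → (w : ℝ) ≤ (x : ℝ) ^ (1 / 3 - ε) →
    NI (Real.log x ^ B) (((w : ℝ) ^ 2 / N) ^ k) ((w : ℝ) ^ k * β) ∨
    ‖∑ n ∈ Ioc N N', ((Fz z n : ℝ) : ℂ) * EW w c φ n‖ ≤ N / (w * Real.log x ^ A) := by
  obtain ⟨e1, h1⟩ := perw_lam k hk
  obtain ⟨e2, h2⟩ := perw_lamz k hk
  obtain ⟨b, hb⟩ : ∃ b, b = 2 * (A + 6) := ⟨_, rfl⟩
  refine ⟨b * (e1 + e2), fun E => ?_⟩
  obtain ⟨n1, hV⟩ := Vz_inv_small E
  obtain ⟨n2, hch⟩ := choice 1 E (A + 2) 2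
  obtain ⟨n3, hL⟩ := ev_L' 20000
  obtain ⟨n4, hp1⟩ := pow_small (3 * ε) 1 (by positivity) (b * (e1 + e2) + A2)
  obtain ⟨n5, hp2⟩ := pow_small (1 / 6) 1 (by norm_num) (b * (e1 + e2) + A2)
  refine ⟨max (max (max n1 n2) (max n3 n4)) (max n5 3), fun x hx z hz hzE w c N N' β φ hw hc hφ hNN' hN' hNx hxN hwx => ?_⟩
  have g1 : n1 ≤ x := le_trans (le_trans (le_trans (le_max_left _ _) (le_max_left _ _)) (le_max_left _ _)) hx
  have g2 : n2 ≤ x := le_trans (le_trans (le_trans (le_max_right _ _) (le_max_left _ _)) (le_max_left _ _)) hx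
  have g3 : n3 ≤ x := le_trans (le_trans (le_trans (le_max_left _ _) (le_max_right _ _)) (le_max_left _ _)) hx
  have g4 : n4 ≤ x := le_trans (le_trans (le_trans (le_max_right _ _) (le_max_right _ _)) (le_max_left _ _)) hx
  have g5 : n5 ≤ x := le_trans (le_trans (le_max_left _ _) (le_max_right _ _)) hx
  have g6 : 3 ≤ x := le_trans (le_trans (le_max_right _ _) (le_max_right _ _)) hx
  have hV' := hV x g1 z hz hzE
  obtain ⟨r, hr1, hr2, -⟩ := hch x g2 z hzE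
  have hLx := hL x g3
  have hp1' := hp1 x g4
  have hp2' := hp2 x g5
  rw [one_mul] at hp1' hp2'
  have hx0 : (0 : ℝ) < x := by exact_mod_cast (by omega : 0 < x)
  have hx1 : (1 : ℝ) ≤ x := by exact_mod_cast (by omega : 1 ≤ x)
  obtain ⟨ℓ, hℓ⟩ : ∃ ℓ, ℓ = Real.log x := ⟨_, rfl⟩
  rw [← hℓ] at hV' hr1 hLx hp1' hp2' hxN ⊢
  have hℓ1 : 1 ≤ ℓ := by linarith
  have hℓ0 : 0 < ℓ := by linarith
  obtain ⟨u, hu⟩ : ∃ u, u = ℓ ^ b := ⟨_, rfl⟩
  have hu2 : 2 ≤ u := by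
    rw [hu]
    calc (2 : ℝ) ≤ ℓ := by linarith
      _ = ℓ ^ 1 := (pow_one ℓ).symm
      _ ≤ ℓ ^ b := pow_le_pow_right₀ hℓ1 (by omega)
  have hu1 : 1 ≤ u := by linarith
  have hu0 : 0 < u := by linarith
  have hsu : √u = ℓ ^ (A + 6) := by
    rw [hu, hb, mul_comm, pow_mul, Real.sqrt_sq (by positivity)]
  have hw0 : (0 : ℝ) < w := by exact_mod_cast hw
  have hN0 : (0 : ℝ) < N := by
    rcases Nat.eq_zero_or_pos N with h | h
    · rw [h, Nat.cast_zero, zero_mul] at hxN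
      linarith
    · exact_mod_cast h
  have hN1 : 1 ≤ N := by exact_mod_cast hN0
  have hlogN : Real.log N ≤ ℓ := by rw [hℓ]; exact Real.log_le_log hN0 (by exact_mod_cast hNx)
  have hlog4N : 1 + Real.log (4 * N) ≤ 2 * ℓ := by
    rw [Real.log_mul (by norm_num) hN0.ne']
    have : Real.log 4 ≤ 4 := by
      have := Real.log_le_sub_one_of_pos (show (0 : ℝ) < 4 by norm_num)
      linarith
    linarith
  have hlog4N0 : 0 ≤ 1 + Real.log (4 * N) := by
    have : 0 ≤ Real.log (4 * (N : ℝ)) := Real.log_nonneg (by have : (1 : ℝ) ≤ N := by exact_mod_cast hN1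
                                                             linarith)
    linarith
  have hue : ∀ e : ℕ, e ≤ e1 + e2 → u ^ e * ℓ ^ A2 ≤ ℓ ^ (b * (e1 + e2) + A2) := by
    intro e he
    rw [hu, ← pow_mul, ← pow_add]
    exact pow_le_pow_right₀ hℓ1 (by nlinarith)
  -- sizes
  have hw3 : (w : ℝ) ^ 3 * u ^ e1 ≤ N := by
    have h3 : (w : ℝ) ^ 3 ≤ (x : ℝ) ^ (1 - 3 * ε) := by
      calc (w : ℝ) ^ 3 ≤ ((x : ℝ) ^ (1 / 3 - ε)) ^ 3 := pow_le_pow_left₀ hw0.le hwx 3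
        _ = (x : ℝ) ^ (1 - 3 * ε) := by
            rw [← Real.rpow_natCast, ← Real.rpow_mul hx0.le]
            congr 1
            push_cast
            ring
    have h4 : (w : ℝ) ^ 3 * u ^ e1 * ℓ ^ A2 ≤ N * ℓ ^ A2 := by
      calc (w : ℝ) ^ 3 * u ^ e1 * ℓ ^ A2 = (w : ℝ) ^ 3 * (u ^ e1 * ℓ ^ A2) := by ring
        _ ≤ (x : ℝ) ^ (1 - 3 * ε) * (x : ℝ) ^ (3 * ε) :=
            mul_le_mul h3 ((hue e1 (by omega)).trans hp1') (by positivity) (by positivity)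
        _ = x := by
            rw [← Real.rpow_add hx0]
            norm_num
        _ ≤ _ := hxN
    exact le_of_mul_le_mul_right h4 (by positivity)
  have hwz : ((z : ℝ) + 1) ^ r * w * u ^ e2 ≤ N := by
    have h3 : ((z : ℝ) + 1) ^ r ≤ (x : ℝ) ^ (1 / 2 : ℝ) := by
      rw [← Real.sqrt_eq_rpow, ← Real.sqrt_sq (by positivity : (0 : ℝ) ≤ ((z : ℝ) + 1) ^ r)]
      exact Real.sqrt_le_sqrt hr2
    have h5 : (w : ℝ) ≤ (x : ℝ) ^ (1 / 3 : ℝ) := hwx.trans (Real.rpow_le_rpow_of_exponent_le hx1 (by linarith))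
    have h4 : ((z : ℝ) + 1) ^ r * w * u ^ e2 * ℓ ^ A2 ≤ N * ℓ ^ A2 := by
      calc ((z : ℝ) + 1) ^ r * w * u ^ e2 * ℓ ^ A2 = (((z : ℝ) + 1) ^ r * w) * (u ^ e2 * ℓ ^ A2) := by ring
        _ ≤ ((x : ℝ) ^ (1 / 2 : ℝ) * (x : ℝ) ^ (1 / 3 : ℝ)) * (x : ℝ) ^ (1 / 6 : ℝ) :=
            mul_le_mul (mul_le_mul h3 h5 hw0.le (by positivity)) ((hue e2 (by omega)).trans hp2') (by positivity) (by positivity)
        _ = x := by
            rw [← Real.rpow_add hx0, ← Real.rpow_add hx0]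
            norm_num
        _ ≤ _ := hxN
    exact le_of_mul_le_mul_right h4 (by positivity)
  by_cases hNI : NI (ℓ ^ (b * (e1 + e2))) (((w : ℝ) ^ 2 / N) ^ k) ((w : ℝ) ^ k * β)
  · exact Or.inl hNI
  right
  have hmono : ∀ e, e ≤ e1 + e2 → NI (u ^ e) (((w : ℝ) ^ 2 / N) ^ k) ((w : ℝ) ^ k * β) → False := by
    intro e he h3
    apply hNI
    have h4 : u ^ e ≤ ℓ ^ (b * (e1 + e2)) := by
      rw [hu, ← pow_mul]
      exact pow_le_pow_right₀ hℓ1 (Nat.mul_le_mul_left _ he)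
    exact NI_mono h3 h4 (mul_le_mul_of_nonneg_right h4 (by positivity))
  have r1 := (h1 u w c N N' β φ hu2 hw hc hφ hNN' hN' hw3).resolve_left (hmono e1 (by omega))
  have r2 := (h2 u w c N N' z r β φ hu2 hw hc hφ hNN' hN' hwz).resolve_left (hmono e2 (by omega))
  have hsplit : ∑ n ∈ Ioc N N', ((Fz z n : ℝ) : ℂ) * EW w c φ n =
      ∑ n ∈ Ioc N N', ((ArithmeticFunction.vonMangoldt n : ℝ) : ℂ) * EW w c φ n - ∑ n ∈ Ioc N N', ((lamz z n : ℝ) : ℂ) * EW w c φ n := by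
    rw [← sum_sub_distrib]
    apply sum_congr rfl
    intro n _
    unfold Fz
    push_cast
    ring
  rw [hsplit]
  refine (norm_sub_le _ _).trans ?_
  have hA : 0 < ℓ ^ A := by positivity
  have hP : 0 < (N : ℝ) / (w * ℓ ^ A) := by positivity
  have s1 : 120 * (1 + Real.log (4 * N)) ^ 5 * ((N : ℝ) / (w * √u)) ≤ 1 / 2 * (N / (w * ℓ ^ A)) := by
    rw [hsu]
    calc 120 * (1 + Real.log (4 * N)) ^ 5 * ((N : ℝ) / (w * ℓ ^ (A + 6))) ≤ 120 * (2 * ℓ) ^ 5 * (N / (w * ℓ ^ (A + 6))) := by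
          gcongr
      _ = 3840 / ℓ * (N / (w * ℓ ^ A)) := by
          rw [pow_add]
          field_simp
          ring
      _ ≤ _ := by
          apply mul_le_mul_of_nonneg_right _ hP.le
          rw [div_le_iff₀ hℓ0]
          linarith
  have s2 : (Vz z)⁻¹ * ((N : ℝ) / w * (20 * (1 + Real.log N) / u + 3 * Real.exp (3 * (1 + Real.log z) - r))) ≤
      1 / 2 * (N / (w * ℓ ^ A)) := by
    have hr1' : Real.exp (3 * (1 + Real.log z) - r) ≤ 1 / ℓ ^ (A + 2) := by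
      refine le_trans (le_of_eq ?_) hr1
      push_cast
      ring_nf
    have hV0 : 0 < (Vz z)⁻¹ := inv_pos.2 (Vz_pos z)
    have t1 : 20 * (1 + Real.log N) / u ≤ 40 / ℓ ^ (A + 2) := by
      rw [hu, hb, div_le_div_iff₀ (by positivity) (by positivity)]
      have t2 : (20 : ℝ) * (1 + Real.log N) ≤ 40 * ℓ := by linarith
      calc 20 * (1 + Real.log N) * ℓ ^ (A + 2) ≤ 40 * ℓ * ℓ ^ (A + 2) := by gcongr
        _ = 40 * ℓ ^ (A + 3) := by ring
        _ ≤ 40 * ℓ ^ (2 * (A + 6)) := by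
            apply mul_le_mul_of_nonneg_left _ (by norm_num)
            exact pow_le_pow_right₀ hℓ1 (by omega)
    calc (Vz z)⁻¹ * ((N : ℝ) / w * (20 * (1 + Real.log N) / u + 3 * Real.exp (3 * (1 + Real.log z) - r)))
        ≤ ℓ * ((N : ℝ) / w * (40 / ℓ ^ (A + 2) + 3 * (1 / ℓ ^ (A + 2)))) := by
          have t3 : 0 ≤ 20 * (1 + Real.log N) / u := by
            have : 0 ≤ Real.log N := Real.log_natCast_nonneg N
            positivity
          gcongr
      _ = 43 / ℓ * (N / (w * ℓ ^ A)) := by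
          rw [pow_add]
          field_simp
          ring
      _ ≤ _ := by
          apply mul_le_mul_of_nonneg_right _ hP.le
          rw [div_le_iff₀ hℓ0]
          linarith
  calc _ ≤ 1 / 2 * ((N : ℝ) / (w * ℓ ^ A)) + 1 / 2 * (N / (w * ℓ ^ A)) := add_le_add (r1.trans s1) (r2.trans s2)
    _ = _ := by ring

/-- from dyadic blocks to intervals -/
lemma dyadic (G : ℕ → ℂ) (M0 X : ℕ) (b : ℝ) (hb : 0 ≤ b)
    (h : ∀ N N', M0 ≤ N → N ≤ N' → N' ≤ 2 * N → N' ≤ X → ‖∑ n ∈ Ioc N N', G n‖ ≤ b) :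
    ∀ j A B : ℕ, M0 ≤ A → B ≤ X → B ≤ 2 ^ j * A → ‖∑ n ∈ Ioc A B, G n‖ ≤ j * b := by
  intro j
  induction j with
  | zero =>
    intro A B _ _ hB
    rw [pow_zero, one_mul] at hB
    rw [Ioc_eq_empty_of_le hB, sum_empty, norm_zero]
    simp
  | succ j ih =>
    intro A B hA hX hB
    push_cast
    rcases le_or_gt B (2 * A) with h1 | h1
    · rcases le_or_gt A B with h2 | h2
      · have := h A B hA h2 h1 hX
        have h3 : (0 : ℝ) ≤ j * b := by positivity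
        linarith
      · rw [Ioc_eq_empty_of_le h2.le, sum_empty, norm_zero]
        positivity
    · have h2 : ∑ n ∈ Ioc A B, G n = ∑ n ∈ Ioc A (2 * A), G n + ∑ n ∈ Ioc (2 * A) B, G n :=
        (sum_Ioc_consecutive _ (by omega) h1.le).symm
      rw [h2]
      have h3 := h A (2 * A) hA (by omega) le_rfl (by omega)
      have h4 := ih (2 * A) B (by omega) hX (by rw [pow_succ] at hB; linarith)
      refine (norm_add_le _ _).trans ?_
      linarith

end Pool.Agent.W5h32.PM
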