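import Mathlib
import Pool.Agent.W5h32.PM.Block

/-! Polynomial phases: many large sums make the leading coefficient close to a rational number with a small denominator. -/

set_option autoImplicit false

namespace Pool.Agent.W5h32.PM
open Finset
open Pool.Agent.H373R2.NB (Ph IW IW_all vinogradov Ph_poly)
open Pool.Agent.Helper602.MK (ee)
open Pool.Agent.Helper602.MK.N_J5b (ee_add ee_zero ee_conj norm_ee ee_int ee_nat_mul ee_add_int ee_eq)
open Pool.Agent.H373R2.T7 (vaughan_gen pz Vz lamz mem_pz Vz_pos bonf_ind sum_small_le es es_le prod_dvd_iff prod_le_pow sum_pz_le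
  choice ev_L' Vz_inv_small lamz_nonneg)

lemma sum_EW (w c A B : ℕ) (φ : ℕ → ℝ) (hw : 1 ≤ w) : ∑ n ∈ Ioc A B, ‖EW w c φ n‖ ≤ ((B - A : ℕ) : ℝ) / w + 1 := by
  have hw0 : (0 : ℝ) < w := by exact_mod_cast hw
  rcases le_or_gt A B with h | h
  · obtain ⟨l1, n, hn, -, -, hset⟩ := ap_param w c A B hw h
    have h1 : ∑ n ∈ Ioc A B, ‖EW w c φ n‖ ≤ (((Ioc A B).filter (fun l => l % w = c % w)).card : ℝ) := by
      rw [card_eq_sum_ones]
      push_cast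
      rw [sum_filter]
      apply sum_le_sum
      intro i _
      unfold EW
      split_ifs
      · rw [norm_ee]
      · rw [norm_zero]
    have h2 : (((Ioc A B).filter (fun l => l % w = c % w)).card : ℝ) ≤ n := by
      rw [hset]
      have := card_image_le (s := range n) (f := fun s => l1 + w * s)
      rw [card_range] at this
      exact_mod_cast this
    rw [Nat.cast_sub h]
    linarith
  · rw [Ioc_eq_empty_of_le h.le, sum_empty]
    positivity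

lemma triv (z x w c A B : ℕ) (φ : ℕ → ℝ) (hw : 1 ≤ w) (hV : (Vz z)⁻¹ ≤ Real.log x) (hB : B ≤ x) :
    ‖∑ n ∈ Ioc A B, ((Fz z n : ℝ) : ℂ) * EW w c φ n‖ ≤ (((B - A : ℕ) : ℝ) / w + 1) * Real.log x := by
  have hL : 0 ≤ Real.log x := Real.log_natCast_nonneg x
  calc ‖∑ n ∈ Ioc A B, ((Fz z n : ℝ) : ℂ) * EW w c φ n‖ ≤ ∑ n ∈ Ioc A B, ‖EW w c φ n‖ * Real.log x := by
        refine (norm_sum_le _ _).trans (sum_le_sum fun n hn => ?_)
        rw [norm_mul, Complex.norm_real, Real.norm_eq_abs, mul_comm]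
        apply mul_le_mul_of_nonneg_left _ (norm_nonneg _)
        exact Fz_le z n x ((mem_Ioc.1 hn).2.trans hB) hV
    _ = (∑ n ∈ Ioc A B, ‖EW w c φ n‖) * Real.log x := by rw [sum_mul]
    _ ≤ _ := mul_le_mul_of_nonneg_right (sum_EW w c A B φ hw) hL

theorem nonmaj (k : ℕ) (hk : 1 ≤ k) (ε : ℝ) (hε : 0 < ε) (A : ℕ) : ∃ B : ℕ, ∀ E : ℕ, ∃ x0 : ℕ, ∀ x : ℕ, x0 ≤ x →
    ∀ z : ℕ, 1 ≤ z → (z : ℝ) ≤ Real.log x ^ E →
    ∀ (a Q : ℕ) (β : ℝ), (x : ℝ) ^ (2 / 3 + ε) ≤ Q → (Q : ℝ) ≤ (x : ℝ) ^ (1 - ε) →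
    ∀ (Al Bl : ℕ → ℕ) (φ : ℕ → ℕ → ℝ), (∀ l ∈ Icc 1 (x / Q), Ph k β (φ l) ∧ Bl l ≤ x ∧ Bl l ≤ Al l + Q * l) →
    NI (Real.log x ^ B) ((1 / (Q : ℝ)) ^ k) β ∨
    ∑ l ∈ (Icc 1 (x / Q)).filter (fun l => a.Coprime l), ‖∑ n ∈ Ioc (Al l) (Bl l), ((Fz z n : ℝ) : ℂ) * EW l a (φ l) n‖ ≤
      x / Real.log x ^ A := by
  obtain ⟨A2, hA2⟩ : ∃ A2, A2 = 2 * A + 4 := ⟨_, rfl⟩
  obtain ⟨B1, hblock⟩ := blockF k hk ε hε A2 A2
  obtain ⟨m, hrec⟩ := rec2 k hk
  obtain ⟨B2, hB2⟩ : ∃ B2, B2 = B1 + A + 2 := ⟨_, rfl⟩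
  refine ⟨k.factorial + B2 * m + A2 * k, fun E => ?_⟩
  obtain ⟨n0, h0⟩ := hblock E
  obtain ⟨n1, hV⟩ := Vz_inv_small E
  obtain ⟨n3, hL⟩ := ev_L' 20000
  obtain ⟨n4, hp1⟩ := pow_small (1 / 3) 1 (by norm_num) (A2 + B2 * m)
  obtain ⟨n5, hp2⟩ := pow_small ε 1 hε (B2 * m + 1)
  obtain ⟨n6, hp3⟩ := pow_small (2 / 3) 1 (by norm_num) (A2 + 2)
  refine ⟨max (max (max n0 n1) (max n3 n4)) (max (max n5 n6) 3), fun x hx z hz hzE a Q β hQ1 hQ2 Al Bl φ hAB => ?_⟩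
  have g0 : n0 ≤ x := le_trans (le_trans (le_trans (le_max_left _ _) (le_max_left _ _)) (le_max_left _ _)) hx
  have g1 : n1 ≤ x := le_trans (le_trans (le_trans (le_max_right _ _) (le_max_left _ _)) (le_max_left _ _)) hx
  have g3 : n3 ≤ x := le_trans (le_trans (le_trans (le_max_left _ _) (le_max_right _ _)) (le_max_left _ _)) hx
  have g4 : n4 ≤ x := le_trans (le_trans (le_trans (le_max_right _ _) (le_max_right _ _)) (le_max_left _ _)) hx
  have g5 : n5 ≤ x := le_trans (le_trans (le_trans (le_max_left _ _) (le_max_left _ _)) (le_max_right _ _)) hx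
  have g6 : n6 ≤ x := le_trans (le_trans (le_trans (le_max_right _ _) (le_max_left _ _)) (le_max_right _ _)) hx
  have g7 : 3 ≤ x := le_trans (le_trans (le_max_right _ _) (le_max_right _ _)) hx
  have h0' := h0 x g0 z hz hzE
  have hV' := hV x g1 z hz hzE
  have hLx := hL x g3
  have hp1' := hp1 x g4
  have hp2' := hp2 x g5
  have hp3' := hp3 x g6
  rw [one_mul] at hp1' hp2' hp3'
  have hx0 : (0 : ℝ) < x := by exact_mod_cast (by omega : 0 < x)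
  have hx1 : (1 : ℝ) ≤ x := by exact_mod_cast (by omega : 1 ≤ x)
  have htriv := fun (w : ℕ) (hw : 1 ≤ w) (A' B' : ℕ) (φ' : ℕ → ℝ) (hB' : B' ≤ x) => triv z x w a A' B' φ' hw hV' hB'
  have hlog2 := log2_le' x (by omega)
  obtain ⟨ℓ, hℓ⟩ : ∃ ℓ, ℓ = Real.log x := ⟨_, rfl⟩
  rw [← hℓ] at hV' hLx hp1' hp2' hp3' hlog2 ⊢
  simp only [← hℓ] at h0' htriv
  have hℓ1 : 1 ≤ ℓ := by linarith
  have hℓ0 : 0 < ℓ := by linarith
  have hℓp : ∀ i j : ℕ, i ≤ j → ℓ ^ i ≤ ℓ ^ j := fun i j h => pow_le_pow_right₀ hℓ1 h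
  -- the number of the complementary divisors
  obtain ⟨L, hLd⟩ : ∃ L, L = x / Q := ⟨_, rfl⟩
  rw [← hLd] at hAB ⊢
  have hQx : (1 : ℝ) ≤ Q := le_trans (Real.one_le_rpow hx1 (by positivity)) hQ1
  have hQ0 : (0 : ℝ) < Q := by linarith
  have hQn : 1 ≤ Q := by exact_mod_cast hQx
  have hL1 : (L : ℝ) * Q ≤ x := by
    have : L * Q ≤ x := by rw [hLd]; exact Nat.div_mul_le_self x Q
    exact_mod_cast this
  have hL2 : (x : ℝ) < (L + 1) * Q := by
    have := Nat.lt_div_mul_add (a := x) (b := Q) hQn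
    rw [← hLd] at this
    have h2 : (x : ℝ) < ((L * Q + Q : ℕ) : ℝ) := by exact_mod_cast this
    push_cast at h2
    linarith
  have hxeps : (x : ℝ) ^ ε ≤ L + 1 := by
    have h2 : (x : ℝ) ^ ε * Q ≤ (L + 1) * Q := by
      calc (x : ℝ) ^ ε * Q ≤ (x : ℝ) ^ ε * (x : ℝ) ^ (1 - ε) := by gcongr
        _ = x := by rw [← Real.rpow_add hx0]; norm_num
        _ ≤ _ := hL2.le
    exact le_of_mul_le_mul_right h2 hQ0
  have hLbig : ℓ ^ (B2 * m + 1) ≤ L + 1 := hp2'.trans hxeps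
  have hL1n : 1 ≤ L := by
    have h2 : (2 : ℝ) ≤ L + 1 := by
      refine le_trans ?_ hLbig
      calc (2 : ℝ) ≤ ℓ := by linarith
        _ = ℓ ^ 1 := (pow_one ℓ).symm
        _ ≤ _ := hℓp _ _ (by omega)
    have h3 : (1 : ℝ) ≤ L := by linarith
    exact_mod_cast h3
  have hLr1 : (1 : ℝ) ≤ L := by exact_mod_cast hL1n
  have hL0 : (0 : ℝ) < L := by linarith
  have hLpow : (L : ℝ) ≤ (x : ℝ) ^ (1 / 3 - ε) := by
    have h2 : (L : ℝ) * Q ≤ (x : ℝ) ^ (1 / 3 - ε) * Q := by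
      calc (L : ℝ) * Q ≤ x := hL1
        _ = (x : ℝ) ^ (1 / 3 - ε) * (x : ℝ) ^ (2 / 3 + ε) := by
            rw [← Real.rpow_add hx0, show 1 / 3 - ε + (2 / 3 + ε) = 1 by ring, Real.rpow_one]
        _ ≤ _ := by gcongr
    exact le_of_mul_le_mul_right h2 hQ0
  have hQbig : ℓ ^ (A2 + 2) ≤ Q := by
    refine hp3'.trans (le_trans ?_ hQ1)
    exact Real.rpow_le_rpow_of_exponent_le hx1 (by linarith)
  classical
  by_cases hfin : ∑ l ∈ (Icc 1 L).filter (fun l => a.Coprime l), ‖∑ n ∈ Ioc (Al l) (Bl l), ((Fz z n : ℝ) : ℂ) * EW l a (φ l) n‖ ≤ x / ℓ ^ A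
  · exact Or.inr hfin
  left
  push Not at hfin
  set S : ℕ → ℝ := fun l => ‖∑ n ∈ Ioc (Al l) (Bl l), ((Fz z n : ℝ) : ℂ) * EW l a (φ l) n‖ with hS
  have hStriv : ∀ l ∈ Icc 1 L, S l ≤ 2 * Q * ℓ := by
    intro l hl
    obtain ⟨-, hb1, hb2⟩ := hAB l hl
    rw [mem_Icc] at hl
    refine (htriv l hl.1 _ _ (φ l) hb1).trans ?_
    apply mul_le_mul_of_nonneg_right _ hℓ0.le
    have hl0 : (0 : ℝ) < l := by exact_mod_cast hl.1
    have h2 : ((Bl l - Al l : ℕ) : ℝ) ≤ Q * l := by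
      have : Bl l - Al l ≤ Q * l := by omega
      exact_mod_cast this
    have h3 : ((Bl l - Al l : ℕ) : ℝ) / l ≤ Q := by rw [div_le_iff₀ hl0]; exact h2
    linarith
  -- the bad divisors
  obtain ⟨b, hb⟩ : ∃ b, b = (Icc 1 L).filter (fun l => a.Coprime l ∧ (Q : ℝ) / (4 * ℓ ^ A) < S l) := ⟨_, rfl⟩
  have hbcard : (L : ℝ) ≤ 4 * ℓ ^ (A + 1) * b.card := by
    have h2 : ∑ l ∈ (Icc 1 L).filter (fun l => a.Coprime l), S l ≤ b.card * (2 * Q * ℓ) + L * (Q / (4 * ℓ ^ A)) := by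
      have h3 : ∀ l ∈ (Icc 1 L).filter (fun l => a.Coprime l), S l ≤
          (if (Q : ℝ) / (4 * ℓ ^ A) < S l then 2 * Q * ℓ else 0) + Q / (4 * ℓ ^ A) := by
        intro l hl
        rw [mem_filter] at hl
        have h4 : 0 ≤ (Q : ℝ) / (4 * ℓ ^ A) := by positivity
        split_ifs with h5
        · have := hStriv l hl.1
          linarith
        · push Not at h5
          linarith
      refine (sum_le_sum h3).trans ?_
      rw [sum_add_distrib, ← sum_filter, sum_const, sum_const, nsmul_eq_mul, nsmul_eq_mul, filter_filter, ← hb]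
      apply add_le_add le_rfl
      apply mul_le_mul_of_nonneg_right _ (by positivity)
      have : ((Icc 1 L).filter (fun l => a.Coprime l)).card ≤ L := by
        refine (card_filter_le _ _).trans ?_
        simp
      exact_mod_cast this
    have h3 : (L : ℝ) * (Q / (4 * ℓ ^ A)) ≤ x / ℓ ^ A / 4 := by
      have : (L : ℝ) * (Q / (4 * ℓ ^ A)) = (L * Q) / ℓ ^ A / 4 := by field_simp
      rw [this]
      gcongr
    have h4 : x / ℓ ^ A / 2 ≤ b.card * (2 * Q * ℓ) := by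
      have : 0 ≤ (x : ℝ) / ℓ ^ A := by positivity
      linarith
    have h5 : (L : ℝ) * Q / ℓ ^ A / 2 ≤ b.card * (2 * Q * ℓ) := by
      refine le_trans ?_ h4
      gcongr
    have h6 : (L : ℝ) * Q / ℓ ^ A / 2 = L * (Q / (2 * ℓ ^ A)) := by field_simp
    have h7 : (b.card : ℝ) * (2 * Q * ℓ) = (4 * ℓ ^ (A + 1) * b.card) * (Q / (2 * ℓ ^ A)) := by
      rw [pow_succ]
      field_simp
      ring
    rw [h6, h7] at h5
    exact le_of_mul_le_mul_right h5 (by positivity)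
  obtain ⟨b', hb'⟩ : ∃ b', b' = b.filter (fun l : ℕ => (L : ℝ) < 8 * ℓ ^ (A + 1) * l) := ⟨_, rfl⟩
  have hb'card : (L : ℝ) ≤ 8 * ℓ ^ (A + 1) * b'.card := by
    have h2 : b.card ≤ b'.card + (b.filter (fun l : ℕ => ¬ (L : ℝ) < 8 * ℓ ^ (A + 1) * l)).card := by
      rw [hb', card_filter_add_card_filter_not]
    have h3 : ((b.filter (fun l : ℕ => ¬ (L : ℝ) < 8 * ℓ ^ (A + 1) * l)).card : ℝ) ≤ L / (8 * ℓ ^ (A + 1)) := by
      have h4 : b.filter (fun l : ℕ => ¬ (L : ℝ) < 8 * ℓ ^ (A + 1) * l) ⊆ Icc 1 ⌊(L : ℝ) / (8 * ℓ ^ (A + 1))⌋₊ := by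
        intro l hl
        rw [mem_filter, hb, mem_filter, mem_Icc] at hl
        rw [mem_Icc]
        refine ⟨hl.1.1.1, Nat.le_floor ?_⟩
        rw [le_div_iff₀ (by positivity)]
        have := hl.2
        push Not at this
        linarith
      have h5 := card_le_card h4
      rw [Nat.card_Icc, Nat.add_sub_cancel] at h5
      exact (Nat.cast_le.2 h5).trans (Nat.floor_le (by positivity))
    have h4 : (b.card : ℝ) ≤ b'.card + L / (8 * ℓ ^ (A + 1)) := by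
      have : (b.card : ℝ) ≤ b'.card + ((b.filter (fun l : ℕ => ¬ (L : ℝ) < 8 * ℓ ^ (A + 1) * l)).card : ℝ) := by exact_mod_cast h2
      linarith
    have h5 : (L : ℝ) ≤ 4 * ℓ ^ (A + 1) * (b'.card + L / (8 * ℓ ^ (A + 1))) := by
      refine hbcard.trans ?_
      gcongr
    have h6 : 4 * ℓ ^ (A + 1) * (b'.card + (L : ℝ) / (8 * ℓ ^ (A + 1))) = 4 * ℓ ^ (A + 1) * b'.card + L / 2 := by
      field_simp
      ring
    rw [h6] at h5
    linarith
  -- every bad divisor gives an approximation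
  have hbad : ∀ l ∈ b', NI (ℓ ^ B1) (((L : ℝ) ^ 2 * ℓ ^ A2 / x) ^ k) ((l : ℝ) ^ k * β) := by
    intro l hl
    rw [hb', mem_filter, hb, mem_filter] at hl
    obtain ⟨⟨hlI, hla, hlS⟩, hlL⟩ := hl
    obtain ⟨hφ, hb1, hb2⟩ := hAB l hlI
    rw [mem_Icc] at hlI
    have hl0 : (0 : ℝ) < l := by exact_mod_cast hlI.1
    have hlLr : (l : ℝ) ≤ L := by exact_mod_cast hlI.2
    by_contra hcon
    have hdy := dyadic (fun n => ((Fz z n : ℝ) : ℂ) * EW l a (φ l) n) ⌈(x : ℝ) / ℓ ^ A2⌉₊ x (x / (l * ℓ ^ A2)) (by positivity) (by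
      intro N N' hN hNN' hN' hN'x
      have hxN : (x : ℝ) ≤ N * ℓ ^ A2 := by
        have h2 : (x : ℝ) / ℓ ^ A2 ≤ N := (Nat.le_ceil _).trans (by exact_mod_cast hN)
        rw [div_le_iff₀ (by positivity)] at h2
        exact h2
      have hNx : N ≤ x := hNN'.trans hN'x
      have hN0 : (0 : ℝ) < N := by
        by_contra h3
        push Not at h3
        have : (N : ℝ) * ℓ ^ A2 ≤ 0 := mul_nonpos_of_nonpos_of_nonneg h3 (by positivity)
        linarith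
      rcases h0' l a N N' β (φ l) hlI.1 hla hφ hNN' hN' hNx hxN (hlLr.trans hLpow) with h3 | h3
      · exfalso
        apply hcon
        apply NI_mono h3 le_rfl
        apply mul_le_mul_of_nonneg_left _ (by positivity)
        apply pow_le_pow_left₀ (by positivity)
        rw [div_le_div_iff₀ hN0 hx0]
        calc (l : ℝ) ^ 2 * x ≤ L ^ 2 * (N * ℓ ^ A2) := by gcongr
          _ = _ := by ring
      · refine h3.trans ?_
        have : (N : ℝ) ≤ x := by exact_mod_cast hNx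
        gcongr)
    set M0 := ⌈(x : ℝ) / ℓ ^ A2⌉₊ with hM0
    have hxA2 : 0 < (x : ℝ) / ℓ ^ A2 := by positivity
    have hM01 : 1 ≤ M0 := Nat.ceil_pos.2 hxA2
    have hM0up : (M0 : ℝ) ≤ x / ℓ ^ A2 + 1 := (Nat.ceil_lt_add_one hxA2.le).le
    -- the bound for the sum
    set j := Nat.log 2 x + 1 with hj
    have hj2 : x < 2 ^ j := Nat.lt_pow_succ_log_self (by norm_num) _
    have hjr : (j : ℝ) ≤ 3 * ℓ := by rw [hj]; push_cast; linarith
    have hSl : S l ≤ ((M0 : ℝ) / l + 1) * ℓ + j * (x / (l * ℓ ^ A2)) := by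
      have hpos1 : 0 ≤ ((M0 : ℝ) / l + 1) * ℓ := by positivity
      have hpos2 : 0 ≤ (j : ℝ) * (x / (l * ℓ ^ A2)) := by positivity
      rcases le_or_gt M0 (Al l) with h2 | h2
      · have h3 := hdy j (Al l) (Bl l) h2 hb1 (by
          have : 2 ^ j ≤ 2 ^ j * Al l := Nat.le_mul_of_pos_right _ (by omega)
          omega)
        have h4 : S l = ‖∑ n ∈ Ioc (Al l) (Bl l), ((Fz z n : ℝ) : ℂ) * EW l a (φ l) n‖ := rfl
        rw [h4]
        linarith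
      · rcases le_or_gt (Bl l) M0 with h3 | h3
        · have h4 := htriv l hlI.1 (Al l) (Bl l) (φ l) hb1
          have h5 : (((Bl l - Al l : ℕ) : ℝ) / l + 1) * ℓ ≤ ((M0 : ℝ) / l + 1) * ℓ := by
            have : ((Bl l - Al l : ℕ) : ℝ) ≤ M0 := by exact_mod_cast (by omega : Bl l - Al l ≤ M0)
            gcongr
          have h6 : S l = ‖∑ n ∈ Ioc (Al l) (Bl l), ((Fz z n : ℝ) : ℂ) * EW l a (φ l) n‖ := rfl
          rw [h6]
          linarith
        · have h4 := htriv l hlI.1 (Al l) M0 (φ l) (by omega)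
          have h5 : (((M0 - Al l : ℕ) : ℝ) / l + 1) * ℓ ≤ ((M0 : ℝ) / l + 1) * ℓ := by
            have : ((M0 - Al l : ℕ) : ℝ) ≤ M0 := by exact_mod_cast (by omega : M0 - Al l ≤ M0)
            gcongr
          have h6 := hdy j M0 (Bl l) le_rfl hb1 (by
            have : 2 ^ j ≤ 2 ^ j * M0 := Nat.le_mul_of_pos_right _ (by omega)
            omega)
          have h7 : ∑ n ∈ Ioc (Al l) (Bl l), ((Fz z n : ℝ) : ℂ) * EW l a (φ l) n =
              ∑ n ∈ Ioc (Al l) M0, ((Fz z n : ℝ) : ℂ) * EW l a (φ l) n + ∑ n ∈ Ioc M0 (Bl l), ((Fz z n : ℝ) : ℂ) * EW l a (φ l) n :=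
            (sum_Ioc_consecutive _ h2.le h3.le).symm
          have h8 : S l ≤ ‖∑ n ∈ Ioc (Al l) M0, ((Fz z n : ℝ) : ℂ) * EW l a (φ l) n‖ +
              ‖∑ n ∈ Ioc M0 (Bl l), ((Fz z n : ℝ) : ℂ) * EW l a (φ l) n‖ := by
            rw [hS]
            show ‖∑ n ∈ Ioc (Al l) (Bl l), ((Fz z n : ℝ) : ℂ) * EW l a (φ l) n‖ ≤ _
            rw [h7]
            exact norm_add_le _ _
          linarith
    have hxl : (x : ℝ) / l ≤ 16 * Q * ℓ ^ (A + 1) := by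
      rw [div_le_iff₀ hl0]
      calc (x : ℝ) ≤ (L + 1) * Q := hL2.le
        _ ≤ (2 * L) * Q := by gcongr; linarith
        _ ≤ (2 * (8 * ℓ ^ (A + 1) * l)) * Q := by gcongr
        _ = _ := by ring
    have hfinal : ((M0 : ℝ) / l + 1) * ℓ + j * (x / (l * ℓ ^ A2)) ≤ Q / (4 * ℓ ^ A) := by
      have hl1 : (1 : ℝ) ≤ l := by exact_mod_cast hlI.1
      have t1 : ((M0 : ℝ) / l + 1) * ℓ ≤ (x / l) * ℓ / ℓ ^ A2 + 2 * ℓ := by
        calc ((M0 : ℝ) / l + 1) * ℓ ≤ ((x / ℓ ^ A2 + 1) / l + 1) * ℓ := by gcongr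
          _ = (x / l) * ℓ / ℓ ^ A2 + (1 / l + 1) * ℓ := by field_simp; ring
          _ ≤ _ := by
              have : 1 / (l : ℝ) ≤ 1 := by rw [div_le_one hl0]; exact hl1
              nlinarith
      have t2 : (j : ℝ) * (x / (l * ℓ ^ A2)) ≤ 3 * ((x / l) * ℓ / ℓ ^ A2) := by
        calc (j : ℝ) * (x / (l * ℓ ^ A2)) ≤ (3 * ℓ) * (x / (l * ℓ ^ A2)) := by gcongr
          _ = _ := by field_simp
      have t3 : (x / l : ℝ) * ℓ / ℓ ^ A2 ≤ 16 * Q / ℓ ^ (A + 2) := by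
        calc (x / l : ℝ) * ℓ / ℓ ^ A2 ≤ (16 * Q * ℓ ^ (A + 1)) * ℓ / ℓ ^ A2 := by gcongr
          _ = 16 * Q / ℓ ^ (A + 2) := by
              rw [hA2, show 2 * A + 4 = (A + 2) + (A + 2) by ring, pow_add ℓ (A + 2) (A + 2), pow_succ ℓ (A + 1)]
              field_simp
      have t4 : 2 * ℓ ≤ 2 * Q / ℓ ^ (A + 2) := by
        rw [le_div_iff₀ (by positivity)]
        have : ℓ * ℓ ^ (A + 2) ≤ Q := by
          calc ℓ * ℓ ^ (A + 2) = ℓ ^ (A + 3) := by ring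
            _ ≤ ℓ ^ (A2 + 2) := hℓp _ _ (by omega)
            _ ≤ Q := hQbig
        linarith
      have t5 : 66 * (Q / ℓ ^ (A + 2)) ≤ Q / (4 * ℓ ^ A) := by
        have h9 : (Q : ℝ) / (4 * ℓ ^ A) = (ℓ ^ 2 / 4) * (Q / ℓ ^ (A + 2)) := by
          rw [pow_add]; field_simp
        rw [h9]
        apply mul_le_mul_of_nonneg_right _ (by positivity)
        nlinarith
      have t6 : 16 * (Q : ℝ) / ℓ ^ (A + 2) = 16 * (Q / ℓ ^ (A + 2)) := by ring
      have t7 : 2 * (Q : ℝ) / ℓ ^ (A + 2) = 2 * (Q / ℓ ^ (A + 2)) := by ring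
      rw [t6] at t3
      rw [t7] at t4
      linarith
    linarith
  -- recurrence
  have hLx1 : (L : ℝ) ^ 2 * ℓ ^ A2 / x * ℓ ^ (B2 * m) ≤ 1 := by
    rw [div_mul_eq_mul_div, div_le_one hx0]
    have h2 : (L : ℝ) ≤ (x : ℝ) ^ (1 / 3 : ℝ) := hLpow.trans (Real.rpow_le_rpow_of_exponent_le hx1 (by linarith))
    calc (L : ℝ) ^ 2 * ℓ ^ A2 * ℓ ^ (B2 * m) = (L * L) * ℓ ^ (A2 + B2 * m) := by rw [pow_add]; ring
      _ ≤ ((x : ℝ) ^ (1 / 3 : ℝ) * (x : ℝ) ^ (1 / 3 : ℝ)) * (x : ℝ) ^ (1 / 3 : ℝ) := by gcongr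
      _ = x := by
          rw [← Real.rpow_add hx0, ← Real.rpow_add hx0]
          norm_num
  have hκ0 : 0 < (L : ℝ) ^ 2 * ℓ ^ A2 / x := by positivity
  have hκ1 : (L : ℝ) ^ 2 * ℓ ^ A2 / x ≤ 1 := by
    refine le_trans ?_ hLx1
    exact le_mul_of_one_le_right hκ0.le (one_le_pow₀ hℓ1)
  have hu2 : 2 ≤ ℓ ^ B2 := by
    calc (2 : ℝ) ≤ ℓ := by linarith
      _ = ℓ ^ 1 := (pow_one ℓ).symm
      _ ≤ _ := hℓp _ _ (by omega)
  have h2 := hrec (ℓ ^ B2) (((L : ℝ) ^ 2 * ℓ ^ A2 / x) ^ k) (L + 1) _ _ b' hu2 (by positivity) (by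
      rw [← pow_mul]
      calc ((L : ℝ) ^ 2 * ℓ ^ A2 / x) ^ k * ℓ ^ (B2 * m) ≤ ((L : ℝ) ^ 2 * ℓ ^ A2 / x) ^ 1 * ℓ ^ (B2 * m) := by
            apply mul_le_mul_of_nonneg_right _ (by positivity)
            exact pow_le_pow_of_le_one hκ0.le hκ1 hk
        _ ≤ 1 := by rw [pow_one]; exact hLx1) (by
      rw [← pow_mul]
      push_cast
      exact (hℓp _ _ (by omega)).trans hLbig) (Ph_pow k β) (by
      intro l hl
      rw [hb', mem_filter, hb, mem_filter, mem_Icc] at hl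
      rw [mem_range]
      omega) (by
      intro l hl
      show NI (ℓ ^ B2) (((L : ℝ) ^ 2 * ℓ ^ A2 / x) ^ k) (β * (l : ℝ) ^ k)
      rw [mul_comm β]
      apply NI_mono (hbad l hl) (hℓp _ _ (by omega))
      apply mul_le_mul_of_nonneg_right (hℓp _ _ (by omega)) (by positivity)) (by
      push_cast
      calc (L : ℝ) + 1 ≤ 2 * L := by linarith
        _ ≤ 2 * (8 * ℓ ^ (A + 1) * b'.card) := by linarith
        _ = 16 * ℓ ^ (A + 1) * b'.card := by ring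
        _ ≤ ℓ * ℓ ^ (A + 1) * b'.card := by
            have : (16 : ℝ) ≤ ℓ := by linarith
            gcongr
        _ = ℓ ^ (A + 2) * b'.card := by ring
        _ ≤ ℓ ^ B2 * b'.card := by
            apply mul_le_mul_of_nonneg_right (hℓp _ _ (by omega)) (Nat.cast_nonneg _))
  have hfac : ((k.factorial : ℕ) : ℝ) ≤ ℓ ^ k.factorial := two_pow_ge _ (by linarith)
  apply NI_of_mul k.factorial (Nat.factorial_pos k) h2
  · rw [← pow_mul]
    calc ((k.factorial : ℕ) : ℝ) * ℓ ^ (B2 * m) ≤ ℓ ^ k.factorial * ℓ ^ (B2 * m) := by gcongr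
      _ = ℓ ^ (k.factorial + B2 * m) := by rw [pow_add]
      _ ≤ _ := hℓp _ _ (by omega)
  · rw [← pow_mul]
    have h3 : ((L : ℝ) ^ 2 * ℓ ^ A2 / x) ^ k / ((L + 1 : ℕ) : ℝ) ^ k ≤ (ℓ ^ A2 * (1 / Q)) ^ k := by
      rw [← div_pow]
      apply pow_le_pow_left₀ (by positivity)
      push_cast
      rw [div_div, div_le_iff₀ (by positivity)]
      have h4 : ℓ ^ A2 * (1 / (Q : ℝ)) * (x * (L + 1)) = ℓ ^ A2 * ((x / Q) * (L + 1)) := by ring
      rw [h4, mul_comm ((L : ℝ) ^ 2)]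
      apply mul_le_mul_of_nonneg_left _ (by positivity)
      have h5 : (L : ℝ) ≤ x / Q := by rw [le_div_iff₀ hQ0]; exact hL1
      calc (L : ℝ) ^ 2 = L * L := by ring
        _ ≤ (x / Q) * (L + 1) := by
            apply mul_le_mul h5 (by linarith) hL0.le (by positivity)
    calc ℓ ^ (B2 * m) * (((L : ℝ) ^ 2 * ℓ ^ A2 / x) ^ k / ((L + 1 : ℕ) : ℝ) ^ k) ≤ ℓ ^ (B2 * m) * (ℓ ^ A2 * (1 / Q)) ^ k := by gcongr
      _ = ℓ ^ (B2 * m + A2 * k) * (1 / (Q : ℝ)) ^ k := by rw [mul_pow, ← pow_mul, pow_add]; ring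
      _ ≤ _ := by
          apply mul_le_mul_of_nonneg_right (hℓp _ _ (by omega)) (by positivity)

end Pool.Agent.W5h32.PM
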