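import Mathlib
import Pool.Agent.W5h32.PM.NonMaj
import Pool.Agent.W93.LV4

/-! The switching of divisors. -/

set_option autoImplicit false

namespace Pool.Agent.W5h32.PM
open Finset
open Pool.Agent.W93.LV (Su)

lemma Su_switch (g : ℕ → ℝ) (y q a L x : ℕ) (hq : 1 ≤ q) (hax : a ≤ x) (hyx : y ≤ x) (hL : x < (L + 1) * q) :
    Su g y q a = ∑ l ∈ Icc 1 L, (if a + l * q ≤ y then g (a + l * q) else 0) +
      ∑ l ∈ Icc 1 L, (if l * q < a ∧ a ≤ y + l * q then g (a - l * q) else 0) := by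
  unfold Su
  rw [← sum_filter, ← sum_filter]
  have e1 : ((Icc 1 y).filter (fun u => u ≡ a [MOD q])).filter (fun u => u ≠ a) =
      ((Icc 1 L).filter (fun l => a + l * q ≤ y)).image (fun l => a + l * q) ∪
      ((Icc 1 L).filter (fun l => l * q < a ∧ a ≤ y + l * q)).image (fun l => a - l * q) := by
    ext u
    simp only [mem_union, mem_image, mem_filter, mem_Icc]
    constructor
    · rintro ⟨⟨⟨h1, h2⟩, h3⟩, h4⟩
      rcases Nat.lt_or_ge a u with h5 | h5
      · left
        have h6 : q ∣ u - a := (Nat.modEq_iff_dvd' h5.le).1 h3.symm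
        obtain ⟨l, hl⟩ := h6
        have hl2 : l * q = u - a := by rw [hl, mul_comm]
        refine ⟨l, ⟨⟨?_, ?_⟩, by omega⟩, by omega⟩
        · rcases Nat.eq_zero_or_pos l with h | h
          · rw [h, zero_mul] at hl2; omega
          · exact h
        · by_contra h
          have : (L + 1) * q ≤ l * q := Nat.mul_le_mul_right q (by omega)
          omega
      · right
        have h5' : u < a := by omega
        have h6 : q ∣ a - u := (Nat.modEq_iff_dvd' h5'.le).1 h3
        obtain ⟨l, hl⟩ := h6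
        have hl2 : l * q = a - u := by rw [hl, mul_comm]
        refine ⟨l, ⟨⟨?_, ?_⟩, by omega, by omega⟩, by omega⟩
        · rcases Nat.eq_zero_or_pos l with h | h
          · rw [h, zero_mul] at hl2; omega
          · exact h
        · by_contra h
          have : (L + 1) * q ≤ l * q := Nat.mul_le_mul_right q (by omega)
          omega
    · rintro (⟨l, ⟨⟨h1, h2⟩, h3⟩, rfl⟩ | ⟨l, ⟨⟨h1, h2⟩, h3, h4⟩, rfl⟩)
      · have h5 : 1 ≤ l * q := Nat.mul_pos h1 hq
        refine ⟨⟨⟨by omega, h3⟩, ?_⟩, by omega⟩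
        unfold Nat.ModEq
        rw [Nat.add_mul_mod_self_right]
      · have h5 : 1 ≤ l * q := Nat.mul_pos h1 hq
        refine ⟨⟨⟨by omega, by omega⟩, ?_⟩, by omega⟩
        apply (Nat.modEq_iff_dvd' (by omega)).2
        rw [show a - (a - l * q) = l * q by omega]
        exact dvd_mul_left _ _
  rw [e1, sum_union, sum_image, sum_image]
  · intro l hl l' hl' h
    rw [mem_coe, mem_filter, mem_Icc] at hl hl'
    have h2 : a - l * q = a - l' * q := h
    have h3 : l * q = l' * q := by omega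
    exact Nat.eq_of_mul_eq_mul_right hq h3
  · intro l hl l' hl' h
    have h2 : a + l * q = a + l' * q := h
    have h3 : l * q = l' * q := by omega
    exact Nat.eq_of_mul_eq_mul_right hq h3
  · rw [Finset.disjoint_left]
    intro u hu hu'
    rw [mem_image] at hu hu'
    obtain ⟨l, hl, rfl⟩ := hu
    obtain ⟨l', hl', h⟩ := hu'
    rw [mem_filter, mem_Icc] at hl hl'
    have h5 : 1 ≤ l * q := Nat.mul_pos hl.1.1 hq
    have h6 : 1 ≤ l' * q := Nat.mul_pos hl'.1.1 hq
    omega

lemma plus_form (g : ℕ → ℝ) (lam : ℕ → ℂ) (a l Q1 Q2 y : ℕ) (hl : 1 ≤ l) :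
    ∑ q ∈ Ioc Q1 Q2, lam q * (((if a + l * q ≤ y then g (a + l * q) else 0 : ℝ)) : ℂ) =
      ∑ n ∈ Ioc (a + l * Q1) (min (a + l * Q2) y), ((g n : ℝ) : ℂ) * (if n % l = a % l then lam ((n - a) / l) else 0) := by
  have e1 : ∀ q ∈ Ioc Q1 Q2, lam q * (((if a + l * q ≤ y then g (a + l * q) else 0 : ℝ)) : ℂ) =
      if a + l * q ≤ y then lam q * ((g (a + l * q) : ℝ) : ℂ) else 0 := by
    intro q _
    split_ifs
    · rfl
    · push_cast; ring
  have e2 : ∀ n ∈ Ioc (a + l * Q1) (min (a + l * Q2) y), ((g n : ℝ) : ℂ) * (if n % l = a % l then lam ((n - a) / l) else 0) =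
      if n % l = a % l then ((g n : ℝ) : ℂ) * lam ((n - a) / l) else 0 := by
    intro n _
    split_ifs
    · rfl
    · ring
  rw [sum_congr rfl e1, sum_congr rfl e2, ← sum_filter, ← sum_filter]
  have e3 : (Ioc (a + l * Q1) (min (a + l * Q2) y)).filter (fun n => n % l = a % l) =
      ((Ioc Q1 Q2).filter (fun q => a + l * q ≤ y)).image (fun q => a + l * q) := by
    ext n
    simp only [mem_filter, mem_Ioc, mem_image, le_min_iff]
    constructor
    · rintro ⟨⟨h1, h2, h3⟩, h4⟩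
      have h5 : a ≤ n := by omega
      have h6 : l ∣ n - a := (Nat.modEq_iff_dvd' h5).1 (by unfold Nat.ModEq; exact h4.symm)
      obtain ⟨q, hq⟩ := h6
      refine ⟨q, ⟨⟨?_, ?_⟩, by omega⟩, by omega⟩
      · by_contra h
        have : l * q ≤ l * Q1 := Nat.mul_le_mul_left l (by omega)
        omega
      · by_contra h
        have : l * (Q2 + 1) ≤ l * q := Nat.mul_le_mul_left l (by omega)
        have h7 : l * (Q2 + 1) = l * Q2 + l := by ring
        omega
    · rintro ⟨q, ⟨⟨h1, h2⟩, h3⟩, rfl⟩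
      have h4 : l * (Q1 + 1) ≤ l * q := Nat.mul_le_mul_left l (by omega)
      have h5 : l * q ≤ l * Q2 := Nat.mul_le_mul_left l h2
      have h7 : l * (Q1 + 1) = l * Q1 + l := by ring
      refine ⟨⟨by omega, by omega, h3⟩, ?_⟩
      rw [Nat.add_mul_mod_self_left]
  rw [e3, sum_image]
  · apply sum_congr rfl
    intro q _
    rw [show a + l * q - a = l * q by omega, Nat.mul_div_cancel_left _ hl]
    ring
  · intro q _ q' _ h
    have h2 : a + l * q = a + l * q' := h
    exact Nat.eq_of_mul_eq_mul_left hl (by omega)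

lemma minus_form (g : ℕ → ℝ) (lam : ℕ → ℂ) (a l Q1 Q2 y : ℕ) (hl : 1 ≤ l) :
    ∑ q ∈ Ioc Q1 Q2, lam q * (((if l * q < a ∧ a ≤ y + l * q then g (a - l * q) else 0 : ℝ)) : ℂ) =
      ∑ n ∈ Ioc (a - l * Q2 - 1) (min (a - l * Q1 - 1) y), ((g n : ℝ) : ℂ) * (if n % l = a % l then lam ((a - n) / l) else 0) := by
  have e1 : ∀ q ∈ Ioc Q1 Q2, lam q * (((if l * q < a ∧ a ≤ y + l * q then g (a - l * q) else 0 : ℝ)) : ℂ) =
      if l * q < a ∧ a ≤ y + l * q then lam q * ((g (a - l * q) : ℝ) : ℂ) else 0 := by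
    intro q _
    split_ifs
    · rfl
    · push_cast; ring
  have e2 : ∀ n ∈ Ioc (a - l * Q2 - 1) (min (a - l * Q1 - 1) y), ((g n : ℝ) : ℂ) * (if n % l = a % l then lam ((a - n) / l) else 0) =
      if n % l = a % l then ((g n : ℝ) : ℂ) * lam ((a - n) / l) else 0 := by
    intro n _
    split_ifs
    · rfl
    · ring
  rw [sum_congr rfl e1, sum_congr rfl e2, ← sum_filter, ← sum_filter]
  have e3 : (Ioc (a - l * Q2 - 1) (min (a - l * Q1 - 1) y)).filter (fun n => n % l = a % l) =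
      ((Ioc Q1 Q2).filter (fun q => l * q < a ∧ a ≤ y + l * q)).image (fun q => a - l * q) := by
    ext n
    simp only [mem_filter, mem_Ioc, mem_image, le_min_iff]
    constructor
    · rintro ⟨⟨h1, h2, h3⟩, h4⟩
      have h5 : n ≤ a := by omega
      have h6 : l ∣ a - n := (Nat.modEq_iff_dvd' h5).1 (by unfold Nat.ModEq; exact h4)
      obtain ⟨q, hq⟩ := h6
      refine ⟨q, ⟨⟨?_, ?_⟩, by omega, by omega⟩, by omega⟩
      · by_contra h
        have : l * q ≤ l * Q1 := Nat.mul_le_mul_left l (by omega)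
        omega
      · by_contra h
        have : l * (Q2 + 1) ≤ l * q := Nat.mul_le_mul_left l (by omega)
        have h7 : l * (Q2 + 1) = l * Q2 + l := by ring
        omega
    · rintro ⟨q, ⟨⟨h1, h2⟩, h3, h4⟩, rfl⟩
      have h5 : l * (Q1 + 1) ≤ l * q := Nat.mul_le_mul_left l (by omega)
      have h6 : l * q ≤ l * Q2 := Nat.mul_le_mul_left l h2
      have h7 : l * (Q1 + 1) = l * Q1 + l := by ring
      refine ⟨⟨by omega, by omega, by omega⟩, ?_⟩
      have h8 : a - l * q ≡ a [MOD l] := by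
        apply (Nat.modEq_iff_dvd' (by omega)).2
        rw [show a - (a - l * q) = l * q by omega]
        exact dvd_mul_right _ _
      exact h8
  rw [e3, sum_image]
  · apply sum_congr rfl
    intro q hq
    rw [mem_filter] at hq
    rw [show a - (a - l * q) = l * q by omega, Nat.mul_div_cancel_left _ hl]
    ring
  · intro q hq q' hq' h
    rw [mem_coe, mem_filter] at hq hq'
    have h2 : a - l * q = a - l * q' := h
    exact Nat.eq_of_mul_eq_mul_left hl (by omega)

/-- the switching of divisors in a weighted sum -/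
lemma T_switch (g : ℕ → ℝ) (lam : ℕ → ℂ) (y a x Q1 Q2 : ℕ) (hQ1 : 1 ≤ Q1) (hax : a ≤ x) (hyx : y ≤ x) :
    ∑ q ∈ Ioc Q1 Q2, lam q * ((Su g y q a : ℝ) : ℂ) =
      ∑ l ∈ Icc 1 (x / Q1), ∑ n ∈ Ioc (a + l * Q1) (min (a + l * Q2) y), ((g n : ℝ) : ℂ) * (if n % l = a % l then lam ((n - a) / l) else 0) +
      ∑ l ∈ Icc 1 (x / Q1), ∑ n ∈ Ioc (a - l * Q2 - 1) (min (a - l * Q1 - 1) y), ((g n : ℝ) : ℂ) * (if n % l = a % l then lam ((a - n) / l) else 0) := by
  have e1 : ∀ q ∈ Ioc Q1 Q2, lam q * ((Su g y q a : ℝ) : ℂ) =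
      ∑ l ∈ Icc 1 (x / Q1), lam q * (((if a + l * q ≤ y then g (a + l * q) else 0 : ℝ)) : ℂ) +
      ∑ l ∈ Icc 1 (x / Q1), lam q * (((if l * q < a ∧ a ≤ y + l * q then g (a - l * q) else 0 : ℝ)) : ℂ) := by
    intro q hq
    rw [mem_Ioc] at hq
    rw [Su_switch g y q a (x / Q1) x (by omega) hax hyx]
    · push_cast
      rw [mul_add, mul_sum, mul_sum]
    · calc x < (x / Q1 + 1) * Q1 := by
            have := Nat.lt_div_mul_add (a := x) (b := Q1) hQ1
            linarith
        _ ≤ (x / Q1 + 1) * q := Nat.mul_le_mul_left _ hq.1.le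
  rw [sum_congr rfl e1, sum_add_distrib, sum_comm, sum_comm (s := Ioc Q1 Q2)]
  congr 1
  · apply sum_congr rfl
    intro l hl
    exact plus_form g lam a l Q1 Q2 y (mem_Icc.1 hl).1
  · apply sum_congr rfl
    intro l hl
    exact minus_form g lam a l Q1 Q2 y (mem_Icc.1 hl).1

end Pool.Agent.W5h32.PM
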