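import Mathlib
import Pool.Agent.W5h32.PM.Switch

/-! Polynomial phases in the modulus: the case of a leading coefficient which is not close to a rational number. -/

set_option autoImplicit false

namespace Pool.Agent.W5h32.PM
open Finset
open Pool.Agent.H373R2.NB (Ph IW IW_all vinogradov Ph_poly)
open Pool.Agent.Helper602.MK (ee)
open Pool.Agent.Helper602.MK.N_J5b (ee_add ee_zero ee_conj norm_ee ee_int ee_nat_mul ee_add_int ee_eq)
open Pool.Agent.H373R2.T7 (vaughan_gen pz Vz lamz mem_pz Vz_pos bonf_ind sum_small_le es es_le prod_dvd_iff prod_le_pow sum_pz_le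
  choice ev_L' Vz_inv_small lamz_nonneg)
open Pool.Agent.W93.LV (Su nc_lam nc_model)

section
open Polynomial

lemma Ph_real (d : ℕ) : ∀ f : ℝ[X], f.natDegree ≤ d →
    Ph d ((d.factorial : ℝ) * f.coeff d) (fun n => f.eval (n : ℝ)) := by
  induction d with
  | zero =>
    intro f hf n
    have h1 : f = C (f.coeff 0) := eq_C_of_natDegree_le_zero hf
    have h2 : f.eval (n : ℝ) = f.coeff 0 := by
      conv_lhs => rw [h1]
      rw [eval_C]
    show f.eval (n : ℝ) = _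
    rw [h2]; simp
  | succ d ih =>
    intro f hf h
    set g : ℝ[X] := taylor (h : ℝ) f - f with hg
    have hcoef : ∀ j, d ≤ j → (taylor (h : ℝ) f).coeff j = f.coeff j + (if j = d then ((d : ℝ) + 1) * f.coeff (d + 1) * h else 0) := by
      intro j hj
      rw [taylor_coeff]
      have h1 : (hasseDeriv j f).natDegree < 2 := by
        have := natDegree_hasseDeriv_le f j
        omega
      rw [eval_eq_sum_range' h1, sum_range_succ, sum_range_succ, sum_range_zero, hasseDeriv_coeff, hasseDeriv_coeff]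
      rcases eq_or_ne j d with h2 | h2
      · subst h2
        rw [if_pos rfl, zero_add, zero_add, Nat.choose_self, add_comm 1 j, Nat.choose_succ_self_right]
        push_cast
        ring
      · rw [if_neg h2]
        have h3 : f.coeff (1 + j) = 0 := coeff_eq_zero_of_natDegree_lt (by omega)
        rw [h3, zero_add, zero_add, Nat.choose_self]
        push_cast
        ring
    have hgd : g.natDegree ≤ d := by
      rw [natDegree_le_iff_coeff_eq_zero]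
      intro j hj
      rw [hg, coeff_sub, hcoef j (by omega), if_neg (by omega)]
      ring
    have hgc : g.coeff d = ((d : ℝ) + 1) * f.coeff (d + 1) * h := by
      rw [hg, coeff_sub, hcoef d le_rfl, if_pos rfl]; ring
    have h1 := ih g hgd
    have h2 : (fun n : ℕ => g.eval (n : ℝ)) = fun n : ℕ =>
        f.eval ((n + h : ℕ) : ℝ) - f.eval (n : ℝ) := by
      funext n
      rw [hg, eval_sub, taylor_eval]
      push_cast
      ring
    have h3 : (d.factorial : ℝ) * g.coeff d = (h : ℝ) * (((d + 1).factorial : ℝ) * f.coeff (d + 1)) := by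
      rw [hgc, Nat.factorial_succ]; push_cast; ring
    rw [h2, h3] at h1
    exact h1

lemma Ph_lin (k : ℕ) (P : ℝ[X]) (hP : P.natDegree ≤ k) (c s : ℝ) (hs : s ≠ 0) :
    Ph k (s ^ k * ((k.factorial : ℝ) * P.coeff k)) (fun n => P.eval (c + s * n)) := by
  obtain ⟨q, hq⟩ : ∃ q : ℝ[X], q = C s * X + C c := ⟨_, rfl⟩
  have hqd : q.natDegree = 1 := by rw [hq]; exact natDegree_linear hs
  have hql : q.leadingCoeff = s := by rw [hq]; exact leadingCoeff_linear hs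
  have h1 : (P.comp q).natDegree ≤ k := by
    rw [natDegree_comp, hqd, mul_one]; exact hP
  have h2 : (P.comp q).coeff k = s ^ k * P.coeff k := by
    rcases hP.lt_or_eq with h | h
    · rw [coeff_eq_zero_of_natDegree_lt h, coeff_eq_zero_of_natDegree_lt (by rw [natDegree_comp, hqd, mul_one]; exact h), mul_zero]
    · have h3 := coeff_comp_degree_mul_degree (p := P) (q := q) (by rw [hqd]; norm_num)
      rw [hqd, mul_one, hql, h] at h3
      rw [h3, mul_comm, leadingCoeff, h]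
  have h3 := Ph_real k (P.comp q) h1
  rw [h2] at h3
  have h4 : (fun n : ℕ => (P.comp q).eval (n : ℝ)) = fun n : ℕ => P.eval (c + s * n) := by
    funext n
    rw [eval_comp, hq, eval_add, eval_mul, eval_C, eval_C, eval_X, add_comm]
  rw [h4] at h3
  have h5 : s ^ k * ((k.factorial : ℝ) * P.coeff k) = (k.factorial : ℝ) * (s ^ k * P.coeff k) := by ring
  rw [h5]
  exact h3

end

lemma div_sub_mod (n a l : ℕ) (hl : 1 ≤ l) (han : a ≤ n) (h : n % l = a % l) : (((n - a) / l : ℕ) : ℝ) = ((n / l : ℕ) : ℝ) - ((a / l : ℕ) : ℝ) := by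
  have h1 := Nat.mod_add_div n l
  have h2 := Nat.mod_add_div a l
  have h3 : a / l ≤ n / l := Nat.div_le_div_right han
  have h4 : n - a = l * (n / l - a / l) := by
    rw [Nat.mul_sub]
    omega
  rw [h4, Nat.mul_div_cancel_left _ hl, Nat.cast_sub h3]

/-- the divisors not coprime to the residue -/
lemma nc_sum (z L a x : ℕ) (hz : 1 ≤ z) (ha : 1 ≤ a) (hax : a ≤ x) (hLx : L ≤ x) (Al Bl : ℕ → ℕ) (e : ℕ → ℕ → ℂ) (he : ∀ l n, ‖e l n‖ ≤ 1)
    (hAB : ∀ l ∈ Icc 1 L, Bl l ≤ x ∧ (a ≤ Al l ∨ Bl l < a))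
    (hV : (Vz z)⁻¹ ≤ Real.log x) (hl1 : 1 ≤ Real.log x) :
    ∑ l ∈ (Icc 1 L).filter (fun l => ¬ a.Coprime l), ‖∑ n ∈ Ioc (Al l) (Bl l), ((Fz z n : ℝ) : ℂ) * (if n % l = a % l then e l n else 0)‖ ≤
      6 * L * Real.log x ^ 3 + 6 * Real.log x ^ 3 * (x / z) := by
  have hx1 : 1 ≤ x := ha.trans hax
  have hz0 : (0 : ℝ) < z := by exact_mod_cast hz
  have hx0 : (0 : ℝ) < x := by exact_mod_cast hx1
  obtain ⟨ℓ, hℓ⟩ : ∃ ℓ, ℓ = Real.log x := ⟨_, rfl⟩
  have h1 := nc_lam L a x ha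
  have h2 := nc_model z L a x x hz ha hLx
  have hlog2 := log2_le' x hx1
  rw [← hℓ] at h1 h2 hV hl1 hlog2 ⊢
  have hloga : Real.log a ≤ ℓ := by
    rw [hℓ]; exact Real.log_le_log (by exact_mod_cast ha) (by exact_mod_cast hax)
  have hloga0 : 0 ≤ Real.log a := Real.log_natCast_nonneg a
  have hV0 : 0 < (Vz z)⁻¹ := inv_pos.2 (Vz_pos z)
  have hpt : ∀ l ∈ (Icc 1 L).filter (fun l => ¬ a.Coprime l),
      ‖∑ n ∈ Ioc (Al l) (Bl l), ((Fz z n : ℝ) : ℂ) * (if n % l = a % l then e l n else 0)‖ ≤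
      ∑ u ∈ ((Icc 1 x).filter (fun u => u ≡ a [MOD l])).filter (fun u => u ≠ a), ArithmeticFunction.vonMangoldt u +
      ∑ u ∈ ((Icc 1 x).filter (fun u => u ≡ a [MOD l])).filter (fun u => u ≠ a), lamz z u := by
    intro l hl
    rw [mem_filter] at hl
    obtain ⟨hB, hA⟩ := hAB l hl.1
    rw [← sum_add_distrib]
    have h3 : ‖∑ n ∈ Ioc (Al l) (Bl l), ((Fz z n : ℝ) : ℂ) * (if n % l = a % l then e l n else 0)‖ ≤
        ∑ n ∈ (Ioc (Al l) (Bl l)).filter (fun n => n % l = a % l), (ArithmeticFunction.vonMangoldt n + lamz z n) := by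
      rw [sum_filter]
      refine (norm_sum_le _ _).trans (sum_le_sum fun n _ => ?_)
      split_ifs with h4
      · rw [norm_mul, Complex.norm_real, Real.norm_eq_abs]
        have h5 : |Fz z n| ≤ ArithmeticFunction.vonMangoldt n + lamz z n := by
          have g1 : 0 ≤ ArithmeticFunction.vonMangoldt n := ArithmeticFunction.vonMangoldt_nonneg
          have g2 := lamz_nonneg z n
          unfold Fz
          rw [abs_le]
          constructor <;> linarith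
        calc |Fz z n| * ‖e l n‖ ≤ |Fz z n| * 1 := mul_le_mul_of_nonneg_left (he l n) (abs_nonneg _)
          _ ≤ _ := by rw [mul_one]; exact h5
      · rw [mul_zero, norm_zero]
    refine h3.trans ?_
    apply sum_le_sum_of_subset_of_nonneg
    · intro n hn
      rw [mem_filter, mem_Ioc] at hn
      rw [mem_filter, mem_filter, mem_Icc]
      refine ⟨⟨⟨by omega, by omega⟩, hn.2⟩, by omega⟩
    · intro n _ _
      have g1 : 0 ≤ ArithmeticFunction.vonMangoldt n := ArithmeticFunction.vonMangoldt_nonneg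
      have g2 := lamz_nonneg z n
      linarith
  refine (sum_le_sum hpt).trans ?_
  rw [sum_add_distrib]
  apply add_le_add
  · refine h1.trans ?_
    have g1 : (Nat.log 2 x + 1 : ℝ) * ℓ ≤ 3 * ℓ * ℓ := by nlinarith
    calc (L : ℝ) * (2 * Real.log a * ((Nat.log 2 x + 1 : ℝ) * ℓ)) ≤ L * (2 * ℓ * (3 * ℓ * ℓ)) := by
          apply mul_le_mul_of_nonneg_left _ (Nat.cast_nonneg _)
          apply mul_le_mul (by linarith) g1 (by positivity) (by positivity)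
      _ = _ := by ring
  · refine h2.trans ?_
    have hLr : (L : ℝ) ≤ x := by exact_mod_cast hLx
    have g1 : ((x : ℝ) * (1 + ℓ) + L) / z ≤ 3 * ℓ * (x / z) := by
      rw [mul_div_assoc', div_le_div_iff_of_pos_right hz0]
      nlinarith
    calc (Vz z)⁻¹ * (2 * Real.log a * (((x : ℝ) * (1 + ℓ) + L) / z)) ≤ ℓ * (2 * ℓ * (3 * ℓ * (x / z))) := by
          apply mul_le_mul hV _ (by positivity) (by positivity)
          apply mul_le_mul (by linarith) g1 (by positivity) (by positivity)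
      _ = _ := by ring

open Polynomial in
/-- the case of a leading coefficient which is not close to a rational number with a small denominator -/
theorem nonmajT (k : ℕ) (hk : 1 ≤ k) (ε : ℝ) (hε : 0 < ε) (A : ℕ) : ∃ B : ℕ, ∀ E : ℕ, ∃ x0 : ℕ, ∀ x : ℕ, x0 ≤ x →
    ∀ z : ℕ, Real.log x ^ (A + 5) ≤ z → (z : ℝ) ≤ Real.log x ^ E →
    ∀ (a y Q1 Q2 : ℕ) (P : ℝ[X]), 1 ≤ a → a ≤ x → y ≤ x → P.natDegree ≤ k → (x : ℝ) ^ (2 / 3 + ε) ≤ Q1 → Q2 ≤ 2 * Q1 →
    (Q1 : ℝ) ≤ (x : ℝ) ^ (1 - ε) →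
    NI (Real.log x ^ B) ((1 / (Q1 : ℝ)) ^ k) ((k.factorial : ℝ) * P.coeff k) ∨
    ‖∑ q ∈ Ioc Q1 Q2, ee (P.eval (q : ℝ)) * ((Su (Fz z) y q a : ℝ) : ℂ)‖ ≤ x / Real.log x ^ A := by
  obtain ⟨B, hB⟩ := nonmaj k hk ε hε (A + 1)
  refine ⟨B, fun E => ?_⟩
  obtain ⟨n0, h0⟩ := hB E
  obtain ⟨n1, hV⟩ := Vz_inv_small E
  obtain ⟨n3, hL⟩ := ev_L' 20000
  obtain ⟨n4, hp1⟩ := pow_small (1 / 3) 1 (by norm_num) (A + 5)
  refine ⟨max (max n0 n1) (max (max n3 n4) 3), fun x hx z hz1 hzE a y Q1 Q2 P ha hax hyx hP hQ1 hQ2 hQ1x => ?_⟩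
  have g0 : n0 ≤ x := le_trans (le_trans (le_max_left _ _) (le_max_left _ _)) hx
  have g1 : n1 ≤ x := le_trans (le_trans (le_max_right _ _) (le_max_left _ _)) hx
  have g3 : n3 ≤ x := le_trans (le_trans (le_trans (le_max_left _ _) (le_max_left _ _)) (le_max_right _ _)) hx
  have g4 : n4 ≤ x := le_trans (le_trans (le_trans (le_max_right _ _) (le_max_left _ _)) (le_max_right _ _)) hx
  have g7 : 3 ≤ x := le_trans (le_trans (le_max_right _ _) (le_max_right _ _)) hx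
  have hLx := hL x g3
  have hx0 : (0 : ℝ) < x := by exact_mod_cast (by omega : 0 < x)
  have hx1 : (1 : ℝ) ≤ x := by exact_mod_cast (by omega : 1 ≤ x)
  have hz : 1 ≤ z := by
    have h2 : (1 : ℝ) ≤ z := le_trans (one_le_pow₀ (by linarith)) hz1
    exact_mod_cast h2
  have h0' := h0 x g0 z hz hzE a Q1
  have hV' := hV x g1 z hz hzE
  have hp1' := hp1 x g4
  rw [one_mul] at hp1'
  have hQ1r : (1 : ℝ) ≤ Q1 := le_trans (Real.one_le_rpow hx1 (by positivity)) hQ1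
  have hQ0 : (0 : ℝ) < Q1 := by linarith
  have hQ1n : 1 ≤ Q1 := by exact_mod_cast hQ1r
  obtain ⟨L, hLd⟩ : ∃ L, L = x / Q1 := ⟨_, rfl⟩
  have hLQ : (L : ℝ) * Q1 ≤ x := by
    have : L * Q1 ≤ x := by rw [hLd]; exact Nat.div_mul_le_self x Q1
    exact_mod_cast this
  have hLxn : L ≤ x := by rw [hLd]; exact Nat.div_le_self x Q1
  have hLpow : (L : ℝ) ≤ (x : ℝ) ^ (1 / 3 : ℝ) := by
    have h2 : (L : ℝ) * Q1 ≤ (x : ℝ) ^ (1 / 3 : ℝ) * Q1 := by
      calc (L : ℝ) * Q1 ≤ x := hLQ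
        _ = (x : ℝ) ^ (1 / 3 : ℝ) * (x : ℝ) ^ (2 / 3 : ℝ) := by
            rw [← Real.rpow_add hx0]; norm_num
        _ ≤ (x : ℝ) ^ (1 / 3 : ℝ) * (x : ℝ) ^ (2 / 3 + ε) := by
            apply mul_le_mul_of_nonneg_left _ (by positivity)
            exact Real.rpow_le_rpow_of_exponent_le hx1 (by linarith)
        _ ≤ _ := by gcongr
    exact le_of_mul_le_mul_right h2 hQ0
  rw [T_switch (Fz z) (fun q => ee (P.eval (q : ℝ))) y a x Q1 Q2 hQ1n hax hyx, ← hLd]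
  -- the two families
  set A1 : ℕ → ℕ := fun l => a + l * Q1 with hA1
  set B1 : ℕ → ℕ := fun l => min (a + l * Q2) y with hB1
  set A2 : ℕ → ℕ := fun l => a - l * Q2 - 1 with hA2
  set B2 : ℕ → ℕ := fun l => min (a - l * Q1 - 1) y with hB2
  have hcB1 : ∀ l ∈ Icc 1 L, B1 l ≤ x ∧ (a ≤ A1 l ∨ B1 l < a) := by
    intro l _
    exact ⟨(min_le_right _ _).trans hyx, Or.inl (Nat.le_add_right _ _)⟩
  have hcB2 : ∀ l ∈ Icc 1 L, B2 l ≤ x ∧ (a ≤ A2 l ∨ B2 l < a) := by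
    intro l _
    refine ⟨(min_le_right _ _).trans hyx, Or.inr ?_⟩
    have : B2 l ≤ a - l * Q1 - 1 := min_le_left _ _
    omega
  obtain ⟨β, hβ⟩ : ∃ β, β = (k.factorial : ℝ) * P.coeff k := ⟨_, rfl⟩
  rw [← hβ]
  have hr1 := h0' ((1 : ℝ) ^ k * β) hQ1 hQ1x A1 B1 (fun l t => P.eval (-((a / l : ℕ) : ℝ) + 1 * t)) (by
    intro l hl
    refine ⟨by rw [hβ]; exact Ph_lin k P hP _ 1 one_ne_zero, (hcB1 l (by rw [hLd]; exact hl)).1, ?_⟩
    have h2 : l * Q2 ≤ l * (2 * Q1) := Nat.mul_le_mul_left l hQ2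
    have h3 : l * (2 * Q1) = l * Q1 + Q1 * l := by ring
    have h4 : B1 l ≤ a + l * Q2 := min_le_left _ _
    show B1 l ≤ a + l * Q1 + Q1 * l
    omega)
  have hr2 := h0' ((-1 : ℝ) ^ k * β) hQ1 hQ1x A2 B2 (fun l t => P.eval (((a / l : ℕ) : ℝ) + -1 * t)) (by
    intro l hl
    refine ⟨by rw [hβ]; exact Ph_lin k P hP _ (-1) (by norm_num), (hcB2 l (by rw [hLd]; exact hl)).1, ?_⟩
    have h2 : l * Q2 ≤ l * (2 * Q1) := Nat.mul_le_mul_left l hQ2
    have h3 : l * (2 * Q1) = l * Q1 + Q1 * l := by ring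
    have h4 : B2 l ≤ a - l * Q1 - 1 := min_le_left _ _
    show B2 l ≤ a - l * Q2 - 1 + Q1 * l
    omega)
  rw [one_pow, one_mul] at hr1
  rcases hr1 with hr1 | hr1
  · exact Or.inl hr1
  rcases hr2 with hr2 | hr2
  · left
    rcases Nat.even_or_odd k with h | h
    · rw [h.neg_one_pow, one_mul] at hr2
      exact hr2
    · rw [h.neg_one_pow, neg_one_mul] at hr2
      exact NI_neg hr2
  right
  rw [← hLd] at hr1 hr2
  -- the terms
  have e1 : ∀ l ∈ Icc 1 L, ∑ n ∈ Ioc (A1 l) (B1 l), ((Fz z n : ℝ) : ℂ) * EW l a (fun t => P.eval (-((a / l : ℕ) : ℝ) + 1 * t)) n =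
      ∑ n ∈ Ioc (A1 l) (B1 l), ((Fz z n : ℝ) : ℂ) * (if n % l = a % l then ee (P.eval (((n - a) / l : ℕ) : ℝ)) else 0) := by
    intro l hl
    apply sum_congr rfl
    intro n hn
    rw [mem_Ioc] at hn
    have hn1 : a ≤ n := le_trans (Nat.le_add_right a (l * Q1)) hn.1.le
    unfold EW
    split_ifs with h2
    · rw [div_sub_mod n a l (mem_Icc.1 hl).1 hn1 h2]
      congr 3
      ring
    · rfl
  have e2 : ∀ l ∈ Icc 1 L, ∑ n ∈ Ioc (A2 l) (B2 l), ((Fz z n : ℝ) : ℂ) * EW l a (fun t => P.eval (((a / l : ℕ) : ℝ) + -1 * t)) n =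
      ∑ n ∈ Ioc (A2 l) (B2 l), ((Fz z n : ℝ) : ℂ) * (if n % l = a % l then ee (P.eval (((a - n) / l : ℕ) : ℝ)) else 0) := by
    intro l hl
    apply sum_congr rfl
    intro n hn
    rw [mem_Ioc] at hn
    have hn1 : n ≤ a := by
      have h3 : B2 l ≤ a - l * Q1 - 1 := min_le_left _ _
      omega
    unfold EW
    split_ifs with h2
    · rw [div_sub_mod a n l (mem_Icc.1 hl).1 hn1 h2.symm]
      congr 3
      ring
    · rfl
  have n1' := nc_sum z L a x hz ha hax hLxn A1 B1 (fun l n => ee (P.eval (((n - a) / l : ℕ) : ℝ))) (fun l n => (norm_ee _).le) hcB1 hV' (by linarith)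
  have n2' := nc_sum z L a x hz ha hax hLxn A2 B2 (fun l n => ee (P.eval (((a - n) / l : ℕ) : ℝ))) (fun l n => (norm_ee _).le) hcB2 hV' (by linarith)
  obtain ⟨ℓ, hℓ⟩ : ∃ ℓ, ℓ = Real.log x := ⟨_, rfl⟩
  rw [← hℓ] at hV' hLx hp1' hz1 hr1 hr2 n1' n2' ⊢
  have hℓ1 : 1 ≤ ℓ := by linarith
  have hℓ0 : 0 < ℓ := by linarith
  have s1 : ‖∑ l ∈ Icc 1 L, ∑ n ∈ Ioc (A1 l) (B1 l), ((Fz z n : ℝ) : ℂ) * (if n % l = a % l then ee (P.eval (((n - a) / l : ℕ) : ℝ)) else 0)‖ ≤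
      x / ℓ ^ (A + 1) + (6 * L * ℓ ^ 3 + 6 * ℓ ^ 3 * (x / z)) := by
    refine (norm_sum_le _ _).trans ?_
    rw [← sum_filter_add_sum_filter_not (Icc 1 L) (fun l => a.Coprime l)]
    apply add_le_add _ n1'
    refine le_trans (le_of_eq ?_) hr1
    apply sum_congr rfl
    intro l hl
    rw [e1 l (mem_filter.1 hl).1]
  have s2 : ‖∑ l ∈ Icc 1 L, ∑ n ∈ Ioc (A2 l) (B2 l), ((Fz z n : ℝ) : ℂ) * (if n % l = a % l then ee (P.eval (((a - n) / l : ℕ) : ℝ)) else 0)‖ ≤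
      x / ℓ ^ (A + 1) + (6 * L * ℓ ^ 3 + 6 * ℓ ^ 3 * (x / z)) := by
    refine (norm_sum_le _ _).trans ?_
    rw [← sum_filter_add_sum_filter_not (Icc 1 L) (fun l => a.Coprime l)]
    apply add_le_add _ n2'
    refine le_trans (le_of_eq ?_) hr2
    apply sum_congr rfl
    intro l hl
    rw [e2 l (mem_filter.1 hl).1]
  refine (norm_add_le _ _).trans ((add_le_add s1 s2).trans ?_)
  have hz0 : (0 : ℝ) < z := by exact_mod_cast hz
  have t1 : 6 * (L : ℝ) * ℓ ^ 3 ≤ 6 * (x / ℓ ^ (A + 2)) := by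
    have h2 : (L : ℝ) * ℓ ^ (A + 5) ≤ x := by
      calc (L : ℝ) * ℓ ^ (A + 5) ≤ (x : ℝ) ^ (1 / 3 : ℝ) * (x : ℝ) ^ (1 / 3 : ℝ) := by gcongr
        _ ≤ (x : ℝ) ^ (1 / 3 : ℝ) * (x : ℝ) ^ (2 / 3 : ℝ) := by
            apply mul_le_mul_of_nonneg_left _ (by positivity)
            exact Real.rpow_le_rpow_of_exponent_le hx1 (by norm_num)
        _ = x := by rw [← Real.rpow_add hx0]; norm_num
    have h3 : (L : ℝ) * ℓ ^ 3 ≤ x / ℓ ^ (A + 2) := by
      rw [le_div_iff₀ (by positivity)]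
      calc (L : ℝ) * ℓ ^ 3 * ℓ ^ (A + 2) = L * ℓ ^ (A + 5) := by ring
        _ ≤ _ := h2
    linarith
  have t2 : 6 * ℓ ^ 3 * ((x : ℝ) / z) ≤ 6 * (x / ℓ ^ (A + 2)) := by
    calc 6 * ℓ ^ 3 * ((x : ℝ) / z) ≤ 6 * ℓ ^ 3 * (x / ℓ ^ (A + 5)) := by gcongr
      _ = _ := by
          rw [show A + 5 = (A + 2) + 3 by ring, pow_add ℓ (A + 2) 3]
          field_simp
  have t3 : (x : ℝ) / ℓ ^ (A + 2) = 1 / ℓ * (x / ℓ ^ (A + 1)) := by
    rw [show A + 2 = (A + 1) + 1 by ring, pow_succ ℓ (A + 1)]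
    field_simp
  have t4 : (x : ℝ) / ℓ ^ (A + 1) = 1 / ℓ * (x / ℓ ^ A) := by
    rw [pow_succ ℓ A]
    field_simp
  have hX : 0 < (x : ℝ) / ℓ ^ A := by positivity
  have t5 : 1 / ℓ ≤ 1 / 20000 := one_div_le_one_div_of_le (by norm_num) hLx
  have t6 : 0 < 1 / ℓ := by positivity
  rw [t3] at t1 t2
  have t7 : 1 / ℓ * ((x : ℝ) / ℓ ^ (A + 1)) ≤ x / ℓ ^ (A + 1) := by
    have : 0 < (x : ℝ) / ℓ ^ (A + 1) := by positivity
    nlinarith
  have t8 : (x : ℝ) / ℓ ^ (A + 1) ≤ 1 / 20000 * (x / ℓ ^ A) := by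
    rw [t4]
    exact mul_le_mul_of_nonneg_right t5 hX.le
  linarith

end Pool.Agent.W5h32.PM
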