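import Mathlib
import Pool.Agent.W5h32.PM.NonMajT
import Pool.Agent.Y868.TA.B2

/-! The base case: no phase, moduli in a progression with a small difference. -/

set_option autoImplicit false

namespace Pool.Agent.W5h32.PM
open Finset
open Pool.Agent.H373R2.T7 (vaughan_gen pz Vz lamz mem_pz Vz_pos bonf_ind sum_small_le es es_le prod_dvd_iff prod_le_pow sum_pz_le
  choice ev_L' Vz_inv_small lamz_nonneg)
open Pool.Agent.W93.LV (Su nc_lam nc_model)
open Pool.Agent.H373R2.T7 (lam_mult_prime)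
open Pool.Agent.Y868.TA (bv_FF FF cs th psi_th th_nonneg)
open H343E (Fam psiAP psi1)

lemma cls_plus (n a l b R : ℕ) (hl : 1 ≤ l) (han : a ≤ n) :
    (n % l = a % l ∧ ((n - a) / l) % R = b % R) ↔ n % (l * R) = (a + l * b) % (l * R) := by
  constructor
  · rintro ⟨h1, h2⟩
    have h3 : l ∣ n - a := (Nat.modEq_iff_dvd' han).1 (by unfold Nat.ModEq; exact h1.symm)
    obtain ⟨q, hq⟩ := h3
    rw [hq, Nat.mul_div_cancel_left _ hl] at h2
    have h4 : q ≡ b [MOD R] := h2
    have h5 := h4.mul_left' l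
    have h6 : n = a + l * q := by omega
    rw [h6]
    exact h5.add_left a
  · intro h
    have h1 : n ≡ a + l * b [MOD l * R] := h
    have h2 : n ≡ a + l * b [MOD l] := h1.of_mul_right R
    have h3 : n % l = a % l := by
      have : n % l = (a + l * b) % l := h2
      rw [this, Nat.add_mul_mod_self_left]
    refine ⟨h3, ?_⟩
    have h4 : l ∣ n - a := (Nat.modEq_iff_dvd' han).1 (by unfold Nat.ModEq; exact h3.symm)
    obtain ⟨q, hq⟩ := h4
    rw [hq, Nat.mul_div_cancel_left _ hl]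
    have h6 : n = a + l * q := by omega
    rw [h6] at h1
    have h7 : l * q ≡ l * b [MOD l * R] := Nat.ModEq.add_left_cancel' a h1
    exact Nat.ModEq.mul_left_cancel' (by omega) h7

lemma cls_minus (n a l b R : ℕ) (hl : 1 ≤ l) (hR : 1 ≤ R) (han : n ≤ a) :
    (n % l = a % l ∧ ((a - n) / l) % R = b % R) ↔ n % (l * R) = (a + l * (R - b % R)) % (l * R) := by
  have hbR : b % R < R := Nat.mod_lt _ hR
  constructor
  · rintro ⟨h1, h2⟩
    have h3 : l ∣ a - n := (Nat.modEq_iff_dvd' han).1 (by unfold Nat.ModEq; exact h1)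
    obtain ⟨q, hq⟩ := h3
    rw [hq, Nat.mul_div_cancel_left _ hl] at h2
    have h6 : a = n + l * q := by omega
    have h7 : q + (R - b % R) ≡ 0 [MOD R] := by
      have h4 : q ≡ b % R [MOD R] := by
        unfold Nat.ModEq
        rw [h2, Nat.mod_mod]
      have h5 := h4.add_right (R - b % R)
      rw [show b % R + (R - b % R) = R by omega] at h5
      have h8 : R ≡ 0 [MOD R] := by
        unfold Nat.ModEq
        simp
      exact h5.trans h8
    have h8 := h7.mul_left' l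
    have h9 := h8.add_left n
    have h10 : n + l * (q + (R - b % R)) = a + l * (R - b % R) := by rw [h6]; ring
    rw [h10, mul_zero, add_zero] at h9
    exact h9.symm
  · intro h
    have h1 : n ≡ a + l * (R - b % R) [MOD l * R] := h
    have h2 : n ≡ a + l * (R - b % R) [MOD l] := h1.of_mul_right R
    have h3 : n % l = a % l := by
      have : n % l = (a + l * (R - b % R)) % l := h2
      rw [this, Nat.add_mul_mod_self_left]
    refine ⟨h3, ?_⟩
    have h4 : l ∣ a - n := (Nat.modEq_iff_dvd' han).1 (by unfold Nat.ModEq; exact h3)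
    obtain ⟨q, hq⟩ := h4
    rw [hq, Nat.mul_div_cancel_left _ hl]
    have h6 : a = n + l * q := by omega
    have h10 : n + l * (q + (R - b % R)) = a + l * (R - b % R) := by rw [h6]; ring
    rw [← h10] at h1
    have h7 : n + l * 0 ≡ n + l * (q + (R - b % R)) [MOD l * R] := by rw [mul_zero, add_zero]; exact h1
    have h8 : l * 0 ≡ l * (q + (R - b % R)) [MOD l * R] := Nat.ModEq.add_left_cancel' n h7
    have h9 : 0 ≡ q + (R - b % R) [MOD R] := Nat.ModEq.mul_left_cancel' (by omega) h8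
    have h11 : b % R ≡ b % R + (q + (R - b % R)) [MOD R] := by
      have := h9.add_left (b % R)
      rw [add_zero] at this
      exact this
    have h12 : b % R + (q + (R - b % R)) = q + R := by omega
    rw [h12] at h11
    have h13 : (b % R) % R = (q + R) % R := h11
    rw [Nat.mod_mod, Nat.add_mod_right] at h13
    exact h13.symm

/-- the sum in a residue class up to `h` -/
noncomputable def Gh (z h k c : ℕ) : ℝ := ∑ n ∈ (Icc 1 h).filter (fun n => n ≡ c [MOD k]), Fz z n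

lemma Gh_Ioc (z A B k c : ℕ) (hAB : A ≤ B) :
    ∑ n ∈ (Ioc A B).filter (fun n => n % k = c % k), Fz z n = Gh z B k c - Gh z A k c := by
  unfold Gh
  have h1 : (Icc 1 B).filter (fun n => n ≡ c [MOD k]) = (Icc 1 A).filter (fun n => n ≡ c [MOD k]) ∪ (Ioc A B).filter (fun n => n % k = c % k) := by
    ext n
    rw [mem_union, mem_filter, mem_filter, mem_filter, mem_Icc, mem_Icc, mem_Ioc]
    unfold Nat.ModEq
    constructor
    · rintro ⟨⟨h1, h2⟩, h3⟩
      rcases Nat.lt_or_ge A n with h | h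
      · exact Or.inr ⟨⟨h, h2⟩, h3⟩
      · exact Or.inl ⟨⟨h1, h⟩, h3⟩
    · rintro (⟨⟨h1, h2⟩, h3⟩ | ⟨⟨h1, h2⟩, h3⟩)
      · exact ⟨⟨h1, by omega⟩, h3⟩
      · exact ⟨⟨by omega, h2⟩, h3⟩
  rw [h1, sum_union]
  · ring
  · rw [Finset.disjoint_left]
    intro n h2 h3
    rw [mem_filter, mem_Icc] at h2
    rw [mem_filter, mem_Ioc] at h3
    omega

lemma Gh_Ioc_abs (z A B k c : ℕ) :
    |∑ n ∈ (Ioc A B).filter (fun n => n % k = c % k), Fz z n| ≤ |Gh z B k c| + |Gh z A k c| := by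
  rcases le_or_gt A B with h | h
  · rw [Gh_Ioc z A B k c h]
    exact abs_sub _ _
  · rw [Ioc_eq_empty_of_le h.le, filter_empty, sum_empty, abs_zero]
    positivity

/-- the theorem of Bombieri and Vinogradov for the difference of the primes and the model, with heights -/
theorem bv_h (ε : ℝ) (hε : 0 < ε) (A B : ℕ) : ∃ E0 : ℕ, ∀ E : ℕ, ∃ x0 : ℕ, ∀ x : ℕ, x0 ≤ x →
    ∀ z : ℕ, Real.log x ^ E0 ≤ z → (z : ℝ) ≤ Real.log x ^ E →
    ∀ (a Q R b : ℕ), (x : ℝ) ^ (2 / 3 + ε) ≤ Q → 1 ≤ R → (R : ℝ) ≤ Real.log x ^ B → ∀ h : ℕ → ℕ, (∀ l, h l ≤ x) →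
    ∑ l ∈ (Icc 1 (x / Q)).filter (fun l => a.Coprime l), |Gh z (h l) (l * R) (a + l * b)| ≤ x / Real.log x ^ A := by
  obtain ⟨B4, hB4⟩ : ∃ B4, B4 = A + 4 := ⟨_, rfl⟩
  obtain ⟨B', E0', hbv⟩ := bv_FF (B4 + A + 3)
  refine ⟨E0' + B, fun E => ?_⟩
  obtain ⟨Y0, hY0⟩ := hbv E
  obtain ⟨n1, hV⟩ := Vz_inv_small E
  obtain ⟨n3, hL⟩ := ev_L' 20000
  obtain ⟨n4, hp1⟩ := pow_small (1 / 6) 1 (by norm_num) (B' + B4 + 2 * B + A + 10)
  refine ⟨max (max n1 n3) (max n4 (max (Y0 ^ 2) 16)), fun x hx z hz1 hzE a Q R b hQ hR1 hRB h hh => ?_⟩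
  have g1 : n1 ≤ x := le_trans (le_trans (le_max_left _ _) (le_max_left _ _)) hx
  have g3 : n3 ≤ x := le_trans (le_trans (le_max_right _ _) (le_max_left _ _)) hx
  have g4 : n4 ≤ x := le_trans (le_trans (le_max_left _ _) (le_max_right _ _)) hx
  have g5 : Y0 ^ 2 ≤ x := le_trans (le_trans (le_trans (le_max_left _ _) (le_max_right _ _)) (le_max_right _ _)) hx
  have g7 : 16 ≤ x := le_trans (le_trans (le_trans (le_max_right _ _) (le_max_right _ _)) (le_max_right _ _)) hx
  have hLx := hL x g3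
  have hx0 : (0 : ℝ) < x := by exact_mod_cast (by omega : 0 < x)
  have hx1 : (1 : ℝ) ≤ x := by exact_mod_cast (by omega : 1 ≤ x)
  have hz : 1 ≤ z := by
    have h2 : (1 : ℝ) ≤ z := le_trans (one_le_pow₀ (by linarith)) hz1
    exact_mod_cast h2
  have hV' := hV x g1 z hz hzE
  have hp1' := hp1 x g4
  rw [one_mul] at hp1'
  have hbv' := hY0 x z (le_trans (pow_le_pow_right₀ (by linarith) (by omega)) hz1) hzE
  have hlog2 := log2_le' x (by omega)
  have hFz := fun (n : ℕ) (hn : n ≤ x) => Fz_le z n x hn hV'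
  obtain ⟨ℓ, hℓ⟩ : ∃ ℓ, ℓ = Real.log x := ⟨_, rfl⟩
  rw [← hℓ] at hV' hLx hp1' hz1 hRB hlog2 ⊢
  simp only [← hℓ] at hbv' hFz
  have hℓ1 : 1 ≤ ℓ := by linarith
  have hℓ0 : 0 < ℓ := by linarith
  have hℓp : ∀ i j : ℕ, i ≤ j → ℓ ^ i ≤ ℓ ^ j := fun i j h => pow_le_pow_right₀ hℓ1 h
  have hRz : (R : ℝ) ≤ z := hRB.trans ((hℓp _ _ (by omega)).trans hz1)
  have hR0 : (0 : ℝ) < R := by exact_mod_cast hR1
  have hQr : (1 : ℝ) ≤ Q := le_trans (Real.one_le_rpow hx1 (by positivity)) hQ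
  have hQ0 : (0 : ℝ) < Q := by linarith
  have hQn : 1 ≤ Q := by exact_mod_cast hQr
  obtain ⟨L, hLd⟩ : ∃ L, L = x / Q := ⟨_, rfl⟩
  rw [← hLd]
  have hLQ : (L : ℝ) * Q ≤ x := by
    have : L * Q ≤ x := by rw [hLd]; exact Nat.div_mul_le_self x Q
    exact_mod_cast this
  have hLpow : (L : ℝ) ≤ (x : ℝ) ^ (1 / 3 : ℝ) := by
    have h2 : (L : ℝ) * Q ≤ (x : ℝ) ^ (1 / 3 : ℝ) * Q := by
      calc (L : ℝ) * Q ≤ x := hLQ
        _ = (x : ℝ) ^ (1 / 3 : ℝ) * (x : ℝ) ^ (2 / 3 : ℝ) := by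
            rw [← Real.rpow_add hx0]; norm_num
        _ ≤ (x : ℝ) ^ (1 / 3 : ℝ) * (x : ℝ) ^ (2 / 3 + ε) := by
            apply mul_le_mul_of_nonneg_left _ (by positivity)
            exact Real.rpow_le_rpow_of_exponent_le hx1 (by linarith)
        _ ≤ _ := by gcongr
    exact le_of_mul_le_mul_right h2 hQ0
  -- powers
  have hLl : ∀ i : ℕ, i ≤ B' + B4 + 2 * B + A + 10 → (L : ℝ) * √x * ℓ ^ i ≤ x := by
    intro i hi
    rw [Real.sqrt_eq_rpow]
    calc (L : ℝ) * (x : ℝ) ^ (1 / 2 : ℝ) * ℓ ^ i ≤ (x : ℝ) ^ (1 / 3 : ℝ) * (x : ℝ) ^ (1 / 2 : ℝ) * (x : ℝ) ^ (1 / 6 : ℝ) := by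
          have := (hℓp i _ hi).trans hp1'
          gcongr
      _ = x := by rw [← Real.rpow_add hx0, ← Real.rpow_add hx0]; norm_num
  have hsx : 1 ≤ √(x : ℝ) := by rw [Real.one_le_sqrt]; exact hx1
  have hLl2 : ∀ i : ℕ, i ≤ B' + B4 + 2 * B + A + 10 → (L : ℝ) * ℓ ^ i ≤ x := by
    intro i hi
    refine le_trans ?_ (hLl i hi)
    have : (L : ℝ) ≤ L * √x := le_mul_of_one_le_right (Nat.cast_nonneg _) hsx
    gcongr
  -- the grid
  obtain ⟨g, hg⟩ : ∃ g : ℕ, g = ⌊(x : ℝ) / ℓ ^ B4⌋₊ := ⟨_, rfl⟩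
  have hxl : (x : ℝ) ^ (5 / 6 : ℝ) * ℓ ^ (B' + B4 + 2 * B + A + 10) ≤ x := by
    calc (x : ℝ) ^ (5 / 6 : ℝ) * ℓ ^ (B' + B4 + 2 * B + A + 10) ≤ (x : ℝ) ^ (5 / 6 : ℝ) * (x : ℝ) ^ (1 / 6 : ℝ) := by gcongr
      _ = x := by rw [← Real.rpow_add hx0]; norm_num
  have hx56 : 1 ≤ (x : ℝ) ^ (5 / 6 : ℝ) := Real.one_le_rpow hx1 (by norm_num)
  have hg0 : (x : ℝ) ^ (5 / 6 : ℝ) * ℓ ^ (B' + 2 * B + A + 10) ≤ x / ℓ ^ B4 := by
    rw [le_div_iff₀ (by positivity)]
    calc (x : ℝ) ^ (5 / 6 : ℝ) * ℓ ^ (B' + 2 * B + A + 10) * ℓ ^ B4 = (x : ℝ) ^ (5 / 6 : ℝ) * ℓ ^ (B' + B4 + 2 * B + A + 10) := by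
          rw [mul_assoc, ← pow_add]; congr 2; ring
      _ ≤ _ := hxl
  have hg2 : (g : ℝ) ≤ x / ℓ ^ B4 := by rw [hg]; exact Nat.floor_le (by positivity)
  have hg3 : (x : ℝ) / ℓ ^ B4 ≤ 2 * g := by
    have h1 : (x : ℝ) / ℓ ^ B4 < g + 1 := by rw [hg]; exact Nat.lt_floor_add_one _
    have h2 : 2 ≤ (x : ℝ) / ℓ ^ B4 := by
      refine le_trans ?_ hg0
      have : (2 : ℝ) ≤ ℓ ^ (B' + 2 * B + A + 10) := by
        calc (2 : ℝ) ≤ ℓ := by linarith
          _ = ℓ ^ 1 := (pow_one ℓ).symm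
          _ ≤ _ := hℓp _ _ (by omega)
      nlinarith
    linarith
  have hgl : (x : ℝ) ^ (5 / 6 : ℝ) * ℓ ^ (B' + 2 * B + A + 9) ≤ g := by
    have h1 : (x : ℝ) ^ (5 / 6 : ℝ) * ℓ ^ (B' + 2 * B + A + 10) = 2 * ((x : ℝ) ^ (5 / 6 : ℝ) * ℓ ^ (B' + 2 * B + A + 9)) * (ℓ / 2) := by
      rw [pow_succ]; ring
    have h2 : 1 ≤ ℓ / 2 := by linarith
    have h3 : 0 ≤ 2 * ((x : ℝ) ^ (5 / 6 : ℝ) * ℓ ^ (B' + 2 * B + A + 9)) := by positivity
    have h4 : 2 * ((x : ℝ) ^ (5 / 6 : ℝ) * ℓ ^ (B' + 2 * B + A + 9)) ≤ (x : ℝ) ^ (5 / 6 : ℝ) * ℓ ^ (B' + 2 * B + A + 10) := by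
      rw [h1]; exact le_mul_of_one_le_right h3 h2
    linarith
  have hgpos : (1 : ℝ) ≤ g := by
    refine le_trans ?_ hgl
    exact one_le_mul_of_one_le_of_one_le hx56 (one_le_pow₀ hℓ1)
  have hgn : 1 ≤ g := by exact_mod_cast hgpos
  have hgx : g ≤ x := by
    have : (g : ℝ) ≤ x := hg2.trans (div_le_self hx0.le (one_le_pow₀ hℓ1))
    exact_mod_cast this
  -- the family of residue classes
  classical
  obtain ⟨Lc, hLc⟩ : ∃ Lc : ℕ → Finset ℕ, Lc = fun k => if R ∣ k ∧ 1 ≤ k ∧ (a + (k / R) * b).Coprime k then {(a + (k / R) * b) % k} else ∅ := ⟨_, rfl⟩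
  have hFam : Fam 1 Lc := by
    constructor
    · intro k c hc
      rw [hLc] at hc
      by_cases h1 : R ∣ k ∧ 1 ≤ k ∧ (a + (k / R) * b).Coprime k
      · simp only [if_pos h1, mem_singleton] at hc
        rw [hc]
        refine ⟨Nat.mod_lt _ h1.2.1, ?_⟩
        have h2 : (a + (k / R) * b) % k ≡ a + (k / R) * b [MOD k] := Nat.mod_modEq _ _
        have h3 := h2.gcd_eq
        unfold Nat.Coprime
        rw [h3]
        exact h1.2.2
      · simp only [if_neg h1, notMem_empty] at hc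
    · intro k
      rw [hLc]
      by_cases h1 : R ∣ k ∧ 1 ≤ k ∧ (a + (k / R) * b).Coprime k
      · simp only [if_pos h1, card_singleton]
        norm_num
      · simp only [if_neg h1, card_empty]
        norm_num
  -- the coprime classes
  have hco : ∀ Y : ℕ, g ≤ Y → Y ≤ x →
      ∑ l ∈ (Icc 1 L).filter (fun l => (a + l * b).Coprime (l * R)), |cs (FF z) Y (l * R) (a + l * b)| ≤ x / ℓ ^ (B4 + A + 3) := by
    intro Y hgY hYx
    have hYr : (g : ℝ) ≤ Y := by exact_mod_cast hgY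
    have hYxr : (Y : ℝ) ≤ x := by exact_mod_cast hYx
    have hx56Y : (x : ℝ) ^ (5 / 6 : ℝ) * ℓ ^ (B' + 2 * B + A + 9) ≤ Y := hgl.trans hYr
    have hY0r : (0 : ℝ) < Y := by linarith
    have hYY0 : Y0 ≤ Y := by
      have h1 : (Y0 : ℝ) ≤ Y := by
        have h2 : (Y0 : ℝ) ≤ √x := by
          apply Real.le_sqrt_of_sq_le
          exact_mod_cast g5
        have h3 : √(x : ℝ) ≤ (x : ℝ) ^ (5 / 6 : ℝ) := by
          rw [Real.sqrt_eq_rpow]
          exact Real.rpow_le_rpow_of_exponent_le hx1 (by norm_num)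
        have h4 : (x : ℝ) ^ (5 / 6 : ℝ) ≤ (x : ℝ) ^ (5 / 6 : ℝ) * ℓ ^ (B' + 2 * B + A + 9) :=
          le_mul_of_one_le_right (by positivity) (one_le_pow₀ hℓ1)
        linarith
      exact_mod_cast h1
    have hXY : x ≤ Y ^ 2 := by
      have h1 : (x : ℝ) ≤ (Y : ℝ) ^ 2 := by
        have h4 : (x : ℝ) ^ (5 / 6 : ℝ) ≤ Y := le_trans (le_mul_of_one_le_right (by positivity) (one_le_pow₀ hℓ1)) hx56Y
        calc (x : ℝ) = (x : ℝ) ^ (1 : ℝ) := (Real.rpow_one _).symm
          _ ≤ (x : ℝ) ^ (5 / 6 + 5 / 6 : ℝ) := Real.rpow_le_rpow_of_exponent_le hx1 (by norm_num)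
          _ = (x : ℝ) ^ (5 / 6 : ℝ) * (x : ℝ) ^ (5 / 6 : ℝ) := Real.rpow_add hx0 _ _
          _ ≤ Y * Y := by gcongr
          _ = _ := by ring
      exact_mod_cast h1
    have hLR : ((L * R : ℕ) : ℝ) ≤ (x : ℝ) ^ (1 / 3 : ℝ) * ℓ ^ B := by
      push_cast
      gcongr
    have hKd1 : ((L * R : ℕ) : ℝ) ≤ Y / ℓ ^ B' := by
      rw [le_div_iff₀ (by positivity)]
      calc ((L * R : ℕ) : ℝ) * ℓ ^ B' ≤ ((x : ℝ) ^ (1 / 3 : ℝ) * ℓ ^ B) * ℓ ^ B' := by gcongr
        _ = (x : ℝ) ^ (1 / 3 : ℝ) * ℓ ^ (B + B') := by rw [pow_add]; ring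
        _ ≤ (x : ℝ) ^ (5 / 6 : ℝ) * ℓ ^ (B' + 2 * B + A + 9) := by
            apply mul_le_mul (Real.rpow_le_rpow_of_exponent_le hx1 (by norm_num)) (hℓp _ _ (by omega)) (by positivity) (by positivity)
        _ ≤ Y := hx56Y
    have hKd2 : ((L * R : ℕ) : ℝ) ^ 2 ≤ 1 * Y / ℓ ^ B' := by
      rw [one_mul, le_div_iff₀ (by positivity)]
      calc ((L * R : ℕ) : ℝ) ^ 2 * ℓ ^ B' ≤ ((x : ℝ) ^ (1 / 3 : ℝ) * ℓ ^ B) ^ 2 * ℓ ^ B' := by gcongr
        _ = ((x : ℝ) ^ (1 / 3 : ℝ) * (x : ℝ) ^ (1 / 3 : ℝ)) * ℓ ^ (2 * B + B') := by rw [pow_add, mul_comm 2 B, pow_mul]; ring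
        _ = (x : ℝ) ^ (2 / 3 : ℝ) * ℓ ^ (2 * B + B') := by rw [← Real.rpow_add hx0]; norm_num
        _ ≤ (x : ℝ) ^ (5 / 6 : ℝ) * ℓ ^ (B' + 2 * B + A + 9) := by
            apply mul_le_mul (Real.rpow_le_rpow_of_exponent_le hx1 (by norm_num)) (hℓp _ _ (by omega)) (by positivity) (by positivity)
        _ ≤ Y := hx56Y
    have h1 := hbv' Y hYY0 hYx hXY 1 le_rfl (by exact_mod_cast hz) (L * R) hKd1 hKd2 Lc hFam
    rw [one_mul] at h1
    have h2 : ∑ l ∈ (Icc 1 L).filter (fun l => (a + l * b).Coprime (l * R)), |cs (FF z) Y (l * R) (a + l * b)| ≤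
        ∑ k ∈ Icc 1 (L * R), ∑ a ∈ Lc k, |cs (FF z) Y k a| := by
      have h3 : ∑ l ∈ (Icc 1 L).filter (fun l => (a + l * b).Coprime (l * R)), |cs (FF z) Y (l * R) (a + l * b)| =
          ∑ k ∈ ((Icc 1 L).filter (fun l => (a + l * b).Coprime (l * R))).image (fun l => l * R), ∑ a ∈ Lc k, |cs (FF z) Y k a| := by
        rw [sum_image]
        · apply sum_congr rfl
          intro l hl
          rw [mem_filter, mem_Icc] at hl
          have h4 : R ∣ l * R ∧ 1 ≤ l * R ∧ (a + (l * R / R) * b).Coprime (l * R) := by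
            refine ⟨dvd_mul_left _ _, Nat.mul_pos hl.1.1 hR1, ?_⟩
            rw [Nat.mul_div_cancel _ hR1]
            exact hl.2
          rw [hLc]
          simp only [if_pos h4, sum_singleton]
          rw [Nat.mul_div_cancel _ hR1]
          congr 1
          unfold cs
          apply sum_congr _ (fun _ _ => rfl)
          apply filter_congr
          intro n _
          unfold Nat.ModEq
          rw [Nat.mod_mod]
        · intro l _ l' _ h
          exact Nat.eq_of_mul_eq_mul_right hR1 h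
      rw [h3]
      apply sum_le_sum_of_subset_of_nonneg
      · intro k hk
        rw [mem_image] at hk
        obtain ⟨l, hl, rfl⟩ := hk
        rw [mem_filter, mem_Icc] at hl
        rw [mem_Icc]
        exact ⟨Nat.mul_pos hl.1.1 hR1, Nat.mul_le_mul_right R hl.1.2⟩
      · intro k _ _
        exact sum_nonneg fun _ _ => abs_nonneg _
    refine h2.trans (h1.trans ?_)
    gcongr
  -- a class with a common prime factor
  have hnc : ∀ l ∈ (Icc 1 L).filter (fun l => a.Coprime l), ¬ (a + l * b).Coprime (l * R) → |Gh z (h l) (l * R) (a + l * b)| ≤ 3 * ℓ ^ 2 := by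
    intro l hl hnc
    rw [mem_filter, mem_Icc] at hl
    obtain ⟨p, hp, hp1, hp2⟩ := Nat.Prime.not_coprime_iff_dvd.1 hnc
    have hpl : ¬ p ∣ l := by
      intro h1
      have h2 : p ∣ a := (Nat.dvd_add_left (h1.mul_right b)).1 hp1
      have h3 := Nat.dvd_gcd h2 h1
      rw [hl.2] at h3
      exact hp.one_lt.ne' (Nat.dvd_one.1 h3)
    have hpR : p ∣ R := (hp.dvd_mul.1 hp2).resolve_left hpl
    have hpR' : p ≤ R := Nat.le_of_dvd hR1 hpR
    have hpz : p ∈ pz z := by
      rw [mem_pz]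
      refine ⟨?_, hp⟩
      have : (p : ℝ) ≤ z := le_trans (by exact_mod_cast hpR') hRz
      exact_mod_cast this
    have h1 : ∀ n ∈ (Icc 1 (h l)).filter (fun n => n ≡ a + l * b [MOD l * R]), p ∣ n := by
      intro n hn
      rw [mem_filter] at hn
      exact (hn.2.dvd_iff hp2).2 hp1
    have h2 : Gh z (h l) (l * R) (a + l * b) = ∑ n ∈ (Icc 1 (h l)).filter (fun n => n ≡ a + l * b [MOD l * R]), ArithmeticFunction.vonMangoldt n := by
      unfold Gh
      apply sum_congr rfl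
      intro n hn
      unfold Fz lamz
      rw [if_neg, sub_zero]
      intro h3
      exact h3 p hpz (h1 n hn)
    rw [h2, abs_of_nonneg (sum_nonneg fun n _ => ArithmeticFunction.vonMangoldt_nonneg)]
    have h3 : ∑ n ∈ (Icc 1 (h l)).filter (fun n => n ≡ a + l * b [MOD l * R]), ArithmeticFunction.vonMangoldt n ≤
        ∑ n ∈ (Icc 1 x).filter (fun n => p ∣ n), ArithmeticFunction.vonMangoldt n := by
      apply sum_le_sum_of_subset_of_nonneg
      · intro n hn
        have h4 := h1 n hn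
        rw [mem_filter, mem_Icc] at hn
        rw [mem_filter, mem_Icc]
        exact ⟨⟨hn.1.1, hn.1.2.trans (hh l)⟩, h4⟩
      · intro n _ _
        exact ArithmeticFunction.vonMangoldt_nonneg
    refine h3.trans ((lam_mult_prime x p hp).trans ?_)
    rw [← hℓ]
    nlinarith
  -- from `Gh` to `cs`
  have hGcs : ∀ l ∈ (Icc 1 L).filter (fun l => a.Coprime l), (a + l * b).Coprime (l * R) →
      |Gh z (h l) (l * R) (a + l * b)| ≤ ∑ j ∈ Icc 1 (x / g), |cs (FF z) (j * g) (l * R) (a + l * b)| + ℓ * (g * (1 / (l : ℝ)) + 1) + 2 * (√x * ℓ) := by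
    intro l hl hcop
    rw [mem_filter, mem_Icc] at hl
    have hl0 : (0 : ℝ) < l := by exact_mod_cast hl.1.1
    obtain ⟨k, hk⟩ : ∃ k, k = l * R := ⟨_, rfl⟩
    obtain ⟨c, hc⟩ : ∃ c, c = a + l * b := ⟨_, rfl⟩
    rw [← hk, ← hc] at hcop ⊢
    have hk1 : 1 ≤ k := by rw [hk]; exact Nat.mul_pos hl.1.1 hR1
    have hkl : (l : ℝ) ≤ k := by
      rw [hk]; push_cast
      have : (1 : ℝ) ≤ R := by exact_mod_cast hR1
      nlinarith
    obtain ⟨j, hj⟩ : ∃ j, j = h l / g := ⟨_, rfl⟩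
    have hj1 : j * g ≤ h l := by rw [hj]; exact Nat.div_mul_le_self _ _
    have hj2 : h l < j * g + g := by rw [hj]; exact Nat.lt_div_mul_add hgn
    have hjx : j ≤ x / g := by rw [hj]; exact Nat.div_le_div_right (hh l)
    have hjgx : j * g ≤ x := hj1.trans (hh l)
    -- the part after the grid point
    have e1 : Gh z (h l) k c = Gh z (j * g) k c + ∑ n ∈ (Ioc (j * g) (h l)).filter (fun n => n % k = c % k), Fz z n := by
      rw [Gh_Ioc z (j * g) (h l) k c hj1]; ring
    have e2 : |∑ n ∈ (Ioc (j * g) (h l)).filter (fun n => n % k = c % k), Fz z n| ≤ ℓ * (g * (1 / (l : ℝ)) + 1) := by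
      refine (abs_sum_le_sum_abs _ _).trans ?_
      have f1 : ∀ n ∈ (Ioc (j * g) (h l)).filter (fun n => n % k = c % k), |Fz z n| ≤ ℓ := by
        intro n hn
        rw [mem_filter, mem_Ioc] at hn
        exact hFz n (hn.1.2.trans (hh l))
      refine (sum_le_sum f1).trans ?_
      rw [sum_const, nsmul_eq_mul, mul_comm]
      apply mul_le_mul_of_nonneg_left _ hℓ0.le
      obtain ⟨l1, m, hm, -, -, hset⟩ := ap_param k c (j * g) (h l) hk1 hj1
      rw [hset]
      have f2 : (((range m).image (fun s => l1 + k * s)).card : ℝ) ≤ m := by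
        have := card_image_le (s := range m) (f := fun s => l1 + k * s)
        rw [card_range] at this
        exact_mod_cast this
      refine f2.trans (hm.trans ?_)
      have f3 : ((h l : ℕ) : ℝ) - ((j * g : ℕ) : ℝ) ≤ g := by
        have : ((h l : ℕ) : ℝ) ≤ ((j * g + g : ℕ) : ℝ) := by exact_mod_cast hj2.le
        push_cast at this ⊢
        linarith
      have hk0 : (0 : ℝ) < k := by linarith
      have f4 : (((h l : ℕ) : ℝ) - ((j * g : ℕ) : ℝ)) / k ≤ g * (1 / (l : ℝ)) := by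
        calc (((h l : ℕ) : ℝ) - ((j * g : ℕ) : ℝ)) / k ≤ g / k := div_le_div_of_nonneg_right f3 hk0.le
          _ ≤ g / l := div_le_div_of_nonneg_left (Nat.cast_nonneg _) hl0 hkl
          _ = _ := by ring
      linarith
    have e3 : |Gh z (j * g) k c| ≤ |cs (FF z) (j * g) k c| + 2 * (√x * ℓ) := by
      rcases Nat.eq_zero_or_pos (j * g) with h0 | h0
      · rw [h0]
        unfold Gh cs
        rw [show Icc 1 0 = (∅ : Finset ℕ) by rfl, filter_empty, sum_empty, sum_empty, abs_zero]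
        positivity
      · have hF : Fam 1 (fun k' => if k' = k then {c % k} else ∅) := by
          constructor
          · intro k' c' hc'
            by_cases h1 : k' = k
            · simp only [if_pos h1, mem_singleton] at hc'
              rw [hc', h1]
              refine ⟨Nat.mod_lt _ hk1, ?_⟩
              have h2 : c % k ≡ c [MOD k] := Nat.mod_modEq _ _
              have h3 := h2.gcd_eq
              unfold Nat.Coprime
              rw [h3]
              exact hcop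
            · simp only [if_neg h1, notMem_empty] at hc'
          · intro k'
            by_cases h1 : k' = k
            · simp only [if_pos h1, card_singleton]; norm_num
            · simp only [if_neg h1, card_empty]; norm_num
        have h1 := psi_th hF (j * g) k h0
        simp only [if_true, sum_singleton] at h1
        have h2 : cs th (j * g) k (c % k) = cs th (j * g) k c := by
          unfold cs
          apply sum_congr _ (fun _ _ => rfl)
          apply filter_congr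
          intro n _
          unfold Nat.ModEq
          rw [Nat.mod_mod]
        have h3 : psiAP ((j * g : ℕ) : ℝ) k (c % k) = ∑ n ∈ (Icc 1 (j * g)).filter (fun n => n ≡ c [MOD k]), ArithmeticFunction.vonMangoldt n := by
          unfold psiAP
          rw [Nat.floor_natCast]
          apply sum_congr _ (fun _ _ => rfl)
          apply filter_congr
          intro n _
          unfold Nat.ModEq
          rw [Nat.mod_mod]
        rw [h2, h3] at h1
        have h4 : Gh z (j * g) k c = cs (FF z) (j * g) k c -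
            (cs th (j * g) k c - ∑ n ∈ (Icc 1 (j * g)).filter (fun n => n ≡ c [MOD k]), ArithmeticFunction.vonMangoldt n) := by
          unfold Gh cs FF Fz
          rw [sum_sub_distrib, sum_sub_distrib]
          ring
        rw [h4]
        refine (abs_sub _ _).trans (add_le_add le_rfl (h1.trans ?_))
        have h5 : Real.log ((j * g : ℕ) : ℝ) ≤ ℓ := by
          rw [hℓ]
          exact Real.log_le_log (by exact_mod_cast h0) (by exact_mod_cast hjgx)
        have h6 : √((j * g : ℕ) : ℝ) ≤ √x := Real.sqrt_le_sqrt (by exact_mod_cast hjgx)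
        have h7 : 0 ≤ Real.log ((j * g : ℕ) : ℝ) := Real.log_natCast_nonneg _
        gcongr
    have e4 : |cs (FF z) (j * g) k c| ≤ ∑ j ∈ Icc 1 (x / g), |cs (FF z) (j * g) k c| := by
      rcases Nat.eq_zero_or_pos j with h0 | h0
      · rw [h0, zero_mul]
        unfold cs
        rw [show Icc 1 0 = (∅ : Finset ℕ) by rfl, filter_empty, sum_empty, abs_zero]
        exact sum_nonneg fun _ _ => abs_nonneg _
      · exact single_le_sum (f := fun j => |cs (FF z) (j * g) k c|) (fun _ _ => abs_nonneg _) (mem_Icc.2 ⟨h0, hjx⟩)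
    rw [e1]
    refine (abs_add_le _ _).trans ?_
    linarith
  -- summation
  have hmain : ∑ l ∈ (Icc 1 L).filter (fun l => a.Coprime l), |Gh z (h l) (l * R) (a + l * b)| ≤
      ∑ j ∈ Icc 1 (x / g), (x / ℓ ^ (B4 + A + 3)) + ℓ * (g * (2 * ℓ) + L) + 2 * (L * √x * ℓ) + L * (3 * ℓ ^ 2) := by
    rw [← sum_filter_add_sum_filter_not _ (fun l => (a + l * b).Coprime (l * R))]
    apply add_le_add
    · have h1 : ∀ l ∈ ((Icc 1 L).filter (fun l => a.Coprime l)).filter (fun l => (a + l * b).Coprime (l * R)),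
          |Gh z (h l) (l * R) (a + l * b)| ≤ ∑ j ∈ Icc 1 (x / g), |cs (FF z) (j * g) (l * R) (a + l * b)| + ℓ * (g * (1 / (l : ℝ)) + 1) + 2 * (√x * ℓ) := by
        intro l hl
        rw [mem_filter] at hl
        exact hGcs l hl.1 hl.2
      refine (sum_le_sum h1).trans ?_
      rw [sum_add_distrib, sum_add_distrib]
      have hsub : ((Icc 1 L).filter (fun l => a.Coprime l)).filter (fun l => (a + l * b).Coprime (l * R)) ⊆ Icc 1 L :=
        (filter_subset _ _).trans (filter_subset _ _)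
      have hcard : ((((Icc 1 L).filter (fun l => a.Coprime l)).filter (fun l => (a + l * b).Coprime (l * R))).card : ℝ) ≤ L := by
        have := card_le_card hsub
        rw [Nat.card_Icc, Nat.add_sub_cancel] at this
        exact_mod_cast this
      apply add_le_add
      · apply add_le_add
        · rw [sum_comm]
          apply sum_le_sum
          intro j hj
          rw [mem_Icc] at hj
          refine le_trans ?_ (hco (j * g) (Nat.le_mul_of_pos_left g hj.1) (by
            calc j * g ≤ (x / g) * g := Nat.mul_le_mul_right g hj.2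
              _ ≤ x := Nat.div_mul_le_self x g))
          apply sum_le_sum_of_subset_of_nonneg
          · intro l hl
            rw [mem_filter, mem_filter] at hl
            rw [mem_filter]
            exact ⟨hl.1.1, hl.2⟩
          · intro l _ _
            exact abs_nonneg _
        · rw [← mul_sum]
          apply mul_le_mul_of_nonneg_left _ hℓ0.le
          rw [sum_add_distrib, ← mul_sum]
          apply add_le_add
          · apply mul_le_mul_of_nonneg_left _ (Nat.cast_nonneg _)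
            rcases Nat.eq_zero_or_pos L with h0 | h0
            · rw [h0, show Icc 1 0 = (∅ : Finset ℕ) by rfl, filter_empty, filter_empty, sum_empty]
              positivity
            · have h2 : ∑ l ∈ ((Icc 1 L).filter (fun l => a.Coprime l)).filter (fun l => (a + l * b).Coprime (l * R)), 1 / (l : ℝ) ≤
                  ∑ l ∈ Icc 1 L, 1 / (l : ℝ) := sum_le_sum_of_subset_of_nonneg hsub (fun _ _ _ => by positivity)
              refine h2.trans ((harm' L h0).trans ?_)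
              have h3 : Real.log L ≤ ℓ := by
                rw [hℓ]
                apply Real.log_le_log (by exact_mod_cast h0)
                exact_mod_cast (show L ≤ x by rw [hLd]; exact Nat.div_le_self _ _)
              linarith
          · rw [sum_const, nsmul_eq_mul, mul_one]
            exact hcard
      · rw [sum_const, nsmul_eq_mul]
        calc _ ≤ (L : ℝ) * (2 * (√x * ℓ)) := mul_le_mul_of_nonneg_right hcard (by positivity)
          _ = _ := by ring
    · have h1 : ∀ l ∈ ((Icc 1 L).filter (fun l => a.Coprime l)).filter (fun l => ¬ (a + l * b).Coprime (l * R)),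
          |Gh z (h l) (l * R) (a + l * b)| ≤ 3 * ℓ ^ 2 := by
        intro l hl
        rw [mem_filter] at hl
        exact hnc l hl.1 hl.2
      refine (sum_le_sum h1).trans ?_
      rw [sum_const, nsmul_eq_mul]
      apply mul_le_mul_of_nonneg_right _ (by positivity)
      have := card_le_card ((filter_subset (fun l => ¬ (a + l * b).Coprime (l * R)) ((Icc 1 L).filter (fun l => a.Coprime l))).trans (filter_subset _ _))
      rw [Nat.card_Icc, Nat.add_sub_cancel] at this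
      exact_mod_cast this
  refine hmain.trans ?_
  rw [sum_const, nsmul_eq_mul, Nat.card_Icc, Nat.add_sub_cancel]
  have t1 : ((x / g : ℕ) : ℝ) * (x / ℓ ^ (B4 + A + 3)) ≤ 2 * (x / ℓ ^ (A + 3)) := by
    have h1 : ((x / g : ℕ) : ℝ) ≤ 2 * ℓ ^ B4 := by
      refine Nat.cast_div_le.trans ?_
      rw [div_le_iff₀ (by linarith)]
      rw [div_le_iff₀ (by positivity)] at hg3
      linarith
    calc ((x / g : ℕ) : ℝ) * (x / ℓ ^ (B4 + A + 3)) ≤ (2 * ℓ ^ B4) * (x / ℓ ^ (B4 + A + 3)) := by gcongr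
      _ = _ := by
          rw [show B4 + A + 3 = B4 + (A + 3) by ring, pow_add ℓ B4]
          field_simp
  have t2 : ℓ * (g * (2 * ℓ) + L) ≤ 2 * (x / ℓ ^ (A + 2)) + x / ℓ ^ (A + 3) := by
    have h1 : ℓ * (g * (2 * ℓ)) ≤ 2 * (x / ℓ ^ (A + 2)) := by
      calc ℓ * (g * (2 * ℓ)) ≤ ℓ * ((x / ℓ ^ B4) * (2 * ℓ)) := by gcongr
        _ = _ := by
            rw [hB4, show A + 4 = (A + 2) + 2 by ring, pow_add ℓ (A + 2)]
            field_simp
    have h2 : ℓ * (L : ℝ) ≤ x / ℓ ^ (A + 3) := by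
      rw [le_div_iff₀ (by positivity)]
      calc ℓ * (L : ℝ) * ℓ ^ (A + 3) = L * ℓ ^ (A + 4) := by ring
        _ ≤ x := hLl2 _ (by omega)
    linarith
  have t3 : 2 * ((L : ℝ) * √x * ℓ) ≤ 2 * (x / ℓ ^ (A + 3)) := by
    apply mul_le_mul_of_nonneg_left _ (by norm_num)
    rw [le_div_iff₀ (by positivity)]
    calc (L : ℝ) * √x * ℓ * ℓ ^ (A + 3) = L * √x * ℓ ^ (A + 4) := by ring
      _ ≤ x := hLl _ (by omega)
  have t4 : (L : ℝ) * (3 * ℓ ^ 2) ≤ 3 * (x / ℓ ^ (A + 3)) := by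
    have h2 : (L : ℝ) * ℓ ^ 2 ≤ x / ℓ ^ (A + 3) := by
      rw [le_div_iff₀ (by positivity)]
      calc (L : ℝ) * ℓ ^ 2 * ℓ ^ (A + 3) = L * ℓ ^ (A + 5) := by ring
        _ ≤ x := hLl2 _ (by omega)
    linarith
  have hX : 0 < (x : ℝ) / ℓ ^ A := by positivity
  have t5 : (x : ℝ) / ℓ ^ (A + 2) ≤ 1 / 20000 * (x / ℓ ^ A) := by
    have h1 : (x : ℝ) / ℓ ^ (A + 2) = 1 / ℓ ^ 2 * (x / ℓ ^ A) := by rw [pow_add]; field_simp
    rw [h1]
    apply mul_le_mul_of_nonneg_right _ hX.le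
    apply one_div_le_one_div_of_le (by norm_num)
    nlinarith
  have t6 : (x : ℝ) / ℓ ^ (A + 3) ≤ 1 / 20000 * (x / ℓ ^ A) := by
    have h1 : (x : ℝ) / ℓ ^ (A + 3) ≤ x / ℓ ^ (A + 2) := by
      apply div_le_div_of_nonneg_left hx0.le (by positivity)
      exact hℓp _ _ (by omega)
    linarith
  linarith

end Pool.Agent.W5h32.PM
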