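import Mathlib
import Pool.Agent.W5h32.PM.Base

/-! The base case: no phase, moduli in a progression with a small difference. -/

set_option autoImplicit false

namespace Pool.Agent.W5h32.PM
open Finset
open Pool.Agent.H373R2.T7 (vaughan_gen pz Vz lamz mem_pz Vz_pos bonf_ind sum_small_le es es_le prod_dvd_iff prod_le_pow sum_pz_le
  choice ev_L' Vz_inv_small lamz_nonneg)
open Pool.Agent.W93.LV (Su nc_lam nc_model)

/-- the indicator function of a residue class -/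
noncomputable def cl (R b q : ℕ) : ℂ := if q % R = b % R then 1 else 0

lemma cl_norm (R b q : ℕ) : ‖cl R b q‖ ≤ 1 := by
  unfold cl
  split_ifs
  · rw [norm_one]
  · rw [norm_zero]; exact zero_le_one

lemma cl_sum_plus (g : ℕ → ℝ) (A B a l b R : ℕ) (hl : 1 ≤ l) (ha : a ≤ A) :
    ∑ n ∈ Ioc A B, ((g n : ℝ) : ℂ) * (if n % l = a % l then cl R b ((n - a) / l) else 0) =
      ((∑ n ∈ (Ioc A B).filter (fun n => n % (l * R) = (a + l * b) % (l * R)), g n : ℝ) : ℂ) := by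
  rw [sum_filter]
  push_cast
  apply sum_congr rfl
  intro n hn
  rw [mem_Ioc] at hn
  have h := cls_plus n a l b R hl (by omega)
  unfold cl
  by_cases h1 : n % l = a % l
  · by_cases h2 : ((n - a) / l) % R = b % R
    · rw [if_pos h1, if_pos h2, if_pos (h.1 ⟨h1, h2⟩), mul_one]
    · rw [if_pos h1, if_neg h2, if_neg (fun h3 => h2 (h.2 h3).2)]
      push_cast; ring
  · rw [if_neg h1, if_neg (fun h3 => h1 (h.2 h3).1)]
    push_cast; ring

lemma cl_sum_minus (g : ℕ → ℝ) (A B a l b R : ℕ) (hl : 1 ≤ l) (hR : 1 ≤ R) (hB : B ≤ a) :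
    ∑ n ∈ Ioc A B, ((g n : ℝ) : ℂ) * (if n % l = a % l then cl R b ((a - n) / l) else 0) =
      ((∑ n ∈ (Ioc A B).filter (fun n => n % (l * R) = (a + l * (R - b % R)) % (l * R)), g n : ℝ) : ℂ) := by
  rw [sum_filter]
  push_cast
  apply sum_congr rfl
  intro n hn
  rw [mem_Ioc] at hn
  have h := cls_minus n a l b R hl hR (by omega)
  unfold cl
  by_cases h1 : n % l = a % l
  · by_cases h2 : ((a - n) / l) % R = b % R
    · rw [if_pos h1, if_pos h2, if_pos (h.1 ⟨h1, h2⟩), mul_one]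
    · rw [if_pos h1, if_neg h2, if_neg (fun h3 => h2 (h.2 h3).2)]
      push_cast; ring
  · rw [if_neg h1, if_neg (fun h3 => h1 (h.2 h3).1)]
    push_cast; ring

theorem base (ε : ℝ) (hε : 0 < ε) (A B : ℕ) : ∃ E0 : ℕ, ∀ E : ℕ, ∃ x0 : ℕ, ∀ x : ℕ, x0 ≤ x →
    ∀ z : ℕ, Real.log x ^ E0 ≤ z → (z : ℝ) ≤ Real.log x ^ E →
    ∀ (a y Q1 Q2 R b : ℕ), 1 ≤ a → a ≤ x → y ≤ x → (x : ℝ) ^ (2 / 3 + ε) ≤ Q1 → 1 ≤ R → (R : ℝ) ≤ Real.log x ^ B →
    ‖∑ q ∈ Ioc Q1 Q2, cl R b q * ((Su (Fz z) y q a : ℝ) : ℂ)‖ ≤ x / Real.log x ^ A := by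
  obtain ⟨E0', hbv⟩ := bv_h ε hε (A + 1) B
  refine ⟨E0' + A + 5, fun E => ?_⟩
  obtain ⟨n0, h0⟩ := hbv E
  obtain ⟨n1, hV⟩ := Vz_inv_small E
  obtain ⟨n3, hL⟩ := ev_L' 20000
  obtain ⟨n4, hp1⟩ := pow_small (1 / 3) 1 (by norm_num) (A + 5)
  refine ⟨max (max n0 n1) (max (max n3 n4) 3), fun x hx z hz1 hzE a y Q1 Q2 R b ha hax hyx hQ1 hR hRB => ?_⟩
  have g0 : n0 ≤ x := le_trans (le_trans (le_max_left _ _) (le_max_left _ _)) hx
  have g1 : n1 ≤ x := le_trans (le_trans (le_max_right _ _) (le_max_left _ _)) hx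
  have g3 : n3 ≤ x := le_trans (le_trans (le_trans (le_max_left _ _) (le_max_left _ _)) (le_max_right _ _)) hx
  have g4 : n4 ≤ x := le_trans (le_trans (le_trans (le_max_right _ _) (le_max_left _ _)) (le_max_right _ _)) hx
  have g7 : 3 ≤ x := le_trans (le_trans (le_max_right _ _) (le_max_right _ _)) hx
  have hLx := hL x g3
  have hx0 : (0 : ℝ) < x := by exact_mod_cast (by omega : 0 < x)
  have hx1 : (1 : ℝ) ≤ x := by exact_mod_cast (by omega : 1 ≤ x)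
  have hz : 1 ≤ z := by
    have h2 : (1 : ℝ) ≤ z := le_trans (one_le_pow₀ (by linarith)) hz1
    exact_mod_cast h2
  have hV' := hV x g1 z hz hzE
  have hp1' := hp1 x g4
  rw [one_mul] at hp1'
  have h0' := h0 x g0 z (le_trans (pow_le_pow_right₀ (by linarith) (by omega)) hz1) hzE a Q1 R
  have hz1' : Real.log x ^ (A + 5) ≤ z := le_trans (pow_le_pow_right₀ (by linarith) (by omega)) hz1
  have hQ1r : (1 : ℝ) ≤ Q1 := le_trans (Real.one_le_rpow hx1 (by positivity)) hQ1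
  have hQ0 : (0 : ℝ) < Q1 := by linarith
  have hQ1n : 1 ≤ Q1 := by exact_mod_cast hQ1r
  obtain ⟨L, hLd⟩ : ∃ L, L = x / Q1 := ⟨_, rfl⟩
  rw [← hLd] at h0'
  have hLQ : (L : ℝ) * Q1 ≤ x := by
    have : L * Q1 ≤ x := by rw [hLd]; exact Nat.div_mul_le_self x Q1
    exact_mod_cast this
  have hLxn : L ≤ x := by rw [hLd]; exact Nat.div_le_self x Q1
  have hLpow : (L : ℝ) ≤ (x : ℝ) ^ (1 / 3 : ℝ) := by
    have h2 : (L : ℝ) * Q1 ≤ (x : ℝ) ^ (1 / 3 : ℝ) * Q1 := by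
      calc (L : ℝ) * Q1 ≤ x := hLQ
        _ = (x : ℝ) ^ (1 / 3 : ℝ) * (x : ℝ) ^ (2 / 3 : ℝ) := by
            rw [← Real.rpow_add hx0]; norm_num
        _ ≤ (x : ℝ) ^ (1 / 3 : ℝ) * (x : ℝ) ^ (2 / 3 + ε) := by
            apply mul_le_mul_of_nonneg_left _ (by positivity)
            exact Real.rpow_le_rpow_of_exponent_le hx1 (by linarith)
        _ ≤ _ := by gcongr
    exact le_of_mul_le_mul_right h2 hQ0
  rw [T_switch (Fz z) (cl R b) y a x Q1 Q2 hQ1n hax hyx, ← hLd]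
  set A1 : ℕ → ℕ := fun l => a + l * Q1 with hA1
  set B1 : ℕ → ℕ := fun l => min (a + l * Q2) y with hB1
  set A2 : ℕ → ℕ := fun l => a - l * Q2 - 1 with hA2
  set B2 : ℕ → ℕ := fun l => min (a - l * Q1 - 1) y with hB2
  have hcB1 : ∀ l ∈ Icc 1 L, B1 l ≤ x ∧ (a ≤ A1 l ∨ B1 l < a) := by
    intro l _
    exact ⟨(min_le_right _ _).trans hyx, Or.inl (Nat.le_add_right _ _)⟩
  have hcB2 : ∀ l ∈ Icc 1 L, B2 l ≤ x ∧ (a ≤ A2 l ∨ B2 l < a) := by
    intro l _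
    refine ⟨(min_le_right _ _).trans hyx, Or.inr ?_⟩
    have : B2 l ≤ a - l * Q1 - 1 := min_le_left _ _
    omega
  -- the coprime divisors
  have hgen : ∀ (Al Bl : ℕ → ℕ) (b' : ℕ), (∀ l, Bl l ≤ x) →
      ∑ l ∈ (Icc 1 L).filter (fun l => a.Coprime l), |∑ n ∈ (Ioc (Al l) (Bl l)).filter (fun n => n % (l * R) = (a + l * b') % (l * R)), Fz z n| ≤
        x / Real.log x ^ (A + 1) + x / Real.log x ^ (A + 1) := by
    intro Al Bl b' hBx
    have r1 := h0' b' hQ1 hR hRB Bl hBx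
    have r2 := h0' b' hQ1 hR hRB (fun l => if Al l ≤ Bl l then Al l else 0) (by
      intro l
      show (if Al l ≤ Bl l then Al l else 0) ≤ x
      split_ifs with h
      · exact h.trans (hBx l)
      · omega)
    refine le_trans ?_ (add_le_add r1 r2)
    rw [← sum_add_distrib]
    apply sum_le_sum
    intro l _
    by_cases h : Al l ≤ Bl l
    · simp only [if_pos h]
      exact Gh_Ioc_abs z (Al l) (Bl l) (l * R) (a + l * b')
    · rw [Ioc_eq_empty_of_le (by omega), filter_empty, sum_empty, abs_zero]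
      positivity
  have r1 := hgen A1 B1 b (fun l => (min_le_right _ _).trans hyx)
  have r2 := hgen A2 B2 (R - b % R) (fun l => (min_le_right _ _).trans hyx)
  have n1' := nc_sum z L a x hz ha hax hLxn A1 B1 (fun l n => cl R b ((n - a) / l)) (fun l n => cl_norm _ _ _) hcB1 hV' (by linarith)
  have n2' := nc_sum z L a x hz ha hax hLxn A2 B2 (fun l n => cl R b ((a - n) / l)) (fun l n => cl_norm _ _ _) hcB2 hV' (by linarith)
  obtain ⟨ℓ, hℓ⟩ : ∃ ℓ, ℓ = Real.log x := ⟨_, rfl⟩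
  rw [← hℓ] at hV' hLx hp1' hz1' r1 r2 n1' n2' ⊢
  have hℓ1 : 1 ≤ ℓ := by linarith
  have hℓ0 : 0 < ℓ := by linarith
  have s1 : ‖∑ l ∈ Icc 1 L, ∑ n ∈ Ioc (A1 l) (B1 l), ((Fz z n : ℝ) : ℂ) * (if n % l = a % l then cl R b ((n - a) / l) else 0)‖ ≤
      (x / ℓ ^ (A + 1) + x / ℓ ^ (A + 1)) + (6 * L * ℓ ^ 3 + 6 * ℓ ^ 3 * (x / z)) := by
    refine (norm_sum_le _ _).trans ?_
    rw [← sum_filter_add_sum_filter_not (Icc 1 L) (fun l => a.Coprime l)]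
    apply add_le_add _ n1'
    refine le_trans (le_of_eq ?_) r1
    apply sum_congr rfl
    intro l hl
    rw [mem_filter, mem_Icc] at hl
    rw [cl_sum_plus (Fz z) (A1 l) (B1 l) a l b R hl.1.1 (Nat.le_add_right _ _), Complex.norm_real, Real.norm_eq_abs]
  have s2 : ‖∑ l ∈ Icc 1 L, ∑ n ∈ Ioc (A2 l) (B2 l), ((Fz z n : ℝ) : ℂ) * (if n % l = a % l then cl R b ((a - n) / l) else 0)‖ ≤
      (x / ℓ ^ (A + 1) + x / ℓ ^ (A + 1)) + (6 * L * ℓ ^ 3 + 6 * ℓ ^ 3 * (x / z)) := by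
    refine (norm_sum_le _ _).trans ?_
    rw [← sum_filter_add_sum_filter_not (Icc 1 L) (fun l => a.Coprime l)]
    apply add_le_add _ n2'
    refine le_trans (le_of_eq ?_) r2
    apply sum_congr rfl
    intro l hl
    rw [mem_filter, mem_Icc] at hl
    have hBa : B2 l ≤ a := by
      have : B2 l ≤ a - l * Q1 - 1 := min_le_left _ _
      omega
    rw [cl_sum_minus (Fz z) (A2 l) (B2 l) a l b R hl.1.1 hR hBa, Complex.norm_real, Real.norm_eq_abs]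
  refine (norm_add_le _ _).trans ((add_le_add s1 s2).trans ?_)
  have hz0 : (0 : ℝ) < z := by exact_mod_cast hz
  have t1 : 6 * (L : ℝ) * ℓ ^ 3 ≤ 6 * (x / ℓ ^ (A + 2)) := by
    have h2 : (L : ℝ) * ℓ ^ (A + 5) ≤ x := by
      calc (L : ℝ) * ℓ ^ (A + 5) ≤ (x : ℝ) ^ (1 / 3 : ℝ) * (x : ℝ) ^ (1 / 3 : ℝ) := by gcongr
        _ ≤ (x : ℝ) ^ (1 / 3 : ℝ) * (x : ℝ) ^ (2 / 3 : ℝ) := by
            apply mul_le_mul_of_nonneg_left _ (by positivity)
            exact Real.rpow_le_rpow_of_exponent_le hx1 (by norm_num)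
        _ = x := by rw [← Real.rpow_add hx0]; norm_num
    have h3 : (L : ℝ) * ℓ ^ 3 ≤ x / ℓ ^ (A + 2) := by
      rw [le_div_iff₀ (by positivity)]
      calc (L : ℝ) * ℓ ^ 3 * ℓ ^ (A + 2) = L * ℓ ^ (A + 5) := by ring
        _ ≤ _ := h2
    linarith
  have t2 : 6 * ℓ ^ 3 * ((x : ℝ) / z) ≤ 6 * (x / ℓ ^ (A + 2)) := by
    calc 6 * ℓ ^ 3 * ((x : ℝ) / z) ≤ 6 * ℓ ^ 3 * (x / ℓ ^ (A + 5)) := by gcongr
      _ = _ := by
          rw [show A + 5 = (A + 2) + 3 by ring, pow_add ℓ (A + 2) 3]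
          field_simp
  have t3 : (x : ℝ) / ℓ ^ (A + 2) = 1 / ℓ * (x / ℓ ^ (A + 1)) := by
    rw [show A + 2 = (A + 1) + 1 by ring, pow_succ ℓ (A + 1)]
    field_simp
  have t4 : (x : ℝ) / ℓ ^ (A + 1) = 1 / ℓ * (x / ℓ ^ A) := by
    rw [pow_succ ℓ A]
    field_simp
  have hX : 0 < (x : ℝ) / ℓ ^ A := by positivity
  have t5 : 1 / ℓ ≤ 1 / 20000 := one_div_le_one_div_of_le (by norm_num) hLx
  have t6 : 0 < 1 / ℓ := by positivity
  rw [t3] at t1 t2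
  have t7 : 1 / ℓ * ((x : ℝ) / ℓ ^ (A + 1)) ≤ x / ℓ ^ (A + 1) := by
    have : 0 < (x : ℝ) / ℓ ^ (A + 1) := by positivity
    nlinarith
  have t8 : (x : ℝ) / ℓ ^ (A + 1) ≤ 1 / 20000 * (x / ℓ ^ A) := by
    rw [t4]
    exact mul_le_mul_of_nonneg_right t5 hX.le
  linarith

end Pool.Agent.W5h32.PM
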