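import Mathlib
import Pool.Agent.W5h32.PM.Base2

/-! Polynomial phases in the modulus: induction on the degree. -/

set_option autoImplicit false

namespace Pool.Agent.W5h32.PM
open Finset Polynomial
open Pool.Agent.Helper602.MK (ee)
open Pool.Agent.Helper602.MK.N_J5b (ee_add ee_zero ee_conj norm_ee ee_int ee_nat_mul ee_add_int ee_eq ee_eq_one_iff)
open Pool.Agent.H373R2.T7 (Vz lamz mem_pz Vz_pos choice ev_L' Vz_inv_small lamz_nonneg)
open Pool.Agent.W93.LV (Su)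

/-- the bound for polynomials of degree at most `k` -/
def SP (k : ℕ) : Prop := ∀ ε : ℝ, 0 < ε → ∀ A B : ℕ, ∃ E0 : ℕ, ∀ E : ℕ, ∃ x0 : ℕ, ∀ x : ℕ, x0 ≤ x →
    ∀ z : ℕ, Real.log x ^ E0 ≤ z → (z : ℝ) ≤ Real.log x ^ E →
    ∀ (a y Q1 Q2 R b : ℕ) (P : ℝ[X]), 1 ≤ a → a ≤ x → y ≤ x → P.natDegree ≤ k → (x : ℝ) ^ (2 / 3 + ε) ≤ Q1 →
    (Q2 : ℝ) ≤ (x : ℝ) ^ (1 - ε) → 1 ≤ R → (R : ℝ) ≤ Real.log x ^ B →
    ‖∑ q ∈ Ioc Q1 Q2, ee (P.eval (q : ℝ)) * cl R b q * ((Su (Fz z) y q a : ℝ) : ℂ)‖ ≤ x / Real.log x ^ A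

theorem SP_zero : SP 0 := by
  intro ε hε A B
  obtain ⟨E0, h0⟩ := base ε hε A B
  refine ⟨E0, fun E => ?_⟩
  obtain ⟨x0, h1⟩ := h0 E
  refine ⟨x0, fun x hx z hz1 hz2 a y Q1 Q2 R b P ha hax hyx hP hQ1 hQ2 hR hRB => ?_⟩
  have h2 := h1 x hx z hz1 hz2 a y Q1 Q2 R b ha hax hyx hQ1 hR hRB
  have h3 : P = C (P.coeff 0) := eq_C_of_natDegree_le_zero hP
  have h4 : ∑ q ∈ Ioc Q1 Q2, ee (P.eval (q : ℝ)) * cl R b q * ((Su (Fz z) y q a : ℝ) : ℂ) =
      ee (P.coeff 0) * ∑ q ∈ Ioc Q1 Q2, cl R b q * ((Su (Fz z) y q a : ℝ) : ℂ) := by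
    rw [mul_sum]
    apply sum_congr rfl
    intro q _
    have h5 : P.eval (q : ℝ) = P.coeff 0 := by
      conv_lhs => rw [h3]
      rw [eval_C]
    rw [h5, mul_assoc]
  rw [h4, norm_mul, norm_ee, one_mul]
  exact h2

/-- additive characters -/
lemma cl_eq (R b q : ℕ) (hR : 1 ≤ R) :
    cl R b q = (1 / (R : ℂ)) * ∑ j ∈ range R, ee ((j : ℝ) * (((q : ℝ) - b) / R)) := by
  have hR0 : (R : ℝ) ≠ 0 := by exact_mod_cast (by omega : R ≠ 0)
  have hRc : (R : ℂ) ≠ 0 := by exact_mod_cast (by omega : R ≠ 0)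
  have hiff : (ee (((q : ℝ) - b) / R) = 1) ↔ q % R = b % R := by
    rw [ee_eq_one_iff]
    constructor
    · rintro ⟨n, hn⟩
      rw [div_eq_iff hR0] at hn
      have h1 : ((q : ℤ) : ℝ) - ((b : ℤ) : ℝ) = ((n * R : ℤ) : ℝ) := by push_cast; linarith
      have h2 : (q : ℤ) - b = n * R := by exact_mod_cast h1
      have h3 : (b : ℤ) ≡ q [ZMOD R] := by
        rw [Int.modEq_iff_dvd, h2]
        exact dvd_mul_left _ _
      exact ((Int.natCast_modEq_iff).1 h3).symm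
    · intro h
      have h1 : (b : ℤ) ≡ q [ZMOD R] := (Int.natCast_modEq_iff).2 (by unfold Nat.ModEq; exact h.symm)
      rw [Int.modEq_iff_dvd] at h1
      obtain ⟨n, hn⟩ := h1
      refine ⟨n, ?_⟩
      rw [div_eq_iff hR0]
      have h2 : (((q : ℤ) - b : ℤ) : ℝ) = ((R * n : ℤ) : ℝ) := by rw [hn]
      push_cast at h2
      linarith
  have h1 : ∀ j ∈ range R, ee ((j : ℝ) * (((q : ℝ) - b) / R)) = ee (((q : ℝ) - b) / R) ^ j := by
    intro j _
    rw [ee_nat_mul]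
  rw [sum_congr rfl h1]
  unfold cl
  split_ifs with h
  · rw [hiff.2 h]
    simp only [one_pow, sum_const, card_range, nsmul_eq_mul, mul_one]
    field_simp
  · have h2 : ee (((q : ℝ) - b) / R) ≠ 1 := fun h' => h (hiff.1 h')
    have h3 : ee (((q : ℝ) - b) / R) ^ R = 1 := by
      rw [← ee_nat_mul]
      have : (R : ℝ) * (((q : ℝ) - b) / R) = (((q : ℤ) - b : ℤ) : ℝ) := by
        push_cast
        field_simp
      rw [this, ee_int]
    rw [geom_sum_eq h2, h3, sub_self, zero_div, mul_zero]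

lemma cl_sum (R q : ℕ) (hR : 1 ≤ R) : ∑ b ∈ range R, cl R b q = 1 := by
  have h1 : q % R ∈ range R := mem_range.2 (Nat.mod_lt _ hR)
  rw [sum_eq_single_of_mem (q % R) h1]
  · unfold cl
    rw [if_pos (Nat.mod_mod _ _).symm]
  · intro b hb hne
    unfold cl
    rw [if_neg]
    intro h
    rw [mem_range] at hb
    rw [Nat.mod_eq_of_lt hb] at h
    exact hne h.symm

lemma cl_norm_sum (R q : ℕ) (hR : 1 ≤ R) : ∑ b ∈ range R, ‖cl R b q‖ = 1 := by
  have h1 : ∀ b, ((‖cl R b q‖ : ℝ) : ℂ) = cl R b q := by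
    intro b
    unfold cl
    split_ifs
    · rw [norm_one]; norm_num
    · rw [norm_zero]; norm_num
  have h2 : ((∑ b ∈ range R, ‖cl R b q‖ : ℝ) : ℂ) = 1 := by
    push_cast
    rw [sum_congr rfl fun b _ => h1 b]
    exact cl_sum R q hR
  exact_mod_cast h2

/-- from short blocks to intervals -/
lemma blocks (G : ℕ → ℂ) (g : ℕ → ℝ) (M X H : ℕ) (b : ℝ) (hb : 0 ≤ b) (hg : ∀ n, 0 ≤ g n)
    (h : ∀ c c', M ≤ c → c ≤ c' → c' ≤ c + H → c' ≤ X → ‖∑ n ∈ Ioc c c', G n‖ ≤ b + ∑ n ∈ Ioc c c', g n) :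
    ∀ j A B : ℕ, M ≤ A → B ≤ X → B ≤ A + j * H → ‖∑ n ∈ Ioc A B, G n‖ ≤ j * b + ∑ n ∈ Ioc A B, g n := by
  intro j
  induction j with
  | zero =>
    intro A B _ _ hB
    rw [zero_mul, add_zero] at hB
    rw [Ioc_eq_empty_of_le hB, sum_empty, norm_zero, sum_empty]
    simp
  | succ j ih =>
    intro A B hA hX hB
    push_cast
    have hj0 : (0 : ℝ) ≤ j * b := by positivity
    rcases le_or_gt B (A + H) with h1 | h1
    · rcases le_or_gt A B with h2 | h2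
      · have := h A B hA h2 h1 hX
        linarith
      · rw [Ioc_eq_empty_of_le h2.le, sum_empty, norm_zero, sum_empty]
        positivity
    · rw [← sum_Ioc_consecutive G (show A ≤ A + H by omega) h1.le, ← sum_Ioc_consecutive g (show A ≤ A + H by omega) h1.le]
      have h3 := h A (A + H) hA (by omega) le_rfl (by omega)
      have h4 := ih (A + H) B (by omega) hX (by
        have : (j + 1) * H = j * H + H := by ring
        omega)
      refine (norm_add_le _ _).trans ?_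
      linarith

lemma ee_sub_one (t : ℝ) : ‖ee t - 1‖ ≤ 7 * |t| := by
  rw [ee_eq]
  have h1 : ‖Complex.exp (((2 * Real.pi * t : ℝ) : ℂ) * Complex.I) - 1‖ ≤ |2 * Real.pi * t| := by
    have := Real.norm_exp_I_mul_ofReal_sub_one_le (x := 2 * Real.pi * t)
    rw [mul_comm Complex.I] at this
    exact this
  refine h1.trans ?_
  rw [abs_mul, abs_of_pos (by positivity : 0 < 2 * Real.pi)]
  have := Real.pi_lt_d2
  have h2 := abs_nonneg t
  nlinarith

/-- the trivial bound for the sum over the moduli -/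
lemma Su_triv (z x y a Q1 Q2 : ℕ) (hyx : y ≤ x) (hV : (Vz z)⁻¹ ≤ Real.log x) (hQ1 : 1 ≤ Q1) (hQx : Q1 ≤ x) (hQ2 : Q2 ≤ 2 * Q1) :
    ∑ q ∈ Ioc Q1 Q2, |Su (Fz z) y q a| ≤ 2 * x * Real.log x := by
  have hL : 0 ≤ Real.log x := Real.log_natCast_nonneg x
  have hQ0 : (0 : ℝ) < Q1 := by exact_mod_cast hQ1
  have h1 : ∀ q ∈ Ioc Q1 Q2, |Su (Fz z) y q a| ≤ 2 * (x / Q1) * Real.log x := by
    intro q hq
    rw [mem_Ioc] at hq
    have hq0 : (0 : ℝ) < q := by exact_mod_cast (by omega : 0 < q)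
    have h2 : |Su (Fz z) y q a| ≤ (((Ioc 0 y).filter (fun u => u % q = a % q)).card : ℝ) * Real.log x := by
      unfold Su
      refine (abs_sum_le_sum_abs _ _).trans ?_
      refine (sum_le_sum (g := fun _ => Real.log x) (fun u hu => ?_)).trans ?_
      · rw [mem_filter, mem_filter, mem_Icc] at hu
        exact Fz_le z u x (hu.1.1.2.trans hyx) hV
      · rw [sum_const, nsmul_eq_mul]
        apply mul_le_mul_of_nonneg_right _ hL
        rw [Nat.cast_le]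
        apply card_le_card
        intro u hu
        rw [mem_filter, mem_filter, mem_Icc] at hu
        rw [mem_filter, mem_Ioc]
        exact ⟨⟨by omega, hu.1.1.2⟩, hu.1.2⟩
    refine h2.trans ?_
    apply mul_le_mul_of_nonneg_right _ hL
    obtain ⟨l1, n, hn, -, -, hset⟩ := ap_param q a 0 y (by omega) (Nat.zero_le _)
    rw [hset]
    have g1 : (((range n).image (fun s => l1 + q * s)).card : ℝ) ≤ n := by
      have := card_image_le (s := range n) (f := fun s => l1 + q * s)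
      rw [card_range] at this
      exact_mod_cast this
    refine g1.trans (hn.trans ?_)
    push_cast
    have hqQ : (Q1 : ℝ) ≤ q := by exact_mod_cast hq.1.le
    have hyr : (y : ℝ) ≤ x := by exact_mod_cast hyx
    have g2 : ((y : ℝ) - 0) / q ≤ x / Q1 := by
      rw [sub_zero]
      calc (y : ℝ) / q ≤ x / q := div_le_div_of_nonneg_right hyr hq0.le
        _ ≤ x / Q1 := div_le_div_of_nonneg_left (Nat.cast_nonneg _) hQ0 hqQ
    have g3 : 1 ≤ (x : ℝ) / Q1 := by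
      rw [le_div_iff₀ hQ0, one_mul]
      exact_mod_cast hQx
    linarith
  refine (sum_le_sum h1).trans ?_
  rw [sum_const, Nat.card_Ioc, nsmul_eq_mul]
  have h2 : ((Q2 - Q1 : ℕ) : ℝ) ≤ Q1 := by exact_mod_cast (by omega : Q2 - Q1 ≤ Q1)
  calc ((Q2 - Q1 : ℕ) : ℝ) * (2 * (x / Q1) * Real.log x) ≤ Q1 * (2 * (x / Q1) * Real.log x) := by gcongr
    _ = _ := by field_simp

/-- dyadic intervals without a residue class, degree `k + 1` -/
lemma step (k : ℕ) (hk : SP k) (ε : ℝ) (hε : 0 < ε) (A : ℕ) : ∃ E0 : ℕ, ∀ E : ℕ, ∃ x0 : ℕ, ∀ x : ℕ, x0 ≤ x →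
    ∀ z : ℕ, Real.log x ^ E0 ≤ z → (z : ℝ) ≤ Real.log x ^ E →
    ∀ (a y Q1 Q2 : ℕ) (P : ℝ[X]), 1 ≤ a → a ≤ x → y ≤ x → P.natDegree ≤ k + 1 → (x : ℝ) ^ (2 / 3 + ε) ≤ Q1 →
    Q1 ≤ Q2 → Q2 ≤ 2 * Q1 → (Q2 : ℝ) ≤ (x : ℝ) ^ (1 - ε) →
    ‖∑ q ∈ Ioc Q1 Q2, ee (P.eval (q : ℝ)) * ((Su (Fz z) y q a : ℝ) : ℂ)‖ ≤ x / Real.log x ^ A := by
  obtain ⟨B1, hB1⟩ := nonmajT (k + 1) (by omega) ε hε A
  obtain ⟨B3, hB3⟩ : ∃ B3, B3 = B1 + A + 3 := ⟨_, rfl⟩
  obtain ⟨B2, hB2⟩ : ∃ B2, B2 = B1 + (k + 1).factorial := ⟨_, rfl⟩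
  obtain ⟨E1, hE1⟩ := hk ε hε (B3 + B2 + A + 3) B2
  refine ⟨E1 + A + 5, fun E => ?_⟩
  obtain ⟨n0, h0⟩ := hB1 E
  obtain ⟨n1, h1⟩ := hE1 E
  obtain ⟨n2, hV⟩ := Vz_inv_small E
  obtain ⟨n3, hL⟩ := ev_L' 20000
  obtain ⟨n4, hp1⟩ := pow_small (2 / 3) 1 (by norm_num) (B3 + 2)
  refine ⟨max (max n0 n1) (max (max n2 n3) (max n4 3)), fun x hx z hz1 hzE a y Q1 Q2 P ha hax hyx hP hQ1 hQ12 hQ2 hQ2x => ?_⟩
  have g0 : n0 ≤ x := le_trans (le_trans (le_max_left _ _) (le_max_left _ _)) hx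
  have g1 : n1 ≤ x := le_trans (le_trans (le_max_right _ _) (le_max_left _ _)) hx
  have g2 : n2 ≤ x := le_trans (le_trans (le_trans (le_max_left _ _) (le_max_left _ _)) (le_max_right _ _)) hx
  have g3 : n3 ≤ x := le_trans (le_trans (le_trans (le_max_right _ _) (le_max_left _ _)) (le_max_right _ _)) hx
  have g4 : n4 ≤ x := le_trans (le_trans (le_trans (le_max_left _ _) (le_max_right _ _)) (le_max_right _ _)) hx
  have g7 : 3 ≤ x := le_trans (le_trans (le_trans (le_max_right _ _) (le_max_right _ _)) (le_max_right _ _)) hx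
  have hLx := hL x g3
  have hx0 : (0 : ℝ) < x := by exact_mod_cast (by omega : 0 < x)
  have hx1 : (1 : ℝ) ≤ x := by exact_mod_cast (by omega : 1 ≤ x)
  have hz : 1 ≤ z := by
    have h2 : (1 : ℝ) ≤ z := le_trans (one_le_pow₀ (by linarith)) hz1
    exact_mod_cast h2
  have hV' := hV x g2 z hz hzE
  have hp1' := hp1 x g4
  rw [one_mul] at hp1'
  have hQ1r : (1 : ℝ) ≤ Q1 := le_trans (Real.one_le_rpow hx1 (by positivity)) hQ1
  have hQ0 : (0 : ℝ) < Q1 := by linarith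
  have hQ1n : 1 ≤ Q1 := by exact_mod_cast hQ1r
  have hQ12r : (Q1 : ℝ) ≤ Q2 := by exact_mod_cast hQ12
  have hQ1x : Q1 ≤ x := by
    have h2 : (Q1 : ℝ) ≤ x := by
      calc (Q1 : ℝ) ≤ Q2 := hQ12r
        _ ≤ (x : ℝ) ^ (1 - ε) := hQ2x
        _ ≤ (x : ℝ) ^ (1 : ℝ) := Real.rpow_le_rpow_of_exponent_le hx1 (by linarith)
        _ = x := Real.rpow_one _
    exact_mod_cast h2
  have h0' := h0 x g0 z (le_trans (pow_le_pow_right₀ (by linarith) (by omega)) hz1) hzE a y Q1 Q2 P ha hax hyx hP hQ1 hQ2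
    (hQ12r.trans hQ2x)
  have h1' := h1 x g1 z (le_trans (pow_le_pow_right₀ (by linarith) (by omega)) hz1) hzE a y
  have htriv := Su_triv z x y a Q1 Q2 hyx hV' hQ1n hQ1x hQ2
  obtain ⟨ℓ, hℓ⟩ : ∃ ℓ, ℓ = Real.log x := ⟨_, rfl⟩
  rw [← hℓ] at hV' hLx hp1' hz1 h0' htriv ⊢
  simp only [← hℓ] at h1'
  have hℓ1 : 1 ≤ ℓ := by linarith
  have hℓ0 : 0 < ℓ := by linarith
  have hℓp : ∀ i j : ℕ, i ≤ j → ℓ ^ i ≤ ℓ ^ j := fun i j h => pow_le_pow_right₀ hℓ1 h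
  rcases h0' with h0' | h0'
  swap
  · exact h0'
  -- the major arc
  obtain ⟨r, hr1, hr2, b0, hb0⟩ := h0'
  obtain ⟨α, hα⟩ : ∃ α, α = P.coeff (k + 1) := ⟨_, rfl⟩
  rw [← hα] at hb0
  obtain ⟨R, hR⟩ : ∃ R, R = r * (k + 1).factorial := ⟨_, rfl⟩
  have hR1 : 1 ≤ R := by rw [hR]; exact Nat.mul_pos hr1 (Nat.factorial_pos _)
  have hR0 : (0 : ℝ) < R := by exact_mod_cast hR1
  have hR1r : (1 : ℝ) ≤ R := by exact_mod_cast hR1
  have hRB : (R : ℝ) ≤ ℓ ^ B2 := by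
    rw [hR, hB2, pow_add]
    push_cast
    apply mul_le_mul hr2 (two_pow_ge _ (by linarith)) (Nat.cast_nonneg _) (by positivity)
  obtain ⟨δ, hδ⟩ : ∃ δ, δ = α - b0 / R := ⟨_, rfl⟩
  have hδ1 : |δ| ≤ ℓ ^ B1 * (1 / (Q1 : ℝ)) ^ (k + 1) := by
    have h2 : δ = ((r : ℝ) * (((k + 1).factorial : ℝ) * α) - b0) / R := by
      rw [hδ, eq_div_iff hR0.ne', sub_mul, div_mul_cancel₀ _ hR0.ne', hR]
      push_cast
      ring
    rw [h2, abs_div, abs_of_pos hR0]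
    refine (div_le_self (abs_nonneg _) hR1r).trans hb0
  -- the length of the blocks
  obtain ⟨H, hH⟩ : ∃ H : ℕ, H = ⌊(Q1 : ℝ) / ℓ ^ B3⌋₊ := ⟨_, rfl⟩
  have hQ1l : ℓ ^ (B3 + 2) ≤ Q1 := by
    refine hp1'.trans (le_trans ?_ hQ1)
    exact Real.rpow_le_rpow_of_exponent_le hx1 (by linarith)
  have hH1 : (H : ℝ) ≤ Q1 / ℓ ^ B3 := by rw [hH]; exact Nat.floor_le (by positivity)
  have hH2 : (Q1 : ℝ) / ℓ ^ B3 ≤ 2 * H := by
    have h1 : (Q1 : ℝ) / ℓ ^ B3 < H + 1 := by rw [hH]; exact Nat.lt_floor_add_one _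
    have h2 : 2 ≤ (Q1 : ℝ) / ℓ ^ B3 := by
      rw [le_div_iff₀ (by positivity)]
      calc 2 * ℓ ^ B3 ≤ ℓ ^ 2 * ℓ ^ B3 := by
            apply mul_le_mul_of_nonneg_right _ (by positivity)
            nlinarith
        _ = ℓ ^ (B3 + 2) := by ring
        _ ≤ Q1 := hQ1l
    linarith
  have hH0 : (0 : ℝ) < H := by
    have : 0 < (Q1 : ℝ) / ℓ ^ B3 := by positivity
    linarith
  -- one block
  obtain ⟨Pk, hPk⟩ : ∃ Pk : ℝ[X], Pk = P - C α * X ^ (k + 1) := ⟨_, rfl⟩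
  have hPkd : Pk.natDegree ≤ k := by
    rw [natDegree_le_iff_coeff_eq_zero]
    intro j hj
    rw [hPk, coeff_sub, coeff_C_mul, coeff_X_pow]
    rcases Nat.lt_or_ge (k + 1) j with h2 | h2
    · rw [if_neg (by omega), mul_zero, sub_zero]
      exact coeff_eq_zero_of_natDegree_lt (by omega)
    · have : j = k + 1 := by omega
      rw [if_pos this, mul_one, this, hα, sub_self]
  obtain ⟨η, hη⟩ : ∃ η, η = 1 / ℓ ^ (A + 3) := ⟨_, rfl⟩
  have hη0 : 0 < η := by rw [hη]; positivity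
  have hblock : ∀ c c', Q1 ≤ c → c ≤ c' → c' ≤ c + H → c' ≤ Q2 →
      ‖∑ q ∈ Ioc c c', ee (P.eval (q : ℝ)) * ((Su (Fz z) y q a : ℝ) : ℂ)‖ ≤
      R * (x / ℓ ^ (B3 + B2 + A + 3)) + ∑ q ∈ Ioc c c', 7 * η * |Su (Fz z) y q a| := by
    intro c c' hc hcc' hcH hc'
    obtain ⟨W, hW⟩ : ∃ W : ℝ[X], W = X ^ (k + 1) - (X - C (c : ℝ)) ^ (k + 1) := ⟨_, rfl⟩
    have hWd : W.natDegree ≤ k := by
      have m1 : (X ^ (k + 1) : ℝ[X]).Monic := monic_X_pow _
      have m2 : ((X - C (c : ℝ)) ^ (k + 1) : ℝ[X]).Monic := (monic_X_sub_C _).pow _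
      have d1 : (X ^ (k + 1) : ℝ[X]).natDegree = k + 1 := natDegree_X_pow _
      have d2 : ((X - C (c : ℝ)) ^ (k + 1) : ℝ[X]).natDegree = k + 1 := by
        rw [natDegree_pow, natDegree_X_sub_C, mul_one]
      rw [natDegree_le_iff_coeff_eq_zero]
      intro j hj
      rw [hW, coeff_sub]
      rcases Nat.lt_or_ge (k + 1) j with h2 | h2
      · rw [coeff_eq_zero_of_natDegree_lt (by rw [d1]; exact h2), coeff_eq_zero_of_natDegree_lt (by rw [d2]; exact h2), sub_zero]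
      · have h3 : j = k + 1 := by omega
        have c1 : (X ^ (k + 1) : ℝ[X]).coeff j = 1 := by
          have := m1.coeff_natDegree
          rw [d1] at this
          rw [h3]; exact this
        have c2 : ((X - C (c : ℝ)) ^ (k + 1) : ℝ[X]).coeff j = 1 := by
          have := m2.coeff_natDegree
          rw [d2] at this
          rw [h3]; exact this
        rw [c1, c2, sub_self]
    obtain ⟨Pc, hPc⟩ : ∃ Pc : ℝ[X], Pc = Pk + C δ * W := ⟨_, rfl⟩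
    have hPcd : Pc.natDegree ≤ k := by
      rw [hPc]
      refine (natDegree_add_le _ _).trans (max_le hPkd ?_)
      exact (natDegree_C_mul_le _ _).trans hWd
    -- the phase on a residue class
    have hphase : ∀ q : ℕ, ∀ b : ℕ, q % R = b % R → ee (P.eval (q : ℝ)) =
        ee ((b0 : ℝ) * (b : ℝ) ^ (k + 1) / R) * ee (Pc.eval (q : ℝ)) * ee (δ * ((q : ℝ) - c) ^ (k + 1)) := by
      intro q b hqb
      have h2 : (R : ℤ) ∣ (q : ℤ) ^ (k + 1) - (b : ℤ) ^ (k + 1) := by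
        have h3 : (b : ℤ) ≡ q [ZMOD R] := (Int.natCast_modEq_iff).2 (by unfold Nat.ModEq; exact hqb.symm)
        exact (Int.modEq_iff_dvd).1 (h3.pow (k + 1))
      obtain ⟨m, hm⟩ := h2
      have h4 : (q : ℝ) ^ (k + 1) - (b : ℝ) ^ (k + 1) = R * m := by
        have : (((q : ℤ) ^ (k + 1) - (b : ℤ) ^ (k + 1) : ℤ) : ℝ) = ((R * m : ℤ) : ℝ) := by rw [hm]
        push_cast at this
        exact this
      have h5 : P.eval (q : ℝ) = (b0 : ℝ) * (b : ℝ) ^ (k + 1) / R + Pc.eval (q : ℝ) + δ * ((q : ℝ) - c) ^ (k + 1) + ((b0 * m : ℤ) : ℝ) := by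
        have h6 : P.eval (q : ℝ) = Pk.eval (q : ℝ) + α * (q : ℝ) ^ (k + 1) := by
          rw [hPk, eval_sub, eval_mul, eval_C, eval_pow, eval_X]; ring
        have h7 : Pc.eval (q : ℝ) = Pk.eval (q : ℝ) + δ * ((q : ℝ) ^ (k + 1) - ((q : ℝ) - c) ^ (k + 1)) := by
          rw [hPc, eval_add, eval_mul, eval_C, hW, eval_sub, eval_pow, eval_pow, eval_sub, eval_X, eval_C]
        have h8 : α = b0 / R + δ := by rw [hδ]; ring
        have h9 : (q : ℝ) ^ (k + 1) = (b : ℝ) ^ (k + 1) + R * m := by linarith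
        rw [h6, h7, h8]
        push_cast
        have h10 : (b0 : ℝ) / R * (q : ℝ) ^ (k + 1) = b0 * (b : ℝ) ^ (k + 1) / R + b0 * m := by
          rw [h9]; field_simp
        linear_combination h10
      rw [h5, ee_add_int, ee_add, ee_add]
    -- the classes
    have hcls : ∀ b : ℕ, ‖∑ q ∈ Ioc c c', ee (P.eval (q : ℝ)) * cl R b q * ((Su (Fz z) y q a : ℝ) : ℂ)‖ ≤
        x / ℓ ^ (B3 + B2 + A + 3) + ∑ q ∈ Ioc c c', ‖cl R b q‖ * (7 * η * |Su (Fz z) y q a|) := by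
      intro b
      have e1 : ∑ q ∈ Ioc c c', ee (P.eval (q : ℝ)) * cl R b q * ((Su (Fz z) y q a : ℝ) : ℂ) =
          ee ((b0 : ℝ) * (b : ℝ) ^ (k + 1) / R) * ∑ q ∈ Ioc c c', ee (Pc.eval (q : ℝ)) * cl R b q * ((Su (Fz z) y q a : ℝ) : ℂ) +
          ∑ q ∈ Ioc c c', ee ((b0 : ℝ) * (b : ℝ) ^ (k + 1) / R) * ee (Pc.eval (q : ℝ)) * (ee (δ * ((q : ℝ) - c) ^ (k + 1)) - 1) *
            cl R b q * ((Su (Fz z) y q a : ℝ) : ℂ) := by
        rw [mul_sum, ← sum_add_distrib]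
        apply sum_congr rfl
        intro q _
        by_cases h2 : q % R = b % R
        · rw [hphase q b h2]; ring
        · unfold cl
          rw [if_neg h2]; ring
      rw [e1]
      refine (norm_add_le _ _).trans (add_le_add ?_ ?_)
      · rw [norm_mul, norm_ee, one_mul]
        exact h1' c c' R b Pc ha hax hyx hPcd (hQ1.trans (by exact_mod_cast hc)) (le_trans (by exact_mod_cast hc') hQ2x) hR1 hRB
      · refine (norm_sum_le _ _).trans (sum_le_sum fun q hq => ?_)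
        rw [mem_Ioc] at hq
        rw [norm_mul, norm_mul, norm_mul, norm_mul, norm_ee, norm_ee, one_mul, one_mul, Complex.norm_real, Real.norm_eq_abs]
        have h3 : ‖ee (δ * ((q : ℝ) - c) ^ (k + 1)) - 1‖ ≤ 7 * η := by
          refine (ee_sub_one _).trans ?_
          apply mul_le_mul_of_nonneg_left _ (by norm_num)
          have h4 : 0 ≤ (q : ℝ) - c := by
            have : (c : ℝ) ≤ q := by exact_mod_cast hq.1.le
            linarith
          have h5 : (q : ℝ) - c ≤ H := by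
            have : (q : ℝ) ≤ ((c + H : ℕ) : ℝ) := by exact_mod_cast hq.2.trans hcH
            push_cast at this
            linarith
          rw [abs_mul, abs_of_nonneg (pow_nonneg h4 _)]
          calc |δ| * ((q : ℝ) - c) ^ (k + 1) ≤ (ℓ ^ B1 * (1 / (Q1 : ℝ)) ^ (k + 1)) * (Q1 / ℓ ^ B3) ^ (k + 1) := by
                apply mul_le_mul hδ1 (pow_le_pow_left₀ h4 (h5.trans hH1) _) (pow_nonneg h4 _) (by positivity)
            _ = ℓ ^ B1 * (1 / ℓ ^ B3) ^ (k + 1) := by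
                rw [mul_assoc, ← mul_pow]
                congr 2
                field_simp
            _ ≤ ℓ ^ B1 * (1 / ℓ ^ B3) ^ 1 := by
                apply mul_le_mul_of_nonneg_left _ (by positivity)
                apply pow_le_pow_of_le_one (by positivity) _ (by omega)
                rw [div_le_one (by positivity)]
                exact one_le_pow₀ hℓ1
            _ = η := by
                rw [hη, hB3, show B1 + A + 3 = B1 + (A + 3) by ring, pow_add ℓ B1, pow_one]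
                field_simp
        calc ‖ee (δ * ((q : ℝ) - c) ^ (k + 1)) - 1‖ * ‖cl R b q‖ * |Su (Fz z) y q a| ≤ (7 * η) * ‖cl R b q‖ * |Su (Fz z) y q a| := by gcongr
          _ = _ := by ring
    have e2 : ∑ q ∈ Ioc c c', ee (P.eval (q : ℝ)) * ((Su (Fz z) y q a : ℝ) : ℂ) =
        ∑ b ∈ range R, ∑ q ∈ Ioc c c', ee (P.eval (q : ℝ)) * cl R b q * ((Su (Fz z) y q a : ℝ) : ℂ) := by
      rw [sum_comm]
      apply sum_congr rfl
      intro q _
      rw [← sum_mul, ← mul_sum, cl_sum R q hR1, mul_one]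
    rw [e2]
    refine (norm_sum_le _ _).trans ((sum_le_sum fun b _ => hcls b).trans ?_)
    rw [sum_add_distrib, sum_const, card_range, nsmul_eq_mul, sum_comm]
    apply add_le_add le_rfl
    apply le_of_eq
    apply sum_congr rfl
    intro q _
    rw [← sum_mul, cl_norm_sum R q hR1, one_mul]
  -- all the blocks
  obtain ⟨j, hj⟩ : ∃ j : ℕ, j = ⌈2 * ℓ ^ B3⌉₊ := ⟨_, rfl⟩
  have hj1 : 2 * ℓ ^ B3 ≤ j := by rw [hj]; exact Nat.le_ceil _
  have hj2 : (j : ℝ) ≤ ℓ ^ (B3 + 1) := by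
    have h2 : (j : ℝ) < 2 * ℓ ^ B3 + 1 := by rw [hj]; exact Nat.ceil_lt_add_one (by positivity)
    have h3 : 1 ≤ ℓ ^ B3 := one_le_pow₀ hℓ1
    have h4 : ℓ ^ (B3 + 1) = ℓ * ℓ ^ B3 := by ring
    rw [h4]
    nlinarith
  have hall := blocks (fun q => ee (P.eval (q : ℝ)) * ((Su (Fz z) y q a : ℝ) : ℂ)) (fun q => 7 * η * |Su (Fz z) y q a|) Q1 Q2 H
    (R * (x / ℓ ^ (B3 + B2 + A + 3))) (by positivity) (fun q => by positivity) hblock j Q1 Q2 le_rfl le_rfl (by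
      have h2 : (Q1 : ℝ) ≤ j * H := by
        rw [div_le_iff₀ (by positivity)] at hH2
        calc (Q1 : ℝ) ≤ 2 * H * ℓ ^ B3 := hH2
          _ = (2 * ℓ ^ B3) * H := by ring
          _ ≤ j * H := by gcongr
      have h3 : Q1 ≤ j * H := by exact_mod_cast h2
      omega)
  refine hall.trans ?_
  rw [← mul_sum]
  have hX : 0 < (x : ℝ) / ℓ ^ A := by positivity
  have t1 : (j : ℝ) * (R * (x / ℓ ^ (B3 + B2 + A + 3))) ≤ 1 / ℓ ^ 2 * (x / ℓ ^ A) := by
    calc (j : ℝ) * (R * (x / ℓ ^ (B3 + B2 + A + 3))) ≤ ℓ ^ (B3 + 1) * (ℓ ^ B2 * (x / ℓ ^ (B3 + B2 + A + 3))) := by gcongr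
      _ = 1 / ℓ ^ 2 * (x / ℓ ^ A) := by
          rw [show B3 + B2 + A + 3 = (B3 + 1) + B2 + (A + 2) by ring, pow_add ℓ ((B3 + 1) + B2), pow_add ℓ (B3 + 1), pow_add ℓ A]
          field_simp
  have t2 : 7 * η * ∑ q ∈ Ioc Q1 Q2, |Su (Fz z) y q a| ≤ 14 / ℓ ^ 2 * (x / ℓ ^ A) := by
    calc 7 * η * ∑ q ∈ Ioc Q1 Q2, |Su (Fz z) y q a| ≤ 7 * η * (2 * x * ℓ) := by gcongr
      _ = _ := by
          rw [hη, show A + 3 = A + 2 + 1 by ring, pow_add ℓ (A + 2), pow_add ℓ A, pow_one]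
          field_simp
          ring
  have t3 : 1 / ℓ ^ 2 ≤ 1 / 20000 := by
    apply one_div_le_one_div_of_le (by norm_num)
    nlinarith
  have t4 : 14 / ℓ ^ 2 ≤ 14 / 20000 := by
    apply div_le_div_of_nonneg_left (by norm_num) (by norm_num)
    nlinarith
  have t5 : 1 / ℓ ^ 2 * ((x : ℝ) / ℓ ^ A) ≤ 1 / 20000 * (x / ℓ ^ A) := mul_le_mul_of_nonneg_right t3 hX.le
  have t6 : 14 / ℓ ^ 2 * ((x : ℝ) / ℓ ^ A) ≤ 14 / 20000 * (x / ℓ ^ A) := mul_le_mul_of_nonneg_right t4 hX.le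
  linarith


end Pool.Agent.W5h32.PM
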