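import Mathlib
import Pool.Agent.W5h32.PM.Ind

/-! Polynomial phases in the modulus: induction on the degree. -/

set_option autoImplicit false

namespace Pool.Agent.W5h32.PM
open Finset Polynomial
open Pool.Agent.Helper602.MK (ee)
open Pool.Agent.Helper602.MK.N_J5b (ee_add ee_zero ee_conj norm_ee ee_int ee_nat_mul ee_add_int ee_eq ee_eq_one_iff)
open Pool.Agent.H373R2.T7 (Vz lamz mem_pz Vz_pos choice ev_L' Vz_inv_small lamz_nonneg)
open Pool.Agent.W93.LV (Su)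

/-- a residue class by additive characters -/
lemma cl_expand (Q1 Q2 R b : ℕ) (hR : 1 ≤ R) (P : ℝ[X]) (S : ℕ → ℂ) (M : ℝ) (k : ℕ) (hP : P.natDegree ≤ k + 1)
    (h : ∀ P' : ℝ[X], P'.natDegree ≤ k + 1 → ‖∑ q ∈ Ioc Q1 Q2, ee (P'.eval (q : ℝ)) * S q‖ ≤ M) :
    ‖∑ q ∈ Ioc Q1 Q2, ee (P.eval (q : ℝ)) * cl R b q * S q‖ ≤ M := by
  have hR0 : (0 : ℝ) < R := by exact_mod_cast hR
  obtain ⟨G, hG⟩ : ∃ G : ℕ → ℝ[X], ∀ j, G j = P + C ((j : ℝ) / R) * (X - C (b : ℝ)) := ⟨_, fun _ => rfl⟩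
  have hGd : ∀ j, (G j).natDegree ≤ k + 1 := by
    intro j
    rw [hG]
    refine (natDegree_add_le _ _).trans (max_le hP ?_)
    refine (natDegree_C_mul_le _ _).trans ?_
    rw [natDegree_X_sub_C]
    omega
  have hGe : ∀ j q : ℕ, ee ((G j).eval (q : ℝ)) = ee (P.eval (q : ℝ)) * ee ((j : ℝ) * (((q : ℝ) - b) / R)) := by
    intro j q
    rw [hG, ← ee_add]
    congr 1
    rw [eval_add, eval_mul, eval_C, eval_sub, eval_X, eval_C]
    ring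
  have e1 : ∑ q ∈ Ioc Q1 Q2, ee (P.eval (q : ℝ)) * cl R b q * S q =
      (1 / (R : ℂ)) * ∑ j ∈ range R, ∑ q ∈ Ioc Q1 Q2, ee ((G j).eval (q : ℝ)) * S q := by
    have e3 : ∑ j ∈ range R, ∑ q ∈ Ioc Q1 Q2, ee ((G j).eval (q : ℝ)) * S q = ∑ q ∈ Ioc Q1 Q2, ∑ j ∈ range R, ee ((G j).eval (q : ℝ)) * S q := sum_comm
    rw [e3, mul_sum]
    apply sum_congr rfl
    intro q _
    rw [cl_eq R b q hR, ← sum_mul, sum_congr rfl (fun j _ => hGe j q), ← mul_sum]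
    ring
  have h2 : ‖(1 / (R : ℂ))‖ = 1 / R := by
    rw [norm_div, norm_one, Complex.norm_natCast]
  have h3 : ‖∑ j ∈ range R, ∑ q ∈ Ioc Q1 Q2, ee ((G j).eval (q : ℝ)) * S q‖ ≤ R * M := by
    refine (norm_sum_le _ _).trans ((sum_le_sum fun j _ => h (G j) (hGd j)).trans ?_)
    rw [sum_const, card_range, nsmul_eq_mul]
  rw [e1, norm_mul, h2]
  calc 1 / (R : ℝ) * ‖∑ j ∈ range R, ∑ q ∈ Ioc Q1 Q2, ee ((G j).eval (q : ℝ)) * S q‖ ≤ 1 / (R : ℝ) * (R * M) :=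
        mul_le_mul_of_nonneg_left h3 (by positivity)
    _ = M := by field_simp

theorem SP_succ (k : ℕ) (hk : SP k) : SP (k + 1) := by
  intro ε hε A B
  obtain ⟨E0, h0⟩ := step k hk ε hε (A + 2)
  refine ⟨E0, fun E => ?_⟩
  obtain ⟨n0, h1⟩ := h0 E
  obtain ⟨n3, hL⟩ := ev_L' 20000
  refine ⟨max (max n0 n3) 3, fun x hx z hz1 hz2 a y Q1 Q2 R b P ha hax hyx hP hQ1 hQ2 hR hRB => ?_⟩
  have g0 : n0 ≤ x := le_trans (le_trans (le_max_left _ _) (le_max_left _ _)) hx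
  have g3 : n3 ≤ x := le_trans (le_trans (le_max_right _ _) (le_max_left _ _)) hx
  have g7 : 3 ≤ x := le_trans (le_max_right _ _) hx
  have hLx := hL x g3
  have hx0 : (0 : ℝ) < x := by exact_mod_cast (by omega : 0 < x)
  have hx1 : (1 : ℝ) ≤ x := by exact_mod_cast (by omega : 1 ≤ x)
  have h1' := h1 x g0 z hz1 hz2 a y
  have hlog2 := log2_le' x (by omega)
  obtain ⟨ℓ, hℓ⟩ : ∃ ℓ, ℓ = Real.log x := ⟨_, rfl⟩
  rw [← hℓ] at hLx hlog2 ⊢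
  simp only [← hℓ] at h1'
  have hℓ1 : 1 ≤ ℓ := by linarith
  have hℓ0 : 0 < ℓ := by linarith
  have hQ1r : (1 : ℝ) ≤ Q1 := le_trans (Real.one_le_rpow hx1 (by positivity)) hQ1
  have hQ1n : 1 ≤ Q1 := by exact_mod_cast hQ1r
  -- without a residue class
  have hno : ∀ P' : ℝ[X], P'.natDegree ≤ k + 1 → ‖∑ q ∈ Ioc Q1 Q2, ee (P'.eval (q : ℝ)) * ((Su (Fz z) y q a : ℝ) : ℂ)‖ ≤ x / ℓ ^ A := by
    intro P' hP'
    obtain ⟨j, hj2, hjr⟩ : ∃ j : ℕ, x < 2 ^ j ∧ (j : ℝ) ≤ 3 * ℓ := by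
      refine ⟨Nat.log 2 x + 1, Nat.lt_pow_succ_log_self (by norm_num) _, ?_⟩
      push_cast
      linarith
    have hQ2x : Q2 ≤ x := by
      have h2 : (Q2 : ℝ) ≤ x := by
        calc (Q2 : ℝ) ≤ (x : ℝ) ^ (1 - ε) := hQ2
          _ ≤ (x : ℝ) ^ (1 : ℝ) := Real.rpow_le_rpow_of_exponent_le hx1 (by linarith)
          _ = x := Real.rpow_one _
      exact_mod_cast h2
    have h2 := dyadic (fun q => ee (P'.eval (q : ℝ)) * ((Su (Fz z) y q a : ℝ) : ℂ)) Q1 Q2 (x / ℓ ^ (A + 2)) (by positivity) (by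
      intro N N' hN hNN' hN' hN'Q
      exact h1' N N' P' ha hax hyx hP' (hQ1.trans (by exact_mod_cast hN)) hNN' hN' (le_trans (by exact_mod_cast hN'Q) hQ2))
      j Q1 Q2 le_rfl le_rfl (by
        have : 2 ^ j ≤ 2 ^ j * Q1 := Nat.le_mul_of_pos_right _ hQ1n
        omega)
    refine h2.trans ?_
    calc (j : ℝ) * (x / ℓ ^ (A + 2)) ≤ (3 * ℓ) * (x / ℓ ^ (A + 2)) := by gcongr
      _ = 3 / ℓ * (x / ℓ ^ A) := by rw [pow_add]; field_simp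
      _ ≤ 1 * (x / ℓ ^ A) := by
          apply mul_le_mul_of_nonneg_right _ (by positivity)
          rw [div_le_one hℓ0]; linarith
      _ = _ := one_mul _
  exact cl_expand Q1 Q2 R b hR P (fun q => ((Su (Fz z) y q a : ℝ) : ℂ)) _ k hP hno

theorem SP_all (k : ℕ) : SP k := by
  induction k with
  | zero => exact SP_zero
  | succ k ih => exact SP_succ k ih

end Pool.Agent.W5h32.PM
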