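import Mathlib
import Pool.Agent.W5h32.PM.Ind2

/-! Polynomial phases in the modulus: the errors for the von Mangoldt function. -/

set_option autoImplicit false

namespace Pool.Agent.W5h32.PM
open Finset Polynomial
open Pool.Agent.Helper602.MK (ee)
open Pool.Agent.Helper602.MK.N_J5b (ee_add ee_zero ee_conj norm_ee ee_int ee_nat_mul ee_add_int ee_eq ee_eq_one_iff)
open Pool.Agent.H373R2.T7 (Vz lamz mem_pz Vz_pos choice ev_L' Vz_inv_small lamz_nonneg)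
open Pool.Agent.W93.LV (Su Fu det1 swap_sum DD)

lemma cl_one (q : ℕ) : cl 1 0 q = 1 := by
  unfold cl
  rw [if_pos (by rw [Nat.mod_one, Nat.mod_one])]

/-- the real form of `det1` for the weights on `(Q1, Q2]` -/
lemma det1' (f : ℕ → ℝ) (Q1 Q2 y a z r X : ℕ) (V Lx T : ℝ) (ha : 1 ≤ a) (hz : 1 ≤ z) (haX : a ≤ X) (hyX : y ≤ X) (hQX : Q2 ≤ X)
    (hf : ∀ q, |f q| ≤ 1) (hV : (Vz z)⁻¹ ≤ V) (hLx : Real.log X = Lx) (hVL : V ≤ Lx) (hL1 : 1 ≤ Lx)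
    (hT : |∑ q ∈ Ioc Q1 Q2, f q * Su (Fz z) y q a| ≤ T) :
    |∑ q ∈ (Ioc Q1 Q2).filter (fun q => a.Coprime q), f q * (Fu (fun n => ArithmeticFunction.vonMangoldt n) y q a - (y : ℝ) / Nat.totient q)| ≤
      T + ((Lx * (Q2 * ((z : ℝ) + 1) ^ r) + 2 * Lx * (X * (2 * Lx)) * Real.exp (3 * (1 + Real.log z) - r) + X * (2 * Lx) ^ 2 * (2 * Lx / z)) +
        Q2 * (2 * Lx) + Q2 * (6 * Lx ^ 3) + Lx * (2 * Lx * ((X * (2 * Lx) + X) / z))) := by
  classical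
  have h1 := det1 (fun q => if q ∈ Ioc Q1 Q2 then f q else 0) Q2 y a z r X 1 V Lx ha hz haX hyX hQX (by
    intro q
    show |if q ∈ Ioc Q1 Q2 then f q else 0| ≤ 1
    split_ifs
    · exact hf q
    · rw [abs_zero]; exact zero_le_one) hV hLx hVL hL1
  rw [one_mul] at h1
  have e1 : ∑ q ∈ (Icc 1 Q2).filter (fun q => a.Coprime q), (if q ∈ Ioc Q1 Q2 then f q else 0) *
      (Fu (fun n => ArithmeticFunction.vonMangoldt n) y q a - (y : ℝ) / Nat.totient q) =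
      ∑ q ∈ (Ioc Q1 Q2).filter (fun q => a.Coprime q), f q * (Fu (fun n => ArithmeticFunction.vonMangoldt n) y q a - (y : ℝ) / Nat.totient q) := by
    have e2 : ∀ q ∈ (Icc 1 Q2).filter (fun q => a.Coprime q), (if q ∈ Ioc Q1 Q2 then f q else 0) *
        (Fu (fun n => ArithmeticFunction.vonMangoldt n) y q a - (y : ℝ) / Nat.totient q) =
        if q ∈ Ioc Q1 Q2 then f q * (Fu (fun n => ArithmeticFunction.vonMangoldt n) y q a - (y : ℝ) / Nat.totient q) else 0 := by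
      intro q _
      split_ifs
      · rfl
      · rw [zero_mul]
    rw [sum_congr rfl e2, ← sum_filter, filter_filter]
    apply sum_congr _ (fun _ _ => rfl)
    ext q
    rw [mem_filter, mem_filter, mem_Icc, mem_Ioc]
    constructor
    · rintro ⟨h1, h2, h3⟩
      exact ⟨h3, h2⟩
    · rintro ⟨h1, h2⟩
      exact ⟨by omega, h2, h1⟩
  have e3 : ∑ u ∈ (Icc 1 y).filter (fun u => u ≠ a), (ArithmeticFunction.vonMangoldt u - lamz z u) *
      DD (fun q => if q ∈ Ioc Q1 Q2 then f q else 0) Q2 ((u - a) + (a - u)) = ∑ q ∈ Ioc Q1 Q2, f q * Su (Fz z) y q a := by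
    rw [← swap_sum (fun q => if q ∈ Ioc Q1 Q2 then f q else 0) Q2 (fun u => ArithmeticFunction.vonMangoldt u - lamz z u) a y]
    have e2 : ∀ q ∈ Icc 1 Q2, (if q ∈ Ioc Q1 Q2 then f q else 0) *
        ∑ u ∈ ((Icc 1 y).filter (fun u => u ≡ a [MOD q])).filter (fun u => u ≠ a), (ArithmeticFunction.vonMangoldt u - lamz z u) =
        if q ∈ Ioc Q1 Q2 then f q * Su (Fz z) y q a else 0 := by
      intro q _
      split_ifs
      · rfl
      · rw [zero_mul]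
    rw [sum_congr rfl e2, ← sum_filter]
    apply sum_congr _ (fun _ _ => rfl)
    ext q
    rw [mem_filter, mem_Icc, mem_Ioc]
    constructor
    · rintro ⟨h1, h2⟩
      exact h2
    · intro h1
      exact ⟨by omega, h1⟩
  rw [e1, e3] at h1
  exact h1.trans (add_le_add hT le_rfl)

theorem psi_form (k : ℕ) (ε : ℝ) (hε : 0 < ε) (A : ℕ) : ∃ x0 : ℕ, ∀ x : ℕ, x0 ≤ x →
    ∀ (a y Q1 Q2 : ℕ) (P : ℝ[X]), 1 ≤ a → a ≤ x → y ≤ x → P.natDegree ≤ k → (x : ℝ) ^ (2 / 3 + ε) ≤ Q1 →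
    (Q2 : ℝ) ≤ (x : ℝ) ^ (1 - ε) →
    ‖∑ q ∈ (Ioc Q1 Q2).filter (fun q => a.Coprime q), ee (P.eval (q : ℝ)) *
      ((Fu (fun n => ArithmeticFunction.vonMangoldt n) y q a - (y : ℝ) / Nat.totient q : ℝ) : ℂ)‖ ≤ x / Real.log x ^ A := by
  obtain ⟨E0, h0⟩ := SP_all k ε hε (A + 1) 0
  obtain ⟨E, hE⟩ : ∃ E, E = E0 + A + 11 := ⟨_, rfl⟩
  obtain ⟨n0, h1⟩ := h0 E
  obtain ⟨Mm, hMm⟩ := exists_nat_ge (2 / ε + 1)
  obtain ⟨n1, hch⟩ := choice 1 E (A + 6) Mm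
  obtain ⟨n2, hV⟩ := Vz_inv_small E
  obtain ⟨n3, hL⟩ := ev_L' 20000
  obtain ⟨n4, hp1⟩ := pow_small (ε / 2) 1 (by positivity) (A + 6)
  refine ⟨max (max n0 n1) (max (max n2 n3) (max n4 3)), fun x hx a y Q1 Q2 P ha hax hyx hP hQ1 hQ2 => ?_⟩
  have g0 : n0 ≤ x := le_trans (le_trans (le_max_left _ _) (le_max_left _ _)) hx
  have g1 : n1 ≤ x := le_trans (le_trans (le_max_right _ _) (le_max_left _ _)) hx
  have g2 : n2 ≤ x := le_trans (le_trans (le_trans (le_max_left _ _) (le_max_left _ _)) (le_max_right _ _)) hx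
  have g3 : n3 ≤ x := le_trans (le_trans (le_trans (le_max_right _ _) (le_max_left _ _)) (le_max_right _ _)) hx
  have g4 : n4 ≤ x := le_trans (le_trans (le_trans (le_max_left _ _) (le_max_right _ _)) (le_max_right _ _)) hx
  have g7 : 3 ≤ x := le_trans (le_trans (le_trans (le_max_right _ _) (le_max_right _ _)) (le_max_right _ _)) hx
  have hLx := hL x g3
  have hx0 : (0 : ℝ) < x := by exact_mod_cast (by omega : 0 < x)
  have hx1 : (1 : ℝ) ≤ x := by exact_mod_cast (by omega : 1 ≤ x)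
  -- the sieving limit
  obtain ⟨z, hz⟩ : ∃ z : ℕ, z = ⌊Real.log x ^ E⌋₊ := ⟨_, rfl⟩
  have hzE : (z : ℝ) ≤ Real.log x ^ E := by rw [hz]; exact Nat.floor_le (by positivity)
  have hzlow : Real.log x ^ (E - 1) ≤ z := by
    have h2 : Real.log x ^ E < z + 1 := by rw [hz]; exact Nat.lt_floor_add_one _
    have h3 : Real.log x ^ E = Real.log x * Real.log x ^ (E - 1) := by
      rw [← pow_succ']
      congr 1
      omega
    have h4 : 1 ≤ Real.log x ^ (E - 1) := one_le_pow₀ (by linarith)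
    rw [h3] at h2
    nlinarith
  have hz1r : (1 : ℝ) ≤ z := le_trans (one_le_pow₀ (by linarith)) hzlow
  have hz1 : 1 ≤ z := by exact_mod_cast hz1r
  have hz0 : (0 : ℝ) < z := by linarith
  obtain ⟨r, hr1, hr2, -⟩ := hch x g1 z hzE
  have hV' := hV x g2 z hz1 hzE
  have hp1' := hp1 x g4
  rw [one_mul] at hp1'
  have hT := h1 x g0 z (le_trans (pow_le_pow_right₀ (by linarith) (by omega)) hzlow) hzE a y Q1 Q2 1 0 P ha hax hyx hP hQ1 hQ2 le_rfl (by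
    rw [pow_zero, Nat.cast_one])
  simp only [cl_one, mul_one] at hT
  have hQ2x : Q2 ≤ x := by
    have h2 : (Q2 : ℝ) ≤ x := by
      calc (Q2 : ℝ) ≤ (x : ℝ) ^ (1 - ε) := hQ2
        _ ≤ (x : ℝ) ^ (1 : ℝ) := Real.rpow_le_rpow_of_exponent_le hx1 (by linarith)
        _ = x := Real.rpow_one _
    exact_mod_cast h2
  obtain ⟨ℓ, hℓ⟩ : ∃ ℓ, ℓ = Real.log x := ⟨_, rfl⟩
  have hlogx : Real.log x = ℓ := hℓ.symm
  rw [hlogx] at hLx hzlow hr1 hV' hp1' hT ⊢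
  have hℓ1 : 1 ≤ ℓ := by linarith
  have hℓ0 : 0 < ℓ := by linarith
  have hℓp : ∀ i j : ℕ, i ≤ j → ℓ ^ i ≤ ℓ ^ j := fun i j h => pow_le_pow_right₀ hℓ1 h
  -- real and imaginary parts
  have hre : |∑ q ∈ Ioc Q1 Q2, (ee (P.eval (q : ℝ))).re * Su (Fz z) y q a| ≤ x / ℓ ^ (A + 1) := by
    refine le_trans (le_trans (le_of_eq ?_) (Complex.abs_re_le_norm _)) hT
    rw [Complex.re_sum]
    congr 1
    apply sum_congr rfl
    intro q _
    rw [Complex.re_mul_ofReal]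
  have him : |∑ q ∈ Ioc Q1 Q2, (ee (P.eval (q : ℝ))).im * Su (Fz z) y q a| ≤ x / ℓ ^ (A + 1) := by
    refine le_trans (le_trans (le_of_eq ?_) (Complex.abs_im_le_norm _)) hT
    rw [Complex.im_sum]
    congr 1
    apply sum_congr rfl
    intro q _
    rw [Complex.im_mul_ofReal]
  have d1 := det1' (fun q => (ee (P.eval (q : ℝ))).re) Q1 Q2 y a z r x (Vz z)⁻¹ ℓ _ ha hz1 hax hyx hQ2x
    (fun q => (Complex.abs_re_le_norm _).trans (norm_ee _).le) le_rfl hlogx hV' hℓ1 hre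
  have d2 := det1' (fun q => (ee (P.eval (q : ℝ))).im) Q1 Q2 y a z r x (Vz z)⁻¹ ℓ _ ha hz1 hax hyx hQ2x
    (fun q => (Complex.abs_im_le_norm _).trans (norm_ee _).le) le_rfl hlogx hV' hℓ1 him
  -- the error
  obtain ⟨Er, hEr⟩ : ∃ Er, Er = ((ℓ * (Q2 * ((z : ℝ) + 1) ^ r) + 2 * ℓ * (x * (2 * ℓ)) * Real.exp (3 * (1 + Real.log z) - r) + x * (2 * ℓ) ^ 2 * (2 * ℓ / z)) +
        Q2 * (2 * ℓ) + Q2 * (6 * ℓ ^ 3) + ℓ * (2 * ℓ * ((x * (2 * ℓ) + x) / z))) := ⟨_, rfl⟩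
  rw [← hEr] at d1 d2
  have hX : 0 < (x : ℝ) / ℓ ^ A := by positivity
  have hQl : ∀ i, i ≤ A + 6 → (Q2 : ℝ) * ((z : ℝ) + 1) ^ r * ℓ ^ i ≤ x := by
    intro i hi
    have h2 : ((z : ℝ) + 1) ^ r ≤ (x : ℝ) ^ (ε / 2) := by
      have h3 : (0 : ℝ) < Mm := by
        have : 0 < 2 / ε := by positivity
        linarith
      have h4 : ((z : ℝ) + 1) ^ r = ((((z : ℝ) + 1) ^ r) ^ Mm) ^ (1 / (Mm : ℝ)) := by
        rw [← Real.rpow_natCast (((z : ℝ) + 1) ^ r) Mm, ← Real.rpow_mul (by positivity), mul_one_div, div_self h3.ne', Real.rpow_one]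
      rw [h4]
      calc ((((z : ℝ) + 1) ^ r) ^ Mm) ^ (1 / (Mm : ℝ)) ≤ (x : ℝ) ^ (1 / (Mm : ℝ)) := Real.rpow_le_rpow (by positivity) hr2 (by positivity)
        _ ≤ (x : ℝ) ^ (ε / 2) := by
            apply Real.rpow_le_rpow_of_exponent_le hx1
            rw [div_le_div_iff₀ h3 (by norm_num)]
            have h5 : 2 / ε ≤ Mm := by linarith
            rw [div_le_iff₀ hε] at h5
            linarith
    calc (Q2 : ℝ) * ((z : ℝ) + 1) ^ r * ℓ ^ i ≤ (x : ℝ) ^ (1 - ε) * (x : ℝ) ^ (ε / 2) * (x : ℝ) ^ (ε / 2) := by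
          have := (hℓp i _ hi).trans hp1'
          gcongr
      _ = x := by
          rw [← Real.rpow_add hx0, ← Real.rpow_add hx0, show 1 - ε + ε / 2 + ε / 2 = 1 by ring, Real.rpow_one]
  have hzr1 : 1 ≤ ((z : ℝ) + 1) ^ r := one_le_pow₀ (by linarith)
  have hQl2 : ∀ i, i ≤ A + 6 → (Q2 : ℝ) * ℓ ^ i ≤ x := by
    intro i hi
    refine le_trans ?_ (hQl i hi)
    have : (Q2 : ℝ) ≤ Q2 * ((z : ℝ) + 1) ^ r := le_mul_of_one_le_right (Nat.cast_nonneg _) hzr1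
    gcongr
  have hEr1 : Er ≤ 1 / 100 * (x / ℓ ^ A) := by
    have hxl : ∀ i, 0 < (x : ℝ) / ℓ ^ i := fun i => by positivity
    obtain ⟨W, hW⟩ : ∃ W, W = (x : ℝ) / ℓ ^ (A + 1) := ⟨_, rfl⟩
    have hW0 : 0 < W := by rw [hW]; positivity
    have hWX : W ≤ 1 / 20000 * (x / ℓ ^ A) := by
      have : W = 1 / ℓ * (x / ℓ ^ A) := by rw [hW, pow_succ]; field_simp
      rw [this]
      apply mul_le_mul_of_nonneg_right _ hX.le
      exact one_div_le_one_div_of_le (by norm_num) hLx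
    have f1 : ℓ * ((Q2 : ℝ) * ((z : ℝ) + 1) ^ r) ≤ W := by
      rw [hW, le_div_iff₀ (by positivity)]
      calc ℓ * ((Q2 : ℝ) * ((z : ℝ) + 1) ^ r) * ℓ ^ (A + 1) = Q2 * ((z : ℝ) + 1) ^ r * ℓ ^ (A + 2) := by ring
        _ ≤ x := hQl _ (by omega)
    have hr1' : Real.exp (3 * (1 + Real.log z) - r) ≤ 1 / ℓ ^ (A + 6) := by
      refine le_trans (le_of_eq ?_) hr1
      push_cast
      ring_nf
    have f2 : 2 * ℓ * ((x : ℝ) * (2 * ℓ)) * Real.exp (3 * (1 + Real.log z) - r) ≤ 4 * W := by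
      calc 2 * ℓ * ((x : ℝ) * (2 * ℓ)) * Real.exp (3 * (1 + Real.log z) - r) ≤ 2 * ℓ * ((x : ℝ) * (2 * ℓ)) * (1 / ℓ ^ (A + 6)) := by gcongr
        _ = 4 * (1 / ℓ ^ 3 * W) := by
            rw [hW, show A + 6 = (A + 1) + 5 by ring, pow_add ℓ (A + 1)]
            field_simp
            ring
        _ ≤ 4 * W := by
            have : 1 / ℓ ^ 3 ≤ 1 := by rw [div_le_one (by positivity)]; exact one_le_pow₀ hℓ1
            nlinarith
    have hzinv : ∀ c : ℝ, 0 ≤ c → c * ℓ ^ 3 * (x / z) ≤ c * W := by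
      intro c hc
      have h2 : (x : ℝ) / z ≤ x / ℓ ^ (A + 4) := by
        apply div_le_div_of_nonneg_left hx0.le (by positivity)
        exact (hℓp _ _ (by omega)).trans hzlow
      calc c * ℓ ^ 3 * (x / z) ≤ c * ℓ ^ 3 * (x / ℓ ^ (A + 4)) := by gcongr
        _ = c * W := by
            rw [hW, show A + 4 = (A + 1) + 3 by ring, pow_add ℓ (A + 1)]
            field_simp
    have f3 : (x : ℝ) * (2 * ℓ) ^ 2 * (2 * ℓ / z) ≤ 8 * W := by
      have : (x : ℝ) * (2 * ℓ) ^ 2 * (2 * ℓ / z) = 8 * ℓ ^ 3 * (x / z) := by ring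
      rw [this]; exact hzinv 8 (by norm_num)
    have f4 : (Q2 : ℝ) * (2 * ℓ) ≤ 2 * W := by
      have : (Q2 : ℝ) * ℓ ≤ W := by
        rw [hW, le_div_iff₀ (by positivity)]
        calc (Q2 : ℝ) * ℓ * ℓ ^ (A + 1) = Q2 * ℓ ^ (A + 2) := by ring
          _ ≤ x := hQl2 _ (by omega)
      linarith
    have f5 : (Q2 : ℝ) * (6 * ℓ ^ 3) ≤ 6 * W := by
      have : (Q2 : ℝ) * ℓ ^ 3 ≤ W := by
        rw [hW, le_div_iff₀ (by positivity)]
        calc (Q2 : ℝ) * ℓ ^ 3 * ℓ ^ (A + 1) = Q2 * ℓ ^ (A + 4) := by ring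
          _ ≤ x := hQl2 _ (by omega)
      linarith
    have f6 : ℓ * (2 * ℓ * (((x : ℝ) * (2 * ℓ) + x) / z)) ≤ 6 * W := by
      calc ℓ * (2 * ℓ * (((x : ℝ) * (2 * ℓ) + x) / z)) ≤ ℓ * (2 * ℓ * (((x : ℝ) * (2 * ℓ) + x * ℓ) / z)) := by
            have : (x : ℝ) ≤ x * ℓ := le_mul_of_one_le_right hx0.le hℓ1
            gcongr
        _ = 6 * ℓ ^ 3 * (x / z) := by ring
        _ ≤ 6 * W := hzinv 6 (by norm_num)
    rw [hEr]
    linarith
  -- conclusion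
  obtain ⟨g, hg⟩ : ∃ g : ℕ → ℝ, g = fun q => Fu (fun n => ArithmeticFunction.vonMangoldt n) y q a - (y : ℝ) / Nat.totient q := ⟨_, rfl⟩
  have e1 : ∑ q ∈ (Ioc Q1 Q2).filter (fun q => a.Coprime q), ee (P.eval (q : ℝ)) *
      ((Fu (fun n => ArithmeticFunction.vonMangoldt n) y q a - (y : ℝ) / Nat.totient q : ℝ) : ℂ) =
      ∑ q ∈ (Ioc Q1 Q2).filter (fun q => a.Coprime q), ee (P.eval (q : ℝ)) * ((g q : ℝ) : ℂ) := by rw [hg]
  have d1' : |∑ q ∈ (Ioc Q1 Q2).filter (fun q => a.Coprime q), (ee (P.eval (q : ℝ))).re * g q| ≤ x / ℓ ^ (A + 1) + Er := by rw [hg]; exact d1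
  have d2' : |∑ q ∈ (Ioc Q1 Q2).filter (fun q => a.Coprime q), (ee (P.eval (q : ℝ))).im * g q| ≤ x / ℓ ^ (A + 1) + Er := by rw [hg]; exact d2
  rw [e1]
  refine (Complex.norm_le_abs_re_add_abs_im _).trans ?_
  have e2 : (∑ q ∈ (Ioc Q1 Q2).filter (fun q => a.Coprime q), ee (P.eval (q : ℝ)) * ((g q : ℝ) : ℂ)).re =
      ∑ q ∈ (Ioc Q1 Q2).filter (fun q => a.Coprime q), (ee (P.eval (q : ℝ))).re * g q := by
    rw [Complex.re_sum]
    apply sum_congr rfl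
    intro q _
    rw [Complex.re_mul_ofReal]
  have e3 : (∑ q ∈ (Ioc Q1 Q2).filter (fun q => a.Coprime q), ee (P.eval (q : ℝ)) * ((g q : ℝ) : ℂ)).im =
      ∑ q ∈ (Ioc Q1 Q2).filter (fun q => a.Coprime q), (ee (P.eval (q : ℝ))).im * g q := by
    rw [Complex.im_sum]
    apply sum_congr rfl
    intro q _
    rw [Complex.im_mul_ofReal]
  rw [e2, e3]
  have t4 : (x : ℝ) / ℓ ^ (A + 1) ≤ 1 / 20000 * (x / ℓ ^ A) := by
    have : (x : ℝ) / ℓ ^ (A + 1) = 1 / ℓ * (x / ℓ ^ A) := by rw [pow_succ]; field_simp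
    rw [this]
    apply mul_le_mul_of_nonneg_right _ hX.le
    exact one_div_le_one_div_of_le (by norm_num) hLx
  linarith

end Pool.Agent.W5h32.PM
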