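import Mathlib
import Pool.Agent.W5h32.PM.Psi
import Pool.Agent.H442R2.EHI.PntErr

/-! Polynomial phases in the modulus: the errors for the primes. -/

set_option autoImplicit false

namespace Pool.Agent.W5h32.PM
open Finset Polynomial
open Pool.Agent.Helper602.MK (ee)
open Pool.Agent.Helper602.MK.N_J5b (ee_add ee_zero ee_conj norm_ee ee_int ee_nat_mul ee_add_int ee_eq ee_eq_one_iff)
open Pool.Agent.H373R2.T7 (Vz lamz mem_pz Vz_pos choice ev_L' Vz_inv_small lamz_nonneg)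
open Pool.Agent.W93.LV (Su Fu det1 swap_sum DD inv_phi_sum)
open Pool.Agent.H442R2.EHI (lis pnt_err)

lemma abel_log (b : ℕ → ℂ) (M : ℝ) (hM0 : 0 ≤ M) (X : ℕ) (hM : ∀ t, t ≤ X → ‖∑ n ∈ Icc 2 t, b n‖ ≤ M) (y : ℕ) (hy : y ≤ X) :
    ‖∑ n ∈ Icc 2 y, ((1 / Real.log n : ℝ) : ℂ) * b n‖ ≤ 2 * M := by
  rcases Nat.lt_or_ge y 2 with h | h
  · rw [Icc_eq_empty (by omega), sum_empty, norm_zero]
    positivity
  have hlog2 := Real.log_two_gt_d9
  have key : ∀ t, 2 ≤ t → t ≤ X → ‖∑ n ∈ Icc 2 t, ((1 / Real.log n : ℝ) : ℂ) * b n - ((1 / Real.log t : ℝ) : ℂ) * ∑ n ∈ Icc 2 t, b n‖ ≤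
      M * (1 / Real.log 2 - 1 / Real.log t) := by
    intro t ht
    induction t, ht using Nat.le_induction with
    | base =>
      intro _
      rw [show Icc 2 2 = ({2} : Finset ℕ) by rfl, sum_singleton, sum_singleton, sub_self, norm_zero]
      push_cast
      rw [sub_self, mul_zero]
    | succ t ht ih =>
      intro hX
      have ih' := ih (by omega)
      rw [sum_Icc_succ_top (by omega), sum_Icc_succ_top (by omega)]
      have ht2 : (2 : ℝ) ≤ t := by exact_mod_cast ht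
      have hlt : 0 < Real.log t := Real.log_pos (by linarith)
      have hlt' : Real.log t ≤ Real.log ((t + 1 : ℕ) : ℝ) := Real.log_le_log (by linarith) (by push_cast; linarith)
      have hdiff : 0 ≤ 1 / Real.log t - 1 / Real.log ((t + 1 : ℕ) : ℝ) := by
        rw [sub_nonneg]
        exact one_div_le_one_div_of_le hlt hlt'
      have e1 : ∑ n ∈ Icc 2 t, ((1 / Real.log n : ℝ) : ℂ) * b n + ((1 / Real.log ((t + 1 : ℕ) : ℝ) : ℝ) : ℂ) * b (t + 1) -
          ((1 / Real.log ((t + 1 : ℕ) : ℝ) : ℝ) : ℂ) * (∑ n ∈ Icc 2 t, b n + b (t + 1)) =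
          (∑ n ∈ Icc 2 t, ((1 / Real.log n : ℝ) : ℂ) * b n - ((1 / Real.log t : ℝ) : ℂ) * ∑ n ∈ Icc 2 t, b n) +
          ((1 / Real.log t - 1 / Real.log ((t + 1 : ℕ) : ℝ) : ℝ) : ℂ) * ∑ n ∈ Icc 2 t, b n := by
        push_cast
        ring
      rw [e1]
      refine (norm_add_le _ _).trans ?_
      rw [norm_mul, Complex.norm_real, Real.norm_of_nonneg hdiff]
      have h2 : (1 / Real.log t - 1 / Real.log ((t + 1 : ℕ) : ℝ)) * ‖∑ n ∈ Icc 2 t, b n‖ ≤
          (1 / Real.log t - 1 / Real.log ((t + 1 : ℕ) : ℝ)) * M := mul_le_mul_of_nonneg_left (hM t (by omega)) hdiff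
      calc _ ≤ M * (1 / Real.log 2 - 1 / Real.log t) + (1 / Real.log t - 1 / Real.log ((t + 1 : ℕ) : ℝ)) * M := add_le_add ih' h2
        _ = _ := by ring
  have h1 := key y h hy
  have hy2 : (2 : ℝ) ≤ y := by exact_mod_cast h
  have hly : Real.log 2 ≤ Real.log y := Real.log_le_log (by norm_num) hy2
  have hly0 : 0 < Real.log y := by linarith
  have h2 : ‖((1 / Real.log y : ℝ) : ℂ) * ∑ n ∈ Icc 2 y, b n‖ ≤ 1 / Real.log y * M := by
    rw [norm_mul, Complex.norm_real, Real.norm_of_nonneg (by positivity)]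
    exact mul_le_mul_of_nonneg_left (hM y hy) (by positivity)
  have h3 : ∑ n ∈ Icc 2 y, ((1 / Real.log n : ℝ) : ℂ) * b n =
      (∑ n ∈ Icc 2 y, ((1 / Real.log n : ℝ) : ℂ) * b n - ((1 / Real.log y : ℝ) : ℂ) * ∑ n ∈ Icc 2 y, b n) +
      ((1 / Real.log y : ℝ) : ℂ) * ∑ n ∈ Icc 2 y, b n := by ring
  rw [h3]
  refine (norm_add_le _ _).trans ((add_le_add h1 h2).trans ?_)
  have h4 : M * (1 / Real.log 2 - 1 / Real.log y) + 1 / Real.log y * M = 1 / Real.log 2 * M := by ring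
  rw [h4]
  apply mul_le_mul_of_nonneg_right _ hM0
  rw [div_le_iff₀ (by linarith)]
  linarith

lemma not_prime_sum (y : ℕ) (hy : 1 ≤ y) : ∑ n ∈ (Icc 1 y).filter (fun n => ¬ n.Prime), ArithmeticFunction.vonMangoldt n ≤
    2 * (√(y : ℝ) * Real.log y) := by
  have hY1 : (1 : ℝ) ≤ y := by exact_mod_cast hy
  have h3 := Chebyshev.psi_sub_theta_le hY1
  rw [Chebyshev.psi_sub_theta_eq_sum_not_prime, Nat.floor_natCast] at h3
  have h0 : Icc 1 y = Ioc 0 y := by ext; simp [Nat.succ_le_iff]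
  rw [h0]
  linarith

/-- the number of the moduli in `(Q1, Q2]` which divide `n - a` -/
lemma card_dvd (x n a Q1 Q2 : ℕ) (hna : n ≠ a) (hn : n ≤ x) (ha : a ≤ x) (hQ1 : 1 ≤ Q1) :
    ((Ioc Q1 Q2).filter (fun q => n ≡ a [MOD q])).card ≤ x / Q1 := by
  obtain ⟨m, hm⟩ : ∃ m, m = (n - a) + (a - n) := ⟨_, rfl⟩
  have hm1 : 1 ≤ m := by omega
  have hmx : m ≤ x := by omega
  have hmap : ∀ q ∈ (Ioc Q1 Q2).filter (fun q => n ≡ a [MOD q]), m / q ∈ Icc 1 (x / Q1) := by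
    intro q hq
    rw [mem_filter, mem_Ioc] at hq
    have h1 : q ∣ m := by
      rw [hm]
      exact (Pool.Agent.W93.LV.modEq_dist n a q).1 hq.2
    rw [mem_Icc]
    constructor
    · exact Nat.div_pos (Nat.le_of_dvd hm1 h1) (by omega)
    · calc m / q ≤ x / q := Nat.div_le_div_right hmx
        _ ≤ x / Q1 := Nat.div_le_div_left hq.1.1.le hQ1
  have hinj : ∀ q ∈ (Ioc Q1 Q2).filter (fun q => n ≡ a [MOD q]), ∀ q' ∈ (Ioc Q1 Q2).filter (fun q => n ≡ a [MOD q]),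
      m / q = m / q' → q = q' := by
    intro q hq q' hq' h
    rw [mem_filter, mem_Ioc] at hq hq'
    have h1 : q ∣ m := by
      rw [hm]
      exact (Pool.Agent.W93.LV.modEq_dist n a q).1 hq.2
    have h2 : q' ∣ m := by
      rw [hm]
      exact (Pool.Agent.W93.LV.modEq_dist n a q').1 hq'.2
    have h3 := Nat.div_mul_cancel h1
    have h4 := Nat.div_mul_cancel h2
    rw [← h] at h4
    have h5 : 0 < m / q := Nat.div_pos (Nat.le_of_dvd hm1 h1) (by omega)
    exact Nat.eq_of_mul_eq_mul_left h5 (h3.trans h4.symm)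
  have := card_le_card_of_injOn (fun q => m / q) hmap (by
    intro q hq q' hq' h
    exact hinj q (by exact_mod_cast hq) q' (by exact_mod_cast hq') h)
  rw [Nat.card_Icc, Nat.add_sub_cancel] at this
  exact this

theorem pi_form (k : ℕ) (ε : ℝ) (hε : 0 < ε) (A : ℕ) : ∃ x0 : ℕ, ∀ x : ℕ, x0 ≤ x →
    ∀ (a y Q1 Q2 : ℕ) (P : ℝ[X]), 1 ≤ a → a ≤ x → y ≤ x → P.natDegree ≤ k → (x : ℝ) ^ (2 / 3 + ε) ≤ Q1 →
    (Q2 : ℝ) ≤ (x : ℝ) ^ (1 - ε) →
    ‖∑ q ∈ (Ioc Q1 Q2).filter (fun q => a.Coprime q), ee (P.eval (q : ℝ)) *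
      ((((Icc 1 y).filter (fun p : ℕ => p.Prime ∧ p ≡ a [MOD q])).card : ℂ) -
        (((Icc 1 y).filter (fun p : ℕ => p.Prime)).card : ℂ) / (Nat.totient q : ℂ))‖ ≤ x / Real.log x ^ A := by
  obtain ⟨n0, h0⟩ := psi_form k ε hε (A + 1)
  obtain ⟨C1, hC1⟩ := pnt_err (A + 3)
  obtain ⟨n3, hL⟩ := ev_L' (20000 + 4 * 2 ^ (A + 3) * |C1| * 100)
  obtain ⟨n4, hp1⟩ := pow_small (1 / 6) 1 (by norm_num) (A + 6)
  obtain ⟨n5, hp2⟩ := pow_small ε 1 hε (A + 6)
  refine ⟨max (max n0 n3) (max (max n4 n5) 16), fun x hx a y Q1 Q2 P ha hax hyx hP hQ1 hQ2 => ?_⟩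
  have g0 : n0 ≤ x := le_trans (le_trans (le_max_left _ _) (le_max_left _ _)) hx
  have g3 : n3 ≤ x := le_trans (le_trans (le_max_right _ _) (le_max_left _ _)) hx
  have g4 : n4 ≤ x := le_trans (le_trans (le_trans (le_max_left _ _) (le_max_left _ _)) (le_max_right _ _)) hx
  have g5 : n5 ≤ x := le_trans (le_trans (le_trans (le_max_right _ _) (le_max_left _ _)) (le_max_right _ _)) hx
  have g7 : 16 ≤ x := le_trans (le_trans (le_max_right _ _) (le_max_right _ _)) hx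
  have hLx := hL x g3
  have hx0 : (0 : ℝ) < x := by exact_mod_cast (by omega : 0 < x)
  have hx1 : (1 : ℝ) ≤ x := by exact_mod_cast (by omega : 1 ≤ x)
  have hp1' := hp1 x g4
  have hp2' := hp2 x g5
  rw [one_mul] at hp1' hp2'
  have h0' := fun (t : ℕ) (ht : t ≤ x) => h0 x g0 a t Q1 Q2 P ha hax ht hP hQ1 hQ2
  have hQ1r : (1 : ℝ) ≤ Q1 := le_trans (Real.one_le_rpow hx1 (by positivity)) hQ1
  have hQ0 : (0 : ℝ) < Q1 := by linarith
  have hQ1n : 1 ≤ Q1 := by exact_mod_cast hQ1r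
  have hQ2x : Q2 ≤ x := by
    have h2 : (Q2 : ℝ) ≤ x := by
      calc (Q2 : ℝ) ≤ (x : ℝ) ^ (1 - ε) := hQ2
        _ ≤ (x : ℝ) ^ (1 : ℝ) := Real.rpow_le_rpow_of_exponent_le hx1 (by linarith)
        _ = x := Real.rpow_one _
    exact_mod_cast h2
  obtain ⟨L, hLd⟩ : ∃ L, L = x / Q1 := ⟨_, rfl⟩
  have hLQ : (L : ℝ) * Q1 ≤ x := by
    have : L * Q1 ≤ x := by rw [hLd]; exact Nat.div_mul_le_self x Q1
    exact_mod_cast this
  have hLpow : (L : ℝ) ≤ (x : ℝ) ^ (1 / 3 : ℝ) := by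
    have h2 : (L : ℝ) * Q1 ≤ (x : ℝ) ^ (1 / 3 : ℝ) * Q1 := by
      calc (L : ℝ) * Q1 ≤ x := hLQ
        _ = (x : ℝ) ^ (1 / 3 : ℝ) * (x : ℝ) ^ (2 / 3 : ℝ) := by
            rw [← Real.rpow_add hx0]; norm_num
        _ ≤ (x : ℝ) ^ (1 / 3 : ℝ) * (x : ℝ) ^ (2 / 3 + ε) := by
            apply mul_le_mul_of_nonneg_left _ (by positivity)
            exact Real.rpow_le_rpow_of_exponent_le hx1 (by linarith)
        _ ≤ _ := by gcongr
    exact le_of_mul_le_mul_right h2 hQ0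
  have hinvphi : ∑ q ∈ (Ioc Q1 Q2).filter (fun q => a.Coprime q), 1 / (Nat.totient q : ℝ) ≤ (1 + Real.log x) ^ 2 := by
    refine le_trans ?_ (inv_phi_sum Q2 x hQ2x)
    apply sum_le_sum_of_subset_of_nonneg
    · intro q hq
      rw [mem_filter, mem_Ioc] at hq
      rw [mem_Icc]
      omega
    · intro q _ _
      positivity
  obtain ⟨ℓ, hℓ⟩ : ∃ ℓ, ℓ = Real.log x := ⟨_, rfl⟩
  have hlogx : Real.log x = ℓ := hℓ.symm
  rw [hlogx] at hLx hp1' hp2' hinvphi ⊢
  simp only [hlogx] at h0'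
  have hC1abs : 0 ≤ |C1| := abs_nonneg _
  have hC1p : 0 ≤ 4 * 2 ^ (A + 3) * |C1| * 100 := by positivity
  have hℓbig : 20000 ≤ ℓ := by linarith
  have hℓ1 : 1 ≤ ℓ := by linarith
  have hℓ0 : 0 < ℓ := by linarith
  have hℓp : ∀ i j : ℕ, i ≤ j → ℓ ^ i ≤ ℓ ^ j := fun i j h => pow_le_pow_right₀ hℓ1 h
  obtain ⟨S, hS⟩ : ∃ S, S = (Ioc Q1 Q2).filter (fun q => a.Coprime q) := ⟨_, rfl⟩
  obtain ⟨lam, hlam⟩ : ∃ lam : ℕ → ℂ, lam = fun q : ℕ => ee (P.eval (q : ℝ)) := ⟨_, rfl⟩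
  have hlam1 : ∀ q, ‖lam q‖ = 1 := fun q => by rw [hlam]; exact norm_ee _
  rw [← hS] at hinvphi ⊢
  simp only [← hS] at h0'
  have hlamq : ∀ q : ℕ, ee (P.eval (q : ℝ)) = lam q := fun q => by rw [hlam]
  simp only [hlamq] at h0' ⊢
  obtain ⟨w, hw⟩ : ∃ w : ℕ → ℂ, ∀ n, w n = ∑ q ∈ S, (if n ≡ a [MOD q] then lam q else 0) := ⟨_, fun _ => rfl⟩
  obtain ⟨W, hW⟩ : ∃ W : ℂ, W = ∑ q ∈ S, lam q / (Nat.totient q : ℂ) := ⟨_, rfl⟩
  have hWn : ‖W‖ ≤ 4 * ℓ ^ 2 := by
    rw [hW]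
    refine (norm_sum_le _ _).trans ?_
    have e1 : ∀ q ∈ S, ‖lam q / (Nat.totient q : ℂ)‖ = 1 / (Nat.totient q : ℝ) := by
      intro q _
      rw [norm_div, hlam1, Complex.norm_natCast]
    rw [sum_congr rfl e1]
    refine hinvphi.trans ?_
    calc (1 + ℓ) ^ 2 ≤ (2 * ℓ) ^ 2 := pow_le_pow_left₀ (by linarith) (by linarith) 2
      _ = _ := by ring
  -- the sums with the von Mangoldt function
  have hPsi : ∀ t : ℕ, ∑ q ∈ S, lam q * ((Fu (fun n => ArithmeticFunction.vonMangoldt n) t q a - (t : ℝ) / Nat.totient q : ℝ) : ℂ) =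
      ∑ n ∈ Icc 1 t, (((ArithmeticFunction.vonMangoldt n : ℝ) : ℂ) * w n - W) := by
    intro t
    have e1 : ∀ q ∈ S, lam q * ((Fu (fun n => ArithmeticFunction.vonMangoldt n) t q a - (t : ℝ) / Nat.totient q : ℝ) : ℂ) =
        ∑ n ∈ Icc 1 t, (((ArithmeticFunction.vonMangoldt n : ℝ) : ℂ) * (if n ≡ a [MOD q] then lam q else 0) - lam q / (Nat.totient q : ℂ)) := by
      intro q _
      unfold Fu
      rw [sum_filter, sum_sub_distrib, sum_const, Nat.card_Icc, Nat.add_sub_cancel, nsmul_eq_mul]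
      push_cast
      rw [mul_sub, mul_sum]
      congr 1
      · apply sum_congr rfl
        intro n _
        split_ifs
        · push_cast; ring
        · push_cast; ring
      · ring
    rw [sum_congr rfl e1, sum_comm]
    apply sum_congr rfl
    intro n _
    rw [sum_sub_distrib, hw, hW, mul_sum]
  obtain ⟨M, hM⟩ : ∃ M : ℝ, M = x / ℓ ^ (A + 1) + 4 * ℓ ^ 2 := ⟨_, rfl⟩
  have hM0 : 0 ≤ M := by rw [hM]; positivity
  have hB : ∀ t, t ≤ x → ‖∑ n ∈ Icc 2 t, (((ArithmeticFunction.vonMangoldt n : ℝ) : ℂ) * w n - W)‖ ≤ M := by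
    intro t ht
    rcases Nat.eq_zero_or_pos t with h | h
    · rw [h, Icc_eq_empty (by omega), sum_empty, norm_zero]
      exact hM0
    · have e1 : ∑ n ∈ Icc 2 t, (((ArithmeticFunction.vonMangoldt n : ℝ) : ℂ) * w n - W) =
          ∑ n ∈ Icc 1 t, (((ArithmeticFunction.vonMangoldt n : ℝ) : ℂ) * w n - W) + W := by
        have h2 : Icc 1 t = insert 1 (Icc 2 t) := by
          ext i
          rw [mem_insert, mem_Icc, mem_Icc]
          omega
        rw [h2, sum_insert (by rw [mem_Icc]; omega), ArithmeticFunction.vonMangoldt_apply_one]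
        push_cast
        ring
      rw [e1, ← hPsi t, hM]
      exact (norm_add_le _ _).trans (add_le_add (h0' t ht) hWn)
  have hab := abel_log (fun n => ((ArithmeticFunction.vonMangoldt n : ℝ) : ℂ) * w n - W) M hM0 x hB y hyx
  -- the bound for `w`
  have hwle : ∀ n, n ≤ x → n ≠ a → ‖w n‖ ≤ L := by
    intro n hn hna
    rw [hw, ← sum_filter]
    refine (norm_sum_le _ _).trans ?_
    rw [sum_congr rfl (fun q _ => hlam1 q), sum_const, nsmul_eq_mul, mul_one]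
    have h1 := card_dvd x n a Q1 Q2 hna hn hax hQ1n
    rw [← hLd] at h1
    have h2 : (S.filter (fun q => n ≡ a [MOD q])).card ≤ ((Ioc Q1 Q2).filter (fun q => n ≡ a [MOD q])).card := by
      apply card_le_card
      intro q hq
      rw [mem_filter, hS, mem_filter] at hq
      rw [mem_filter]
      exact ⟨hq.1.1, hq.2⟩
    exact_mod_cast h2.trans h1
  have hwa : ∀ n, ‖w n‖ ≤ Q2 := by
    intro n
    rw [hw, ← sum_filter]
    refine (norm_sum_le _ _).trans ?_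
    rw [sum_congr rfl (fun q _ => hlam1 q), sum_const, nsmul_eq_mul, mul_one]
    have h2 : (S.filter (fun q => n ≡ a [MOD q])).card ≤ (Icc 1 Q2).card := by
      apply card_le_card
      intro q hq
      rw [mem_filter, hS, mem_filter, mem_Ioc] at hq
      rw [mem_Icc]
      omega
    rw [Nat.card_Icc, Nat.add_sub_cancel] at h2
    exact_mod_cast h2
  -- the sum over the primes
  have hD : ∑ q ∈ S, lam q * ((((Icc 1 y).filter (fun p : ℕ => p.Prime ∧ p ≡ a [MOD q])).card : ℂ) -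
        (((Icc 1 y).filter (fun p : ℕ => p.Prime)).card : ℂ) / (Nat.totient q : ℂ)) =
      ∑ n ∈ (Icc 1 y).filter (fun p : ℕ => p.Prime), w n - (((Icc 1 y).filter (fun p : ℕ => p.Prime)).card : ℂ) * W := by
    have e1 : ∀ q ∈ S, lam q * ((((Icc 1 y).filter (fun p : ℕ => p.Prime ∧ p ≡ a [MOD q])).card : ℂ) -
        (((Icc 1 y).filter (fun p : ℕ => p.Prime)).card : ℂ) / (Nat.totient q : ℂ)) =
        ∑ n ∈ (Icc 1 y).filter (fun p : ℕ => p.Prime), (if n ≡ a [MOD q] then lam q else 0) -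
        (((Icc 1 y).filter (fun p : ℕ => p.Prime)).card : ℂ) * (lam q / (Nat.totient q : ℂ)) := by
      intro q _
      rw [← filter_filter, ← sum_filter, sum_const, nsmul_eq_mul]
      ring
    rw [sum_congr rfl e1, sum_sub_distrib, sum_comm, ← mul_sum, ← hW]
    congr 1
    apply sum_congr rfl
    intro n _
    rw [hw]
  have hsplit : ∑ n ∈ Icc 2 y, ((1 / Real.log n : ℝ) : ℂ) * (((ArithmeticFunction.vonMangoldt n : ℝ) : ℂ) * w n - W) =
      ∑ n ∈ (Icc 1 y).filter (fun p : ℕ => p.Prime), w n +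
      ∑ n ∈ (Icc 2 y).filter (fun p : ℕ => ¬ p.Prime), ((ArithmeticFunction.vonMangoldt n / Real.log n : ℝ) : ℂ) * w n - ((lis y : ℝ) : ℂ) * W := by
    have e1 : ∑ n ∈ Icc 2 y, ((1 / Real.log n : ℝ) : ℂ) * (((ArithmeticFunction.vonMangoldt n : ℝ) : ℂ) * w n - W) =
        ∑ n ∈ Icc 2 y, ((ArithmeticFunction.vonMangoldt n / Real.log n : ℝ) : ℂ) * w n - ((lis y : ℝ) : ℂ) * W := by
      unfold lis
      push_cast
      rw [sum_mul, ← sum_sub_distrib]
      apply sum_congr rfl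
      intro n _
      ring
    rw [e1, ← sum_filter_add_sum_filter_not (Icc 2 y) (fun p : ℕ => p.Prime)]
    congr 2
    have e2 : (Icc 2 y).filter (fun p : ℕ => p.Prime) = (Icc 1 y).filter (fun p : ℕ => p.Prime) := by
      ext n
      rw [mem_filter, mem_filter, mem_Icc, mem_Icc]
      constructor
      · rintro ⟨h1, h2⟩
        exact ⟨by omega, h2⟩
      · rintro ⟨h1, h2⟩
        have := h2.two_le
        exact ⟨by omega, h2⟩
    rw [e2]
    apply sum_congr rfl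
    intro n hn
    rw [mem_filter] at hn
    rw [ArithmeticFunction.vonMangoldt_apply_prime hn.2, div_self]
    · push_cast; ring
    · have : (2 : ℝ) ≤ n := by exact_mod_cast hn.2.two_le
      exact (Real.log_pos (by linarith)).ne'
  have hnp : ‖∑ n ∈ (Icc 2 y).filter (fun p : ℕ => ¬ p.Prime), ((ArithmeticFunction.vonMangoldt n / Real.log n : ℝ) : ℂ) * w n‖ ≤
      4 * (L * √x * ℓ) + Q2 := by
    have e1 : ∀ n ∈ (Icc 2 y).filter (fun p : ℕ => ¬ p.Prime), ‖((ArithmeticFunction.vonMangoldt n / Real.log n : ℝ) : ℂ) * w n‖ ≤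
        2 * L * ArithmeticFunction.vonMangoldt n + (if n = a then (Q2 : ℝ) else 0) := by
      intro n hn
      rw [mem_filter, mem_Icc] at hn
      have hn2 : (2 : ℝ) ≤ n := by exact_mod_cast hn.1.1
      have hl2 : Real.log 2 ≤ Real.log n := Real.log_le_log (by norm_num) hn2
      have hl2' := Real.log_two_gt_d9
      have hln : 0 < Real.log n := by linarith
      have hL0 : 0 ≤ ArithmeticFunction.vonMangoldt n := ArithmeticFunction.vonMangoldt_nonneg
      rw [norm_mul, Complex.norm_real, Real.norm_of_nonneg (by positivity)]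
      by_cases h : n = a
      · rw [if_pos h]
        have h1 : ArithmeticFunction.vonMangoldt n / Real.log n ≤ 1 := by
          rw [div_le_one hln]
          exact ArithmeticFunction.vonMangoldt_le_log
        have h2 : ArithmeticFunction.vonMangoldt n / Real.log n * ‖w n‖ ≤ 1 * Q2 := mul_le_mul h1 (hwa n) (norm_nonneg _) zero_le_one
        have h3 : 0 ≤ 2 * (L : ℝ) * ArithmeticFunction.vonMangoldt n := by positivity
        linarith
      · rw [if_neg h, add_zero]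
        have h1 : ArithmeticFunction.vonMangoldt n / Real.log n ≤ 2 * ArithmeticFunction.vonMangoldt n := by
          rw [div_le_iff₀ hln]
          nlinarith
        calc ArithmeticFunction.vonMangoldt n / Real.log n * ‖w n‖ ≤ (2 * ArithmeticFunction.vonMangoldt n) * L :=
              mul_le_mul h1 (hwle n (hn.1.2.trans hyx) h) (norm_nonneg _) (by positivity)
          _ = _ := by ring
    refine (norm_sum_le _ _).trans ((sum_le_sum e1).trans ?_)
    rw [sum_add_distrib, ← mul_sum]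
    apply add_le_add
    · have h1 : ∑ n ∈ (Icc 2 y).filter (fun p : ℕ => ¬ p.Prime), ArithmeticFunction.vonMangoldt n ≤
          ∑ n ∈ (Icc 1 x).filter (fun p : ℕ => ¬ p.Prime), ArithmeticFunction.vonMangoldt n := by
        apply sum_le_sum_of_subset_of_nonneg
        · intro n hn
          rw [mem_filter, mem_Icc] at hn
          rw [mem_filter, mem_Icc]
          exact ⟨by omega, hn.2⟩
        · intro n _ _
          exact ArithmeticFunction.vonMangoldt_nonneg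
      have h2 := not_prime_sum x (by omega)
      rw [hlogx] at h2
      calc 2 * (L : ℝ) * ∑ n ∈ (Icc 2 y).filter (fun p : ℕ => ¬ p.Prime), ArithmeticFunction.vonMangoldt n ≤ 2 * L * (2 * (√x * ℓ)) := by
            apply mul_le_mul_of_nonneg_left (h1.trans h2) (by positivity)
        _ = _ := by ring
    · rw [sum_ite_eq']
      split_ifs
      · exact le_rfl
      · exact Nat.cast_nonneg _
  -- the prime number theorem
  have hpnt : |(((Icc 1 y).filter (fun p : ℕ => p.Prime)).card : ℝ) - lis y| ≤ 3 * √x + |C1| * 2 ^ (A + 3) * (x / ℓ ^ (A + 3)) := by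
    have hC0 : 0 ≤ |C1| * 2 ^ (A + 3) * ((x : ℝ) / ℓ ^ (A + 3)) := by positivity
    rcases le_or_gt (y : ℝ) √x with hys | hys
    · have h1 : (((Icc 1 y).filter (fun p : ℕ => p.Prime)).card : ℝ) ≤ y := by
        have := card_filter_le (Icc 1 y) (fun p : ℕ => p.Prime)
        rw [Nat.card_Icc, Nat.add_sub_cancel] at this
        exact_mod_cast this
      have h2 : (0 : ℝ) ≤ (((Icc 1 y).filter (fun p : ℕ => p.Prime)).card : ℝ) := Nat.cast_nonneg _
      have h3 : lis y ≤ 2 * y := by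
        unfold lis
        have h : ∀ n ∈ Icc 2 y, 1 / Real.log (n : ℝ) ≤ 2 := by
          intro n hn
          rw [mem_Icc] at hn
          have h2 : (2 : ℝ) ≤ n := by exact_mod_cast hn.1
          have h3 : Real.log 2 ≤ Real.log n := Real.log_le_log (by norm_num) h2
          have := Real.log_two_gt_d9
          rw [div_le_iff₀ (by linarith)]
          linarith
        refine (sum_le_sum h).trans ?_
        rw [sum_const, nsmul_eq_mul, Nat.card_Icc]
        have h5 : ((y + 1 - 2 : ℕ) : ℝ) ≤ y := by exact_mod_cast (by omega : y + 1 - 2 ≤ y)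
        linarith
      have h4 : 0 ≤ lis y := by
        unfold lis
        apply sum_nonneg
        intro n hn
        rw [mem_Icc] at hn
        have h2 : (2 : ℝ) ≤ n := by exact_mod_cast hn.1
        have := Real.log_pos (show (1 : ℝ) < n by linarith)
        positivity
      rw [abs_le]
      constructor <;> linarith
    · have hy2 : 2 ≤ y := by
        have h1 : (4 : ℝ) ≤ √x := by
          apply Real.le_sqrt_of_sq_le
          have : (16 : ℝ) ≤ x := by exact_mod_cast g7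
          linarith
        have h2 : (2 : ℝ) ≤ y := by linarith
        exact_mod_cast h2
      have hy0 : (0 : ℝ) < y := by exact_mod_cast (by omega : 0 < y)
      have hlogy : ℓ / 2 ≤ Real.log y := by
        have h1 := Real.log_le_log (Real.sqrt_pos.2 hx0) hys.le
        rw [Real.log_sqrt hx0.le, hlogx] at h1
        exact h1
      refine (hC1 y hy2).trans ?_
      have h1 : C1 * y / Real.log y ^ (A + 3) ≤ |C1| * x / (ℓ / 2) ^ (A + 3) := by
        have h2 : C1 ≤ |C1| := le_abs_self _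
        have h3 : (y : ℝ) ≤ x := by exact_mod_cast hyx
        gcongr
      have h2 : |C1| * (x : ℝ) / (ℓ / 2) ^ (A + 3) = |C1| * 2 ^ (A + 3) * (x / ℓ ^ (A + 3)) := by
        rw [div_pow]
        field_simp
      rw [h2] at h1
      have h3 : 0 ≤ 3 * √(x : ℝ) := by positivity
      linarith
  -- conclusion
  have hfinal : ∑ n ∈ (Icc 1 y).filter (fun p : ℕ => p.Prime), w n - (((Icc 1 y).filter (fun p : ℕ => p.Prime)).card : ℂ) * W =
      ∑ n ∈ Icc 2 y, ((1 / Real.log n : ℝ) : ℂ) * (((ArithmeticFunction.vonMangoldt n : ℝ) : ℂ) * w n - W) -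
      ∑ n ∈ (Icc 2 y).filter (fun p : ℕ => ¬ p.Prime), ((ArithmeticFunction.vonMangoldt n / Real.log n : ℝ) : ℂ) * w n -
      (((((Icc 1 y).filter (fun p : ℕ => p.Prime)).card : ℝ) - lis y : ℝ) : ℂ) * W := by
    rw [hsplit]
    push_cast
    ring
  rw [hD, hfinal]
  have hlast : ‖(((((Icc 1 y).filter (fun p : ℕ => p.Prime)).card : ℝ) - lis y : ℝ) : ℂ) * W‖ ≤
      (3 * √x + |C1| * 2 ^ (A + 3) * (x / ℓ ^ (A + 3))) * (4 * ℓ ^ 2) := by
    rw [norm_mul, Complex.norm_real, Real.norm_eq_abs]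
    exact mul_le_mul hpnt hWn (norm_nonneg _) (by positivity)
  refine (norm_sub_le _ _).trans ((add_le_add ((norm_sub_le _ _).trans (add_le_add hab hnp)) hlast).trans ?_)
  have hX : 0 < (x : ℝ) / ℓ ^ A := by positivity
  have hXA : (x : ℝ) / ℓ ^ (A + 1) = 1 / ℓ * (x / ℓ ^ A) := by rw [pow_succ]; field_simp
  have hinv : 1 / ℓ ≤ 1 / 20000 := one_div_le_one_div_of_le (by norm_num) hℓbig
  have t1 : (x : ℝ) / ℓ ^ (A + 1) ≤ 1 / 20000 * (x / ℓ ^ A) := by
    rw [hXA]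
    exact mul_le_mul_of_nonneg_right hinv hX.le
  -- small terms
  have hsq : √(x : ℝ) * ℓ ^ (A + 6) ≤ x := by
    rw [Real.sqrt_eq_rpow]
    calc (x : ℝ) ^ (1 / 2 : ℝ) * ℓ ^ (A + 6) ≤ (x : ℝ) ^ (1 / 2 : ℝ) * (x : ℝ) ^ (1 / 6 : ℝ) := by gcongr
      _ = (x : ℝ) ^ (2 / 3 : ℝ) := by rw [← Real.rpow_add hx0]; norm_num
      _ ≤ (x : ℝ) ^ (1 : ℝ) := Real.rpow_le_rpow_of_exponent_le hx1 (by norm_num)
      _ = x := Real.rpow_one _
  have hLsq : (L : ℝ) * √x * ℓ ^ (A + 6) ≤ x := by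
    rw [Real.sqrt_eq_rpow]
    calc (L : ℝ) * (x : ℝ) ^ (1 / 2 : ℝ) * ℓ ^ (A + 6) ≤ (x : ℝ) ^ (1 / 3 : ℝ) * (x : ℝ) ^ (1 / 2 : ℝ) * (x : ℝ) ^ (1 / 6 : ℝ) := by gcongr
      _ = x := by rw [← Real.rpow_add hx0, ← Real.rpow_add hx0]; norm_num
  have hQ2s : (Q2 : ℝ) * ℓ ^ (A + 6) ≤ x := by
    calc (Q2 : ℝ) * ℓ ^ (A + 6) ≤ (x : ℝ) ^ (1 - ε) * (x : ℝ) ^ ε := by gcongr
      _ = x := by rw [← Real.rpow_add hx0]; norm_num
  have hgen : ∀ c : ℝ, ∀ i : ℕ, i + A + 1 ≤ A + 6 → 0 ≤ c → c * ℓ ^ (A + 6) ≤ x → c * ℓ ^ i ≤ 1 / 20000 * (x / ℓ ^ A) := by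
    intro c i hi hc h1
    refine le_trans ?_ t1
    rw [le_div_iff₀ (by positivity)]
    calc c * ℓ ^ i * ℓ ^ (A + 1) = c * ℓ ^ (i + A + 1) := by ring
      _ ≤ c * ℓ ^ (A + 6) := mul_le_mul_of_nonneg_left (hℓp _ _ hi) hc
      _ ≤ x := h1
  have s1 := hgen √x 2 (by omega) (Real.sqrt_nonneg _) hsq
  have s2 := hgen (L * √x) 1 (by omega) (by positivity) hLsq
  have s3 := hgen Q2 0 (by omega) (Nat.cast_nonneg _) hQ2s
  have s4 : ℓ ^ 2 ≤ 1 / 20000 * (x / ℓ ^ A) := by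
    have h1 : (1 : ℝ) ≤ √x := by rw [Real.one_le_sqrt]; exact hx1
    have h2 : 1 * ℓ ^ 2 ≤ √x * ℓ ^ 2 := mul_le_mul_of_nonneg_right h1 (by positivity)
    linarith
  rw [pow_zero, mul_one] at s3
  rw [pow_one] at s2
  have s5 : |C1| * 2 ^ (A + 3) * ((x : ℝ) / ℓ ^ (A + 3)) * (4 * ℓ ^ 2) ≤ 1 / 100 * (x / ℓ ^ A) := by
    have h1 : |C1| * 2 ^ (A + 3) * ((x : ℝ) / ℓ ^ (A + 3)) * (4 * ℓ ^ 2) = (4 * 2 ^ (A + 3) * |C1|) / ℓ * (x / ℓ ^ A) := by
      rw [show A + 3 = A + 1 + 2 by ring, pow_add ℓ (A + 1) 2, pow_add ℓ A 1, pow_one]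
      field_simp
    rw [h1]
    apply mul_le_mul_of_nonneg_right _ hX.le
    rw [div_le_iff₀ hℓ0]
    linarith
  rw [hM]
  have e9 : (3 * √(x : ℝ) + |C1| * 2 ^ (A + 3) * (x / ℓ ^ (A + 3))) * (4 * ℓ ^ 2) =
      12 * (√x * ℓ ^ 2) + |C1| * 2 ^ (A + 3) * ((x : ℝ) / ℓ ^ (A + 3)) * (4 * ℓ ^ 2) := by ring
  rw [e9]
  linarith

end Pool.Agent.W5h32.PM
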