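import Mathlib
import Pool.Agent.W5h32.PM.Main

/-! Polynomial phases in the modulus: all `x` and real exponents. -/

set_option autoImplicit false

namespace Pool.Agent.W5h32.PM
open Finset Polynomial
open Pool.Agent.Helper602.MK (ee)
open Pool.Agent.Helper602.MK.N_J5b (norm_ee)

theorem fin_form (k : ℕ) (ε A : ℝ) (hε : 0 < ε) : ∃ C : ℝ, ∀ x : ℕ, 2 < x →
    ∀ (a y Q1 Q2 : ℕ) (P : ℝ[X]), 1 ≤ a → a ≤ x → y ≤ x → P.natDegree ≤ k → (x : ℝ) ^ (2 / 3 + ε) ≤ Q1 →
    (Q2 : ℝ) ≤ (x : ℝ) ^ (1 - ε) →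
    ‖∑ q ∈ (Ioc Q1 Q2).filter (fun q => a.Coprime q), ee (P.eval (q : ℝ)) *
      ((((Icc 1 y).filter (fun p : ℕ => p.Prime ∧ p ≡ a [MOD q])).card : ℂ) -
        (((Icc 1 y).filter (fun p : ℕ => p.Prime)).card : ℂ) / (Nat.totient q : ℂ))‖ ≤ C * (x / Real.log x ^ A) := by
  obtain ⟨U, hU⟩ : ∃ U, U = ⌈|A|⌉₊ := ⟨_, rfl⟩
  have hUA : A ≤ U := (le_abs_self A).trans (by rw [hU]; exact Nat.le_ceil _)
  obtain ⟨x0, hx0⟩ := pi_form k ε hε U
  obtain ⟨X, hX⟩ : ∃ X : ℕ, X = max x0 3 := ⟨_, rfl⟩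
  have hX3 : 3 ≤ X := by rw [hX]; exact le_max_right _ _
  have hlogge : ∀ n : ℕ, 2 < n → 1 ≤ Real.log n := by
    intro n hn
    have hx3 : (3 : ℝ) ≤ n := by exact_mod_cast hn
    rw [Real.le_log_iff_exp_le (by linarith)]
    have := Real.exp_one_lt_d9
    linarith
  obtain ⟨C, hC⟩ : ∃ C : ℝ, C = max 1 ((X : ℝ) ^ 2 * Real.log X ^ |A|) := ⟨_, rfl⟩
  have hC1 : 1 ≤ C := by rw [hC]; exact le_max_left _ _
  have hC2 : (X : ℝ) ^ 2 * Real.log X ^ |A| ≤ C := by rw [hC]; exact le_max_right _ _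
  refine ⟨C, fun x hx a y Q1 Q2 P ha hax hyx hP hQ1 hQ2 => ?_⟩
  have hx3 : (3 : ℝ) ≤ x := by exact_mod_cast hx
  have rx : (0 : ℝ) < x := by linarith
  have hL1 := hlogge x hx
  have hL0 : 0 < Real.log x := by linarith
  have hLA : 0 < Real.log x ^ A := by positivity
  rcases lt_or_ge x X with hlt | hge
  · -- trivial bound
    have hxX : (x : ℝ) ≤ X := by exact_mod_cast hlt.le
    have hQ2x : Q2 ≤ x := by
      have : (Q2 : ℝ) ≤ x := hQ2.trans (by
        calc (x : ℝ) ^ (1 - ε) ≤ (x : ℝ) ^ (1 : ℝ) :=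
              Real.rpow_le_rpow_of_exponent_le (by linarith) (by linarith)
          _ = x := Real.rpow_one _)
      exact_mod_cast this
    have e1 : ∀ q ∈ (Ioc Q1 Q2).filter (fun q => a.Coprime q), ‖ee (P.eval (q : ℝ)) *
        ((((Icc 1 y).filter (fun p : ℕ => p.Prime ∧ p ≡ a [MOD q])).card : ℂ) -
        (((Icc 1 y).filter (fun p : ℕ => p.Prime)).card : ℂ) / (Nat.totient q : ℂ))‖ ≤ x := by
      intro q hq
      rw [mem_filter, mem_Ioc] at hq
      rw [norm_mul, norm_ee, one_mul]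
      have hφ : (1 : ℝ) ≤ Nat.totient q := by exact_mod_cast Nat.totient_pos.mpr (by omega)
      obtain ⟨u, hu⟩ : ∃ u : ℕ, u = ((Icc 1 y).filter (fun p : ℕ => p.Prime ∧ p ≡ a [MOD q])).card := ⟨_, rfl⟩
      obtain ⟨v, hv⟩ : ∃ v : ℕ, v = ((Icc 1 y).filter (fun p : ℕ => p.Prime)).card := ⟨_, rfl⟩
      rw [← hu, ← hv]
      have hux : u ≤ x := by
        rw [hu]
        refine (card_filter_le _ _).trans ?_
        rw [Nat.card_Icc]; omega
      have hvx : v ≤ x := by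
        rw [hv]
        refine (card_filter_le _ _).trans ?_
        rw [Nat.card_Icc]; omega
      have hux' : (u : ℝ) ≤ x := by exact_mod_cast hux
      have hvx' : (v : ℝ) ≤ x := by exact_mod_cast hvx
      have h5 : (v : ℝ) / Nat.totient q ≤ x := by
        rw [div_le_iff₀ (by linarith)]
        nlinarith
      have h6 : (0 : ℝ) ≤ (v : ℝ) / Nat.totient q := by positivity
      have h7 : (0 : ℝ) ≤ u := Nat.cast_nonneg _
      have e2 : ((u : ℂ) - (v : ℂ) / (Nat.totient q : ℂ)) = (((u : ℝ) - (v : ℝ) / (Nat.totient q : ℝ) : ℝ) : ℂ) := by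
        push_cast; ring
      rw [e2, Complex.norm_real, Real.norm_eq_abs, abs_le]
      constructor <;> linarith
    have hcard : (((Ioc Q1 Q2).filter (fun q => a.Coprime q)).card : ℝ) ≤ x := by
      have : ((Ioc Q1 Q2).filter (fun q => a.Coprime q)).card ≤ x := by
        refine (card_filter_le _ _).trans ?_
        rw [Nat.card_Ioc]; omega
      exact_mod_cast this
    have e3 : ‖∑ q ∈ (Ioc Q1 Q2).filter (fun q => a.Coprime q), ee (P.eval (q : ℝ)) *
      ((((Icc 1 y).filter (fun p : ℕ => p.Prime ∧ p ≡ a [MOD q])).card : ℂ) -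
        (((Icc 1 y).filter (fun p : ℕ => p.Prime)).card : ℂ) / (Nat.totient q : ℂ))‖ ≤ x * x := by
      refine (norm_sum_le _ _).trans ((sum_le_sum e1).trans ?_)
      rw [sum_const, nsmul_eq_mul]
      exact mul_le_mul_of_nonneg_right hcard rx.le
    refine e3.trans ?_
    rw [← mul_div_assoc, le_div_iff₀ hLA]
    have hA : Real.log x ^ A ≤ Real.log X ^ |A| := by
      calc Real.log x ^ A ≤ Real.log x ^ |A| := Real.rpow_le_rpow_of_exponent_le hL1 (le_abs_self A)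
        _ ≤ Real.log X ^ |A| := Real.rpow_le_rpow hL0.le (Real.log_le_log rx hxX) (abs_nonneg A)
    calc (x : ℝ) * x * Real.log x ^ A ≤ (X : ℝ) * X * Real.log X ^ |A| := by gcongr
      _ = (X : ℝ) ^ 2 * Real.log X ^ |A| := by ring
      _ ≤ C := hC2
      _ ≤ C * x := by nlinarith
  · have hge' : x0 ≤ x := le_trans (by rw [hX]; exact le_max_left _ _) hge
    refine (hx0 x hge' a y Q1 Q2 P ha hax hyx hP hQ1 hQ2).trans ?_
    have h1 : Real.log x ^ A ≤ Real.log x ^ U := by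
      rw [← Real.rpow_natCast]
      exact Real.rpow_le_rpow_of_exponent_le hL1 hUA
    have h2 : (x : ℝ) / Real.log x ^ U ≤ x / Real.log x ^ A := by gcongr
    have h3 : (0 : ℝ) ≤ x / Real.log x ^ A := by positivity
    nlinarith

end Pool.Agent.W5h32.PM
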