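import Mathlib
import Pool.Agent.W5h32.PM.Fin

/-! Polynomial phases in the modulus: moduli in an arithmetic progression. -/

set_option autoImplicit false

namespace Pool.Agent.W5h32.PM
open Finset Polynomial
open Pool.Agent.Helper602.MK (ee)
open Pool.Agent.Helper602.MK.N_J5b (norm_ee ee_nat_mul ee_int ee_eq_one_iff ee_add)

lemma orth_ap (d : ℕ) (hd : 0 < d) (b q : ℕ) :
    (if q ≡ b [MOD d] then (1 : ℂ) else 0) = 1 / d * ∑ j ∈ range d, ee ((j : ℝ) * (((q : ℝ) - b) / d)) := by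
  have hd0 : (d : ℝ) ≠ 0 := by exact_mod_cast hd.ne'
  have hdC : (d : ℂ) ≠ 0 := by exact_mod_cast hd.ne'
  by_cases h : q ≡ b [MOD d]
  · rw [if_pos h]
    have h1 : (d : ℤ) ∣ (q : ℤ) - b := by
      have := (Nat.modEq_iff_dvd.1 h.symm)
      exact this
    obtain ⟨m, hm⟩ := h1
    have h2 : ∀ j ∈ range d, ee ((j : ℝ) * (((q : ℝ) - b) / d)) = 1 := by
      intro j _
      have e1 : ((q : ℝ) - b) = (d : ℝ) * (m : ℝ) := by exact_mod_cast hm
      have : (j : ℝ) * (((q : ℝ) - b) / d) = (((j : ℤ) * m : ℤ) : ℝ) := by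
        rw [e1]
        push_cast
        field_simp
      rw [this, ee_int]
    rw [sum_congr rfl h2, sum_const, card_range, nsmul_eq_mul, mul_one]
    field_simp
  · rw [if_neg h]
    have h1 : ∀ j ∈ range d, ee ((j : ℝ) * (((q : ℝ) - b) / d)) = ee (((q : ℝ) - b) / d) ^ j := by
      intro j _
      rw [ee_nat_mul]
    rw [sum_congr rfl h1]
    have hw1 : ee (((q : ℝ) - b) / d) ≠ 1 := by
      intro h2
      rw [ee_eq_one_iff] at h2
      obtain ⟨n, hn⟩ := h2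
      rw [div_eq_iff hd0] at hn
      have h3 : (q : ℤ) - b = n * d := by exact_mod_cast hn
      exact h (Nat.modEq_iff_dvd.2 ⟨n, by rw [h3]; ring⟩).symm
    rw [geom_sum_eq hw1]
    have h2 : ee (((q : ℝ) - b) / d) ^ d = 1 := by
      rw [← ee_nat_mul]
      have : (d : ℝ) * (((q : ℝ) - b) / d) = (((q : ℤ) - b : ℤ) : ℝ) := by
        push_cast
        field_simp
      rw [this, ee_int]
    rw [h2]
    simp

theorem fin_ap (k : ℕ) (ε A : ℝ) (hε : 0 < ε) : ∃ K : ℝ, ∀ x : ℕ, 2 < x →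
    ∀ (a y Q1 Q2 b d : ℕ) (P : ℝ[X]), 1 ≤ a → a ≤ x → y ≤ x → 0 < d → P.natDegree ≤ k → (x : ℝ) ^ (2 / 3 + ε) ≤ Q1 →
    (Q2 : ℝ) ≤ (x : ℝ) ^ (1 - ε) →
    ‖∑ q ∈ (Ioc Q1 Q2).filter (fun q => a.Coprime q ∧ q ≡ b [MOD d]), ee (P.eval (q : ℝ)) *
      ((((Icc 1 y).filter (fun p : ℕ => p.Prime ∧ p ≡ a [MOD q])).card : ℂ) -
        (((Icc 1 y).filter (fun p : ℕ => p.Prime)).card : ℂ) / (Nat.totient q : ℂ))‖ ≤ K * (x / Real.log x ^ A) := by
  obtain ⟨K, hC⟩ := fin_form (max k 1) ε A hε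
  refine ⟨K, fun x hx a y Q1 Q2 b d P ha hax hyx hd hP hQ1 hQ2 => ?_⟩
  obtain ⟨f, hf⟩ : ∃ f : ℕ → ℂ, f = fun q => ((((Icc 1 y).filter (fun p : ℕ => p.Prime ∧ p ≡ a [MOD q])).card : ℂ) -
        (((Icc 1 y).filter (fun p : ℕ => p.Prime)).card : ℂ) / (Nat.totient q : ℂ)) := ⟨_, rfl⟩
  have hdR : (0 : ℝ) < d := by exact_mod_cast hd
  have key : ∑ q ∈ (Ioc Q1 Q2).filter (fun q => a.Coprime q ∧ q ≡ b [MOD d]), ee (P.eval (q : ℝ)) * f q =
      1 / d * ∑ j ∈ range d, ∑ q ∈ (Ioc Q1 Q2).filter (fun q => a.Coprime q),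
        ee ((P + C ((j : ℝ) / d) * (X - C (b : ℝ))).eval (q : ℝ)) * f q := by
    rw [← filter_filter, sum_filter, sum_comm, mul_sum]
    apply sum_congr rfl
    intro q _
    have e1 : (if q ≡ b [MOD d] then ee (P.eval (q : ℝ)) * f q else 0) =
        (if q ≡ b [MOD d] then (1 : ℂ) else 0) * (ee (P.eval (q : ℝ)) * f q) := by
      split_ifs <;> ring
    rw [e1, orth_ap d hd b q, mul_assoc]
    congr 1
    rw [sum_mul]
    apply sum_congr rfl
    intro j _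
    rw [eval_add, eval_mul, eval_C, eval_sub, eval_X, eval_C, ee_add]
    have : (j : ℝ) * (((q : ℝ) - b) / d) = (j : ℝ) / d * ((q : ℝ) - b) := by ring
    rw [this]
    ring
  have hnorm : ∀ j ∈ range d, ‖∑ q ∈ (Ioc Q1 Q2).filter (fun q => a.Coprime q),
        ee ((P + C ((j : ℝ) / d) * (X - C (b : ℝ))).eval (q : ℝ)) * f q‖ ≤ K * (x / Real.log x ^ A) := by
    intro j _
    rw [hf]
    apply hC x hx a y Q1 Q2 _ ha hax hyx _ hQ1 hQ2
    refine (natDegree_add_le _ _).trans (max_le_max hP ?_)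
    refine (natDegree_mul_le).trans ?_
    rw [natDegree_C, zero_add]
    exact (natDegree_X_sub_C_le _)
  have hgoal : ‖∑ q ∈ (Ioc Q1 Q2).filter (fun q => a.Coprime q ∧ q ≡ b [MOD d]), ee (P.eval (q : ℝ)) * f q‖ ≤
      K * (x / Real.log x ^ A) := by
    rw [key, norm_mul]
    have h1 : ‖(1 / d : ℂ)‖ = 1 / d := by
      rw [norm_div, norm_one, Complex.norm_natCast]
    rw [h1]
    have h2 := (norm_sum_le _ _).trans (sum_le_sum hnorm)
    rw [sum_const, card_range, nsmul_eq_mul] at h2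
    calc (1 / d : ℝ) * _ ≤ 1 / d * (d * (K * (x / Real.log x ^ A))) := by
          apply mul_le_mul_of_nonneg_left h2 (by positivity)
      _ = K * (x / Real.log x ^ A) := by field_simp
  rw [hf] at hgoal
  exact hgoal

end Pool.Agent.W5h32.PM
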